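import Pool.Agent.H66.TA.Rel

/-!
The facts about pairs of elements which are used in the case analysis, and their first
consequences.
-/

namespace Pool.Agent.H66.TA

open FreeAlgebra Polynomial Module

variable {K : Type*} [Field K]

/-- the leading forms commute -/
def Com (u v : A K) : Prop := Commute (lf u) (lf v)

theorem Com.symm {u v : A K} (h : Com u v) : Com v u := Commute.symm h

/-- not (commuting and divisible) -/
def NT (a b : A K) : Prop := ¬ (Com a b ∧ dg b ∣ dg a)

/-- the inequality `(S2)` -/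
def S2 (a b : A K) : Prop := dg b < dg (br a b) ∧ dg a < dg (br a b) + dg b

/-- The facts about pairs. -/
structure PF (K : Type*) [Field K] : Prop where
  c0 : ∀ u v : A K, dg v ≠ 0 → Com u v → dg v ∣ dg u → ∃ c : K, lf u = c • lf v ^ (dg u / dg v)
  ct : ∀ u v w : A K, dg v ≠ 0 → Com u v → Com v w → Com u w
  tc : ∀ a b : A K, br a b ≠ 0 → dg b ≠ 0 → ¬ Com (br a b) b
  p1 : ∀ (g : Gp K) (P : A K), P ∈ (B : Subalgebra K (A K)) → ¬ Com (g (x K 1)) (g (x K 2)) →
    dg (g (x K 2)) ≤ dg (g (x K 1)) → dg (g P) < dg (g (x K 1)) + dg (g (x K 2)) →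
    ∃ (α : K) (q : K[X]), P = α • x K 1 + q2 q
  p1b : ∀ (g : Gp K) (P : A K), P ∈ (B : Subalgebra K (A K)) → ¬ Com (g (x K 1)) (g (x K 2)) →
    Com (g P) (g (x K 2)) → ∃ (c : K) (s : ℕ), lf (g P) = c • lf (g (x K 2)) ^ s
  p2 : ∀ (g : Gp K) (P : A K), P ∈ (B : Subalgebra K (A K)) → Com (g (x K 1)) (g (x K 2)) →
    dg (g (x K 2)) < dg (g (x K 1)) → ¬ dg (g (x K 2)) ∣ dg (g (x K 1)) →
    S2 (g (x K 1)) (g (x K 2)) → dg (g P) ≤ dg (g (x K 1)) →
    ∃ (α β : K) (q : K[X]), P = α • x K 1 + qb β q
  p2' : ∀ (g : Gp K) (P : A K), P ∈ (B : Subalgebra K (A K)) → Com (g (x K 1)) (g (x K 2)) →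
    dg (g (x K 2)) < dg (g (x K 1)) → ¬ dg (g (x K 2)) ∣ dg (g (x K 1)) →
    S2 (g (x K 1)) (g (x K 2)) → dg (g P) < dg (br (g (x K 1)) (g (x K 2))) →
    ∃ (α : K) (q : K[X]), P = α • x K 1 + q2 q

theorem lf_add_eq {u v : A K} (h : dg u = dg v) (h0 : lf u + lf v ≠ 0) :
    dg (u + v) = dg u ∧ lf (u + v) = lf u + lf v := by
  have e : hc (dg u) (u + v) = lf u + lf v := by
    rw [map_add]
    conv_lhs => rw [show hc (dg u) v = hc (dg v) v by rw [h]]
    rfl
  have h1 : dg (u + v) ≤ dg u := (dg_add_le u v).trans (max_le le_rfl (le_of_eq h.symm))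
  have h2 : dg u ≤ dg (u + v) := by
    by_contra hlt
    rw [not_le] at hlt
    apply h0
    rw [← e]
    exact hc_eq_zero_of_lt hlt
  have h3 := le_antisymm h1 h2
  refine ⟨h3, ?_⟩
  rw [lf_eq_hc, h3, e]

theorem dg_add_eq_right {a b : A K} (h : dg a < dg b) : dg (a + b) = dg b := by
  rw [add_comm]; exact dg_add_eq_left h

theorem lf_add_right {a b : A K} (h : dg a < dg b) : lf (a + b) = lf b := by
  rw [add_comm]; exact lf_add_left h

theorem g_ne_const (g : Gp K) {u : A K} (h : dg (g u) = 0) : dg u = 0 := by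
  obtain ⟨c, hc⟩ := dg_eq_zero.mp h
  apply dg_eq_zero.mpr
  refine ⟨c, g.injective ?_⟩
  rw [hc, AlgEquiv.commutes]

theorem dg_gx (g : Gp K) (i : Fin 3) : dg (g (x K i)) ≠ 0 := fun h => by
  have := g_ne_const g h
  rw [dg_x] at this
  exact one_ne_zero this

/-- degree and leading form of a polynomial in one element -/
theorem dg_aeval {b : A K} (hb : dg b ≠ 0) (q : K[X]) :
    dg (aeval b q) = q.natDegree * dg b ∧
      (q ≠ 0 → lf (aeval b q) = q.leadingCoeff • lf b ^ q.natDegree) := by
  have hb0 : b ≠ 0 := fun h => hb (by rw [h, dg_zero])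
  induction hn : q.natDegree using Nat.strong_induction_on generalizing q with
  | _ n ih =>
    by_cases hq : q = 0
    · subst hq
      rw [natDegree_zero] at hn
      subst hn
      rw [map_zero, dg_zero, zero_mul]
      exact ⟨rfl, fun h => absurd rfl h⟩
    · have hlead : q.leadingCoeff ≠ 0 := leadingCoeff_ne_zero.mpr hq
      have hdec : aeval b q = aeval b q.eraseLead + q.leadingCoeff • b ^ n := by
        conv_lhs => rw [← eraseLead_add_monomial_natDegree_leadingCoeff q]
        rw [map_add, aeval_monomial, hn, Algebra.smul_def]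
      have hmon : dg (q.leadingCoeff • b ^ n) = n * dg b := by rw [dg_smul hlead, dg_pow]
      have hmonl : lf (q.leadingCoeff • b ^ n) = q.leadingCoeff • lf b ^ n := by
        rw [lf_smul, lf_pow]
      by_cases hn0 : n = 0
      · subst hn0
        have hC := eq_C_of_natDegree_eq_zero hn
        have hlc : q.leadingCoeff = q.coeff 0 := by rw [leadingCoeff, hn]
        rw [hC, aeval_C]
        refine ⟨by rw [dg_algebraMap, zero_mul], fun _ => ?_⟩
        rw [leadingCoeff_C, pow_zero, ← Algebra.algebraMap_eq_smul_one]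
        obtain h0 := (hom_lf (algebraMap K (A K) (q.coeff 0)))
        rw [lf, AlgHom.commutes]
        exact leadingCoeff_C _
      · by_cases he : q.eraseLead = 0
        · rw [hdec, he, map_zero, zero_add]
          exact ⟨hmon, fun _ => hmonl⟩
        · have hlt : q.eraseLead.natDegree < n := by
            rw [← hn]
            have h1 := eraseLead_natDegree_lt_or_eraseLead_eq_zero q
            rcases h1 with h1 | h1
            · exact h1
            · exact absurd h1 he
          have ih' := (ih _ hlt q.eraseLead rfl).1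
          have hlt2 : dg (aeval b q.eraseLead) < dg (q.leadingCoeff • b ^ n) := by
            rw [ih', hmon]
            exact Nat.mul_lt_mul_of_pos_right hlt (Nat.pos_of_ne_zero hb)
          rw [hdec]
          exact ⟨by rw [dg_add_eq_right hlt2, hmon], fun _ => by rw [lf_add_right hlt2, hmonl]⟩

theorem com_aeval {b : A K} (hb : dg b ≠ 0) (q : K[X]) : Com (aeval b q) b := by
  by_cases hq : q = 0
  · subst hq
    rw [Com, map_zero, lf_eq_zero.mpr rfl]
    exact Commute.zero_left _
  · rw [Com, (dg_aeval hb q).2 hq]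
    exact ((Commute.refl (lf b)).pow_left _).smul_left _

/-- a sum `α a + q(b)` for a pair `a, b` that is not of divisible type -/
theorem NT.sum {a b : A K} (h : NT a b) (hb : dg b ≠ 0) (α : K) (q : K[X]) :
    dg (α • a) ≤ dg (α • a + aeval b q) ∧ dg (aeval b q) ≤ dg (α • a + aeval b q) ∧
      (dg (aeval b q) < dg (α • a) → lf (α • a + aeval b q) = α • lf a) ∧
      (dg (α • a) < dg (aeval b q) → lf (α • a + aeval b q) = lf (aeval b q)) := by
  have key : dg (α • a) = dg (aeval b q) → dg (α • a + aeval b q) = dg (α • a) := by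
    intro he
    by_cases hα : α = 0
    · subst hα
      rw [zero_smul, dg_zero] at he
      rw [zero_smul, zero_add, ← he, dg_zero]
    · by_cases hq : q = 0
      · rw [hq, map_zero, add_zero]
      · refine (lf_add_eq he ?_).1
        intro hz
        apply h
        rw [lf_smul, (dg_aeval hb q).2 hq] at hz
        have hla : lf a = (-(α⁻¹ * q.leadingCoeff)) • lf b ^ q.natDegree := by
          have h1 := eq_neg_of_add_eq_zero_left hz
          have h2 := congrArg (fun z => α⁻¹ • z) h1
          simp only [inv_smul_smul₀ hα, smul_neg, smul_smul] at h2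
          rw [h2, neg_smul]
        constructor
        · rw [Com, hla]
          exact ((Commute.refl (lf b)).pow_left _).smul_left _
        · rw [dg_smul hα, (dg_aeval hb q).1] at he
          exact ⟨_, by rw [he, mul_comm]⟩
  rcases lt_trichotomy (dg (α • a)) (dg (aeval b q)) with h1 | h1 | h1
  · refine ⟨?_, ?_, fun h2 => absurd h2 (not_lt.mpr h1.le), fun _ => lf_add_right h1⟩
    · rw [dg_add_eq_right h1]; exact h1.le
    · rw [dg_add_eq_right h1]
  · refine ⟨?_, ?_, fun h2 => absurd h2 (by omega), fun h2 => absurd h2 (by omega)⟩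
    · rw [key h1]
    · rw [key h1, h1]
  · refine ⟨?_, ?_, fun _ => ?_, fun h2 => absurd h2 (not_lt.mpr h1.le)⟩
    · rw [dg_add_eq_left h1]
    · rw [dg_add_eq_left h1]; exact h1.le
    · rw [lf_add_left h1, lf_smul]

/-- sum of an element whose leading form does not commute with `lf b` and one whose does -/
theorem mix_sum {b u v : A K} (hu : ¬ Com u b) (hv : Com v b) :
    dg u ≤ dg (u + v) ∧ dg v ≤ dg (u + v) ∧ (dg v ≤ dg u → ¬ Com (u + v) b) ∧
      (dg u < dg v → lf (u + v) = lf v) := by
  rcases lt_trichotomy (dg u) (dg v) with h1 | h1 | h1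
  · refine ⟨?_, ?_, fun h2 => absurd h2 (not_le.mpr h1), fun _ => lf_add_right h1⟩
    · rw [dg_add_eq_right h1]; exact h1.le
    · rw [dg_add_eq_right h1]
  · have hne : lf u + lf v ≠ 0 := by
      intro hz
      apply hu
      have := eq_neg_of_add_eq_zero_left hz
      rw [Com, this]
      exact Commute.neg_left hv
    obtain ⟨e1, e2⟩ := lf_add_eq h1 hne
    refine ⟨by rw [e1], by rw [e1, h1], fun _ hc => ?_, fun h2 => absurd h2 (by omega)⟩
    apply hu
    rw [Com, e2] at hc
    have := hc.sub_left hv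
    rwa [add_sub_cancel_right] at this
  · refine ⟨?_, ?_, fun _ hc => ?_, fun h2 => absurd h2 (not_lt.mpr h1.le)⟩
    · rw [dg_add_eq_left h1]
    · rw [dg_add_eq_left h1]; exact h1.le
    · apply hu
      rwa [Com, lf_add_left h1] at hc

theorem not_com_ne_zero {u b : A K} (h : ¬ Com u b) : u ≠ 0 := by
  rintro rfl
  apply h
  rw [Com, lf_eq_zero.mpr rfl]
  exact Commute.zero_left _

theorem Com.smul_left {u b : A K} (h : Com u b) (c : K) : Com (c • u) b := by
  rw [Com, lf_smul]
  exact Commute.smul_left h c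

theorem com_smul_iff {u b : A K} {c : K} (hc : c ≠ 0) : Com (c • u) b ↔ Com u b :=
  ⟨fun h => by
    have := h.smul_left c⁻¹
    rwa [inv_smul_smul₀ hc] at this, fun h => h.smul_left c⟩

/-- degree of the commutator when the leading forms do not commute -/
theorem dg_br {a b : A K} (h : ¬ Com a b) :
    dg (br a b) = dg a + dg b ∧ lf (br a b) = lf a * lf b - lf b * lf a := by
  have ha : a ≠ 0 := not_com_ne_zero h
  have hb : b ≠ 0 := not_com_ne_zero (fun e => h (Com.symm e))
  have e : dg (a * b) = dg (-(b * a)) := by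
    rw [dg_neg, dg_mul ha hb, dg_mul hb ha, add_comm]
  have hne : lf (a * b) + lf (-(b * a)) ≠ 0 := by
    rw [lf_neg, lf_mul, lf_mul, ← sub_eq_add_neg]
    intro hz
    exact h (sub_eq_zero.mp hz)
  obtain ⟨e1, e2⟩ := lf_add_eq e hne
  rw [br, sub_eq_add_neg, e1, e2, dg_mul ha hb, lf_neg, lf_mul, lf_mul, ← sub_eq_add_neg]
  exact ⟨rfl, rfl⟩

theorem dg_br_le (a b : A K) : dg (br a b) ≤ dg a + dg b := by
  rw [br]
  refine (dg_sub_le _ _).trans (max_le (dg_mul_le a b) ?_)
  rw [add_comm]
  exact dg_mul_le b a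

theorem br_gx_ne (g : Gp K) {i j : Fin 3} (hij : i ≠ j) : br (g (x K i)) (g (x K j)) ≠ 0 := by
  rw [← map_br]
  intro h
  have h2 : br (x K i) (x K j) = 0 := g.injective (by rw [h, map_zero])
  have h3 := congrArg (co (FreeMonoid.of i * FreeMonoid.of j)) h2
  rw [br, ← mon_of, ← mon_of, ← mon_mul, ← mon_mul, map_sub, co_mon, co_mon, if_pos rfl,
    map_zero, if_neg] at h3
  · simp at h3
  · intro e
    have := congrArg FreeMonoid.toList e
    simp only [FreeMonoid.toList_mul, FreeMonoid.toList_of] at this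
    simp only [List.cons_append, List.nil_append, List.cons.injEq, and_true] at this
    exact hij this.2

/-- combined form of `p1` and `p2'` -/
theorem PF.p12 (F : PF K) (g : Gp K) (P : A K) (hP : P ∈ (B : Subalgebra K (A K)))
    (hnt : NT (g (x K 1)) (g (x K 2))) (hle : dg (g (x K 2)) ≤ dg (g (x K 1)))
    (hS : Com (g (x K 1)) (g (x K 2)) → S2 (g (x K 1)) (g (x K 2)))
    (hd : dg (g P) < dg (br (g (x K 1)) (g (x K 2)))) :
    ∃ (α : K) (q : K[X]), P = α • x K 1 + q2 q := by
  by_cases hc : Com (g (x K 1)) (g (x K 2))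
  · have hnd : ¬ dg (g (x K 2)) ∣ dg (g (x K 1)) := fun h => hnt ⟨hc, h⟩
    have hlt : dg (g (x K 2)) < dg (g (x K 1)) := by
      apply lt_of_le_of_ne hle
      intro h
      exact hnd (by rw [h])
    exact F.p2' g P hP hc hlt hnd (hS hc) hd
  · exact F.p1 g P hP hc hle (by rwa [(dg_br hc).1] at hd)

end Pool.Agent.H66.TA
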