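import Pool.Agent.H66.TA.Ultra

/-!
Reduction of pairs, and the main exclusion lemma for elements commuting with a singular pair.
-/

namespace Pool.Agent.H66.TA

open FreeAlgebra Polynomial Module

variable {K : Type*} [Field K]

/-- Further facts about pairs. -/
structure PG (K : Type*) [Field K] : Prop extends PF K where
  f1 : ∀ (g : Gp K) (P : A K), P ∈ (B : Subalgebra K (A K)) → dg (g P) ≠ 0 →
    ¬ dg (g (x K 2)) ∣ dg (g P) →
    dg (g P) + dg (br (g (x K 1)) (g (x K 2))) ≤ dg (g (x K 1)) + dg (br (g P) (g (x K 2)))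
  n0 : ∀ (g : Gp K) (P : A K), P ∈ (B : Subalgebra K (A K)) →
    dg (br (g P) (g (x K 2))) ≤ dg (br (g (x K 1)) (g (x K 2))) →
    ∃ (α : K) (q : K[X]), P = α • x K 1 + q2 q
  la : ∀ (g : Gp K) (P : A K), P ∈ (B : Subalgebra K (A K)) → Com (g (x K 1)) (g (x K 2)) →
    dg (g (x K 2)) < dg (g (x K 1)) → ¬ dg (g (x K 2)) ∣ dg (g (x K 1)) →
    S2 (g (x K 1)) (g (x K 2)) → Com (g P) (g (x K 2)) → ¬ dg (g (x K 2)) ∣ dg (g P) →
    dg (g (x K 1)) < dg (g P) → dg (g P) < dg (g (x K 1)) + dg (g (x K 2)) →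
    dg (g (x K 1)) + dg (br (g (x K 1)) (g (x K 2))) ≤ dg (br (g P) (g (x K 2)))

theorem PR.f1 (G : PG K) {a b P : A K} (h : PR a b) (hP : P ∈ KK a b)
    (hd : ¬ dg b ∣ dg P) : dg P + dg (br a b) ≤ dg a + dg (br P b) := by
  obtain ⟨g, rfl, rfl⟩ := h
  obtain ⟨P', hP', rfl⟩ := mem_KK.mp hP
  exact G.f1 g P' hP' (fun e => hd (by rw [e]; exact dvd_zero _)) hd

theorem PR.n0 (G : PG K) {a b P : A K} (h : PR a b) (hP : P ∈ KK a b)
    (hd : dg (br P b) ≤ dg (br a b)) : ∃ (α : K) (q : K[X]), P = α • a + aeval b q := by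
  obtain ⟨g, rfl, rfl⟩ := h
  obtain ⟨P', hP', rfl⟩ := mem_KK.mp hP
  obtain ⟨α, q, rfl⟩ := G.n0 g P' hP' hd
  exact ⟨α, q, by rw [map_add, map_smul, map_q2]⟩

theorem PR.la (G : PG K) {a b P : A K} (h : PR a b) (hs : Sg a b) (h2 : S2 a b)
    (hP : P ∈ KK a b) (hc : Com P b) (hd : ¬ dg b ∣ dg P) (h3 : dg a < dg P)
    (h4 : dg P < dg a + dg b) : dg a + dg (br a b) ≤ dg (br P b) := by
  obtain ⟨g, rfl, rfl⟩ := h
  obtain ⟨P', hP', rfl⟩ := mem_KK.mp hP
  exact G.la g P' hP' hs.1 hs.2.1 hs.2.2 h2 hc hd h3 h4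

theorem IS.sg {x y : A K} (h : IS x y) (hc : Com x y) : Sg x y ∨ Sg y x := by
  obtain ⟨h1, h2⟩ := h hc
  rcases lt_trichotomy (dg x) (dg y) with h3 | h3 | h3
  · exact Or.inr ⟨hc.symm, h3, h1⟩
  · exact absurd (by rw [h3]) h1
  · exact Or.inl ⟨hc, h3, h2⟩

theorem Sg.is {x y : A K} (h : Sg x y) (hy : dg y ≠ 0) : IS x y := fun _ =>
  ⟨fun h1 => by
    have h2 := h.2.1
    have := Nat.le_of_dvd (by omega) h1
    omega, h.2.2⟩

section

variable {n : ℕ} {V : A K → A K → A K → Prop}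

/-- the conclusion of the reduction of pairs -/
def EU (V : A K → A K → A K → Prop) (z u v : A K) : Prop :=
  ∃ x y : A K, V z x y ∧ IS x y ∧ KK x y = KK u v ∧ dg (br x y) = dg (br u v) ∧
    dg x + dg y ≤ dg u + dg v ∧
    ∀ N : ℕ, dg (br z x) ≤ dg x + N → dg (br z y) ≤ dg y + N →
      dg (br z u) ≤ dg u + N ∧ dg (br z v) ≤ dg v + N

theorem EU.symm (W : Adm n V) {z u v : A K} (h : EU V z u v) : EU V z v u := by
  obtain ⟨x, y, h1, h2, h3, h4, h5, h6⟩ := h
  refine ⟨x, y, h1, h2, by rw [h3, KK_comm], by rw [h4, dg_br_swap], by omega, ?_⟩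
  intro N h7 h8
  exact (h6 N h7 h8).symm

theorem Adm.euclid (F : PF K) (W : Adm n V) {z : A K} :
    ∀ (m : ℕ) (u v : A K), dg u + dg v = m → V z u v → dg u + dg v + dg z < n → EU V z u v := by
  intro m
  induction m using Nat.strong_induction_on with
  | _ m ih =>
    have stepA : ∀ u v : A K, dg u + dg v = m → V z u v → dg u + dg v + dg z < n →
        Com u v → dg u ∣ dg v → EU V z u v := by
      intro u v hm h hlt hc hdvd
      have hu0 := (W.pr h).dgl
      have hv0 := (W.pr h).dgr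
      obtain ⟨κ, j, hκ, hj, -, hlt2⟩ := exists_red F hu0 hv0 hc.symm hdvd
      have hq : v - κ • u ^ j = v + aeval u (-(C κ * X ^ j)) := by
        rw [map_neg, map_mul, aeval_C, map_pow, aeval_X, ← Algebra.smul_def, sub_eq_add_neg]
      rw [hq] at hlt2
      have hmem : ∀ w : A K, aeval u (-(C κ * X ^ j)) ∈ KK w u := fun w =>
        aeval_mem (rig_mem _ _) _
      have hV : V z u (v + aeval u (-(C κ * X ^ j))) := by
        have h1 : V v z u := W.cy (W.cy h)
        have h2 := W.mv h1 (hmem z) (by omega)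
        exact W.cy h2
      obtain ⟨x, y, h1, h2, h3, h4, h5, h6⟩ := ih _ (by omega) u _ rfl hV (by omega)
      have e1 : KK u (v + aeval u (-(C κ * X ^ j))) = KK u v := by
        rw [KK_comm, KK_shift, KK_comm]
      have e2 : br u (v + aeval u (-(C κ * X ^ j))) = br u v := by
        rw [br_add_right, br_swap u (aeval u _), br_aeval, neg_zero, add_zero]
      refine ⟨x, y, h1, h2, by rw [h3, e1], by rw [h4, e2], by omega, ?_⟩
      intro N h7 h8
      obtain ⟨h9, h10⟩ := h6 N h7 h8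
      refine ⟨h9, ?_⟩
      have e3 : v = (v + aeval u (-(C κ * X ^ j))) - aeval u (-(C κ * X ^ j)) := by abel
      have e4 : br z v = br z (v + aeval u (-(C κ * X ^ j))) -
          br z (aeval u (-(C κ * X ^ j))) := by
        rw [br_add_right]; abel
      rw [e4]
      refine (dg_sub_le _ _).trans (max_le (by omega) ?_)
      apply dg_br_aeval h9
      rw [← hj]
      apply Nat.mul_le_mul_right
      rw [natDegree_neg]
      exact natDegree_C_mul_X_pow_le _ _
    intro u v hm h hlt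
    by_cases hIS : IS u v
    · exact ⟨u, v, h, hIS, rfl, rfl, le_rfl, fun N h1 h2 => ⟨h1, h2⟩⟩
    · unfold IS at hIS
      push Not at hIS
      obtain ⟨hc, hd⟩ := hIS
      by_cases h1 : dg u ∣ dg v
      · exact stepA u v hm h hlt hc h1
      · exact (stepA v u (by omega) (W.tr h) (by omega) hc.symm (hd h1)).symm W

/-- the exclusion statement for triples of sum less than `s` -/
def DLs (V : A K → A K → A K → Prop) (s : ℕ) : Prop :=
  ∀ u v c : A K, V c u v → Sg u v → Mn c u v → Com c v →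
    dg c + dg (br u v) < dg u + dg (br v c) → dg u + dg v + dg c < s → False

theorem Adm.brne (W : Adm n V) {a b c : A K} (h : V a b c) :
    br a b ≠ 0 ∧ br a c ≠ 0 ∧ br b c ≠ 0 :=
  ⟨(W.pr (W.cy (W.cy h))).br_ne, (W.pr (W.sw h)).br_ne, (W.pr h).br_ne⟩

theorem Adm.dg0 (W : Adm n V) {a b c : A K} (h : V a b c) : dg a ≠ 0 ∧ dg b ≠ 0 ∧ dg c ≠ 0 :=
  ⟨(W.pr (W.sw h)).dgl, (W.pr h).dgl, (W.pr h).dgr⟩

theorem dl_sym (F : PF K) (W : Adm n V) {s : ℕ} (D : DLs V s) {x y z : A K} (h : V z x y)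
    (hIS : IS x y) (hc : Com x y) (hm : Mn z x y) (hz : Com z x)
    (hX : dg z + dg (br x y) < dg y + dg (br x z)) (hs : dg x + dg y + dg z < s) : False := by
  obtain ⟨hz0, hx0, hy0⟩ := W.dg0 h
  obtain ⟨b1, b2, b3⟩ := W.brne h
  have b1' : br x z ≠ 0 := fun e => b1 (by rw [br_swap, e, neg_zero])
  have b2' : br y z ≠ 0 := fun e => b2 (by rw [br_swap, e, neg_zero])
  rcases hIS.sg hc with h1 | h1
  · have h2 := iso F b3 b1' b2' hx0 hy0 hz0 hX
    exact D x y z h h1 hm (F.ct _ _ _ hx0 hz hc) (by omega) hs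
  · exact D y x z (W.tr h) h1 hm.symm hz (by rw [dg_br_swap y x]; exact hX) (by omega)

theorem il_sym (F : PF K) (W : Adm n V) {x y z : A K} (h : V z x y)
    (hIS : IS x y) (hc : Com x y) (hm : Mn z x y) (hz : ¬ Com z x) :
    (dg y < dg x ∧ dg y < dg z ∧ dg z < dg x ∧ dg (br x y) = dg y + dg z) ∨
    (dg x < dg y ∧ dg x < dg z ∧ dg z < dg y ∧ dg (br x y) = dg x + dg z) := by
  obtain ⟨hz0, hx0, hy0⟩ := W.dg0 h
  rcases hIS.sg hc with h1 | h1
  · left
    have hzy : ¬ Com z y := fun e => hz (F.ct _ _ _ hy0 e hc.symm)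
    obtain ⟨g1, g2, g3, -⟩ := W.il F h h1 hm hzy
    exact ⟨h1.2.1, g1, g2, g3⟩
  · right
    obtain ⟨g1, g2, g3, -⟩ := W.il F (W.tr h) h1 hm.symm hz
    exact ⟨h1.2.1, g1, g2, by rw [dg_br_swap, g3]⟩

theorem z_core (F : PF K) (W : Adm n V) {s : ℕ} (D : DLs V s) {x y z : A K} (h : V z x y)
    (hIS : IS x y) (hm : Mn z x y) (hlt : dg z < dg x + dg y)
    (hX : dg x + dg (br x y) ≤ dg (br z x)) (hs : dg x + dg y + dg z < s) : False := by
  obtain ⟨hz0, hx0, hy0⟩ := W.dg0 h
  by_cases hc : Com x y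
  · by_cases hz : Com z x
    · refine dl_sym F W D h hIS hc hm hz ?_ hs
      rw [dg_br_swap x z]
      omega
    · have h1 := (dg_br hz).1
      have h2 := il_sym F W h hIS hc hm hz
      omega
  · have h1 := (dg_br hc).1
    have h2 := dg_br_le z x
    omega

theorem Adm.dbr (F : PF K) (W : Adm n V) {a b c : A K} (h : V a b c) : dg (br b c) ≠ 0 :=
  not_com_dg (F.tc _ _ (W.brne h).2.2 (W.dg0 h).2.2)

/-- the statement `Z` -/
theorem Adm.zz (G : PG K) (W : Adm n V) {c1 c2 c a b : A K} (h : V c1 c2 c) (p q : K[X])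
    (ha : a = c1 + aeval c p) (hb : b = c2 + aeval c q) (h1 : dg c1 < dg a) (h2 : dg c2 < dg b)
    (hla : dg c ∣ dg a) (hlb : dg c ∣ dg b) (hab : dg a < dg b) (hnd : ¬ dg a ∣ dg b)
    (hn : dg a + dg b + dg c ≤ n) (hX : dg c + dg (br a b) < dg b + dg (br a c))
    (D : DLs V (dg a + dg b + dg c)) : False := by
  have F := G.toPF
  obtain ⟨hc10, hc20, hc0⟩ := W.dg0 h
  have hpr1 : PR c1 c := W.pr (W.sw h)
  have hpra : PR a c := by rw [ha]; exact hpr1.shift p
  have hKK : KK a c = KK c1 c := by rw [ha]; exact KK_shift _ _ _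
  have hbra : br a c = br c1 c := by rw [ha, br_add_left, br_aeval, add_zero]
  -- the minimal element
  obtain ⟨P0, hP0, hmz, hle⟩ := exists_min c2 c1 c
  have hzle : dg (c2 + P0) ≤ dg c2 := by
    have := hle 0 (Subalgebra.zero_mem _)
    rwa [add_zero] at this
  have hVz : V (c2 + P0) c1 c := W.mv (W.sw h) hP0 (by omega)
  generalize hz : c2 + P0 = z at *
  have hPe : b = z + (aeval c q - P0) := by rw [hb, ← hz]; abel
  have hPm : aeval c q - P0 ∈ KK c1 c := Subalgebra.sub_mem _ (aeval_mem (rig_mem _ _) _) hP0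
  generalize hP : aeval c q - P0 = P at *
  have hPd : dg P = dg b := by
    have e : P = b + -z := by rw [hPe]; abel
    rw [e]
    exact dg_add_eq_left (by rw [dg_neg]; omega)
  have hf1 := hpra.symm.f1 G (P := P) (by rw [KK_comm, hKK]; exact hPm) (by rw [hPd]; exact hnd)
  rw [dg_br_swap c a, hPd] at hf1
  have hza : dg (br z a) = dg (br P a) := by
    have e : br z a = - br P a + br b a := by
      rw [hPe, br_add_left]; abel
    rw [e, dg_add_eq_left (by rw [dg_neg, dg_br_swap b a]; omega), dg_neg]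
  have hge : dg a + dg c ≤ dg b := by
    obtain ⟨i, hi⟩ := hla
    obtain ⟨j, hj⟩ := hlb
    rw [hi, hj] at hab ⊢
    have : i < j := lt_of_mul_lt_mul_left hab (Nat.zero_le _)
    calc dg c * i + dg c = dg c * (i + 1) := by ring
      _ ≤ dg c * j := Nat.mul_le_mul_left _ this
  obtain ⟨x, y, g1, g2, g3, g4, g5, g6⟩ := W.euclid F _ c1 c rfl hVz (by omega)
  have hmxy : Mn z x y := by
    intro Q hQ
    apply hmz
    rwa [g3] at hQ
  have hd0 : dg (br x y) ≠ 0 := W.dbr F g1
  rw [hbra, ← g4] at hX hf1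
  by_cases h5 : dg (br z x) < dg x + dg (br x y)
  · by_cases h6 : dg (br z y) < dg y + dg (br x y)
    · obtain ⟨h7, h8⟩ := g6 (dg (br x y) - 1) (by omega) (by omega)
      have hpd : p.natDegree * dg c ≤ dg a := by
        have e : aeval c p = a + -c1 := by rw [ha]; abel
        have e2 : dg (aeval c p) = dg a := by
          rw [e]
          exact dg_add_eq_left (by rw [dg_neg]; exact h1)
        rw [← (dg_aeval hc0 p).1, e2]
      have h9 := dg_br_aeval h8 p hpd
      have h10 : dg (br z a) ≤ dg a + (dg (br x y) - 1) := by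
        rw [ha, br_add_right]
        refine (dg_add_le _ _).trans (max_le ?_ ?_)
        · rw [← ha]; omega
        · rw [← ha]; exact h9
      omega
    · rw [not_lt] at h6
      have hz2 : dg z < dg y + dg x := by
        rcases le_total (dg x) (dg y) with h11 | h11
        · have := W.gp' F g1 g2 hmxy h11
          omega
        · have := W.gp' F (W.tr g1) g2.symm hmxy.symm h11
          omega
      exact z_core F W D (W.tr g1) g2.symm hmxy.symm hz2 (by rw [dg_br_swap y x]; exact h6)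
        (by omega)
  · rw [not_lt] at h5
    have hz2 : dg z < dg x + dg y := by
      rcases le_total (dg x) (dg y) with h11 | h11
      · exact W.gp' F g1 g2 hmxy h11
      · have := W.gp' F (W.tr g1) g2.symm hmxy.symm h11
        omega
    exact z_core F W D g1 g2 hmxy hz2 h5 (by omega)

end

end Pool.Agent.H66.TA
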