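import Pool.Agent.H66.TA.Top

/-!
Coefficients and monomials in the free algebra.
-/

namespace Pool.Agent.H66.TA

open FreeAlgebra

variable {K : Type*} [Field K]

instance decW : DecidableEq (FreeMonoid (Fin 3)) := inferInstanceAs (DecidableEq (List (Fin 3)))

/-- The monomial of a word. -/
noncomputable def mon (w : FreeMonoid (Fin 3)) : A K :=
  (equivMonoidAlgebraFreeMonoid (R := K) (X := Fin 3)).symm (MonoidAlgebra.of K _ w)

/-- The coefficient of a word. -/
noncomputable def co (w : FreeMonoid (Fin 3)) : A K →ₗ[K] K where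
  toFun a := (equivMonoidAlgebraFreeMonoid (R := K) (X := Fin 3) a).coeff w
  map_add' a b := by simp
  map_smul' c a := by simp

theorem mon_one : mon (K := K) 1 = 1 := by
  rw [mon, map_one, map_one]

theorem mon_mul (v w : FreeMonoid (Fin 3)) : mon (K := K) (v * w) = mon v * mon w := by
  simp only [mon, map_mul]

theorem mon_of (i : Fin 3) : mon (K := K) (FreeMonoid.of i) = x K i := by
  rw [mon, AlgEquiv.symm_apply_eq]
  simp [equivMonoidAlgebraFreeMonoid, x]

theorem co_mon (v w : FreeMonoid (Fin 3)) : co (K := K) v (mon w) = if w = v then 1 else 0 := by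
  simp only [co, mon, LinearMap.coe_mk, AddHom.coe_mk, AlgEquiv.apply_symm_apply]
  simp [MonoidAlgebra.of_apply, Finsupp.single_apply]

theorem lin_ext {N : Type*} [AddCommMonoid N] [Module K N] {f g : A K →ₗ[K] N}
    (h : ∀ w, f (mon w) = g (mon w)) : f = g := by
  have : f.comp (equivMonoidAlgebraFreeMonoid (R := K) (X := Fin 3)).symm.toLinearMap =
      g.comp (equivMonoidAlgebraFreeMonoid (R := K) (X := Fin 3)).symm.toLinearMap := by
    apply MonoidAlgebra.lhom_ext'
    intro w
    ext
    exact h w
  ext a
  have h2 := LinearMap.congr_fun this (equivMonoidAlgebraFreeMonoid a)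
  simpa using h2

theorem eq_of_co {a b : A K} (h : ∀ w, co w a = co w b) : a = b := by
  apply (equivMonoidAlgebraFreeMonoid (R := K) (X := Fin 3)).injective
  apply MonoidAlgebra.ext
  ext w
  exact h w

/-- Scaling of the generators. -/
noncomputable def sc (t : Fin 3 → K) : A K →ₐ[K] A K := lift K (fun i => t i • x K i)

@[simp] theorem sc_x (t : Fin 3 → K) (i : Fin 3) : sc t (x K i) = t i • x K i := by
  simp [sc, x]

/-- The weight of a word under scaling. -/
def wt (t : Fin 3 → K) : FreeMonoid (Fin 3) →* K := FreeMonoid.lift t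

theorem sc_mon (t : Fin 3 → K) (w : FreeMonoid (Fin 3)) : sc t (mon w) = wt t w • mon w := by
  induction w using FreeMonoid.inductionOn' with
  | one => simp [mon_one]
  | of_mul i w ih =>
    rw [mon_mul, map_mul, ih, mon_of, sc_x, map_mul, smul_mul_smul_comm]
    simp [wt]

theorem co_sc (t : Fin 3 → K) (w : FreeMonoid (Fin 3)) (a : A K) :
    co w (sc t a) = wt t w * co w a := by
  have : (co w).comp (sc t).toLinearMap = (wt t w) • co w := by
    apply lin_ext
    intro v
    simp only [LinearMap.comp_apply, AlgHom.toLinearMap_apply, sc_mon, LinearMap.smul_apply,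
      map_smul, co_mon, smul_eq_mul]
    split_ifs with h
    · rw [h]
    · simp
  exact LinearMap.congr_fun this a

end Pool.Agent.H66.TA
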