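import Pool.Agent.H66.TA.Top2
import Pool.Agent.H66.TA.Coef

/-!
The group automorphism obtained from uniqueness is not semi-inner.
-/

namespace Pool.Agent.H66.TA

open FreeAlgebra

variable {K : Type*} [Field K]

theorem sc_comp (t u : Fin 3 → K) (h : ∀ i, t i * u i = 1) : (sc t).comp (sc u) = AlgHom.id K _ := by
  apply FreeAlgebra.hom_ext
  funext i
  show sc t (sc u (x K i)) = x K i
  rw [sc_x, map_smul, sc_x, smul_smul, mul_comm, h, one_smul]

/-- Scaling as an automorphism. -/
noncomputable def scE (t : Fin 3 → Kˣ) : A K ≃ₐ[K] A K :=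
  AlgEquiv.ofAlgHom (sc (fun i => (t i : K))) (sc (fun i => ((t i)⁻¹ : Kˣ)))
    (sc_comp _ _ (fun i => by simp)) (sc_comp _ _ (fun i => by simp))

@[simp] theorem scE_apply (t : Fin 3 → Kˣ) (a : A K) : scE t a = sc (fun i => (t i : K)) a := rfl

theorem scE_linear (t : Fin 3 → Kˣ) : IsLinear K (scE t) := by
  intro i
  rw [scE_apply, sc_x]
  exact Submodule.smul_mem _ _ (Submodule.subset_span ⟨i, rfl⟩)

variable [CharZero K]

theorem pow_two_inj {m n : ℕ} (h : (2 : K) ^ m = 2 ^ n) : m = n := by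
  have : ((2 ^ m : ℕ) : K) = ((2 ^ n : ℕ) : K) := by push_cast; exact h
  exact Nat.pow_right_injective (le_refl 2) (Nat.cast_injective this)

/-- weights: `2` at `i`, `1` elsewhere -/
def tw (i : Fin 3) : Fin 3 → Kˣ := Function.update 1 i (Units.mk0 2 two_ne_zero)

theorem wt_tw (i : Fin 3) (w : FreeMonoid (Fin 3)) :
    wt (fun j => (tw (K := K) i j : K)) w = 2 ^ (List.count i w.toList) := by
  induction w using FreeMonoid.inductionOn' with
  | one => simp [wt]
  | of_mul j w ih =>
    rw [map_mul, ih]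
    simp only [FreeMonoid.toList_mul, FreeMonoid.toList_of, List.count_append]
    rw [pow_add]
    congr 1
    simp only [wt, FreeMonoid.lift_eval_of, tw]
    by_cases h : j = i
    · subst h; simp
    · have h' : ¬ (i = j) := fun e => h e.symm
      rw [Function.update_of_ne h]
      simp [List.count_singleton, h]

theorem semi_x0 {φ : TAut K ≃* TAut K}
    (hφ : ∀ g h (hgh : (g, h) ∈ Gam (2 : K)), φ ⟨g, Gam_fst hgh⟩ = ⟨h, Gam_snd hgh⟩)
    {σ : K ≃+* K} {ψ : A K ≃+ A K} (hs : IsSemi K σ ψ)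
    (hψ : ∀ (g : TAut K) (a : A K), (φ g : A K ≃ₐ[K] A K) (ψ a) = ψ ((g : A K ≃ₐ[K] A K) a)) :
    ψ (x K 0) = x K 0 := by
  have key : ∀ g h (hgh : (g, h) ∈ Gam (2 : K)) (a : A K), h (ψ a) = ψ (g a) := by
    intro g h hgh a
    have := hψ ⟨g, Gam_fst hgh⟩ a
    rw [hφ g h hgh] at this
    exact this
  have hlin : ∀ g, IsLinear K g → ∀ a, g (ψ a) = ψ (g a) := fun g hg a =>
    key g g (Subgroup.subset_closure (Gen.lin g hg)) a
  have hψ1 : ψ 1 = 1 := by
    obtain ⟨u, hu⟩ := ψ.surjective 1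
    rcases hs.2 with h | h
    · calc ψ 1 = ψ 1 * 1 := (mul_one _).symm
        _ = ψ 1 * ψ u := by rw [hu]
        _ = ψ (1 * u) := (h _ _).symm
        _ = 1 := by rw [one_mul, hu]
    · calc ψ 1 = 1 * ψ 1 := (one_mul _).symm
        _ = ψ u * ψ 1 := by rw [hu]
        _ = ψ (1 * u) := (h _ _).symm
        _ = 1 := by rw [one_mul, hu]
  have hcoef : ∀ i : Fin 3, ∀ w, co w (ψ (x K 0)) ≠ 0 →
      List.count i w.toList = if i = 0 then 1 else 0 := by
    intro i w hw
    have h1 : scE (tw i) (ψ (x K 0)) = ψ (scE (tw i) (x K 0)) := hlin _ (scE_linear _) _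
    by_cases hi : i = 0
    · subst hi
      have h2 : scE (tw (K := K) 0) (x K 0) = (2 : K) • x K 0 := by
        rw [scE_apply, sc_x]; simp [tw]
      rw [h2, hs.1, map_ofNat] at h1
      have h3 := congrArg (co w) h1
      rw [scE_apply, co_sc, wt_tw, map_smul, smul_eq_mul] at h3
      have h4 := mul_right_cancel₀ hw h3
      have h5 : (2 : K) ^ (List.count 0 w.toList) = 2 ^ 1 := by rw [h4, pow_one]
      simpa using pow_two_inj h5
    · have h2 : scE (tw (K := K) i) (x K 0) = x K 0 := by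
        rw [scE_apply, sc_x]
        simp only [tw]
        rw [Function.update_of_ne (fun e => hi e.symm)]
        simp
      rw [h2] at h1
      have h3 := congrArg (co w) h1
      rw [scE_apply, co_sc, wt_tw] at h3
      have h4 : (2 : K) ^ (List.count i w.toList) = 2 ^ 0 := by
        rw [pow_zero]
        exact mul_right_cancel₀ hw (by rw [h3, one_mul])
      simpa [hi] using pow_two_inj h4
  have hw0 : ∀ w : FreeMonoid (Fin 3), co w (ψ (x K 0)) ≠ 0 → w = FreeMonoid.of 0 := by
    intro w hw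
    have c0 := hcoef 0 w hw
    have c1 := hcoef 1 w hw
    have c2 := hcoef 2 w hw
    simp only [if_true] at c0
    rw [if_neg (by decide)] at c1 c2
    have hlen : w.toList.length = 1 := by
      have hsub : ∀ j ∈ w.toList, j = 0 := by
        intro j hj
        fin_cases j
        · rfl
        · exact absurd hj (List.count_eq_zero.mp c1)
        · exact absurd hj (List.count_eq_zero.mp c2)
      have : w.toList = List.replicate w.toList.length 0 := List.eq_replicate_of_mem hsub
      rw [this, List.count_replicate_self] at c0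
      exact c0
    have : w.toList = [0] := by
      obtain ⟨a, ha⟩ := List.length_eq_one_iff.mp hlen
      rw [ha] at c0 ⊢
      by_cases h : a = 0
      · rw [h]
      · simp [List.count_singleton, h] at c0
    exact FreeMonoid.toList.injective this
  have hu : ψ (x K 0) = co (FreeMonoid.of 0) (ψ (x K 0)) • x K 0 := by
    apply eq_of_co
    intro w
    rw [map_smul]
    nth_rewrite 3 [← mon_of]
    rw [co_mon, smul_eq_mul]
    split_ifs with h
    · rw [← h, mul_one]
    · rw [mul_zero]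
      by_contra hne
      exact h (hw0 w hne).symm
  set c := co (FreeMonoid.of 0) (ψ (x K 0)) with hc
  have h1B : (1 : A K) ∈ (B : Subalgebra K (A K)) := B.one_mem
  have hL1 : L (2 : K) (1 : A K) = 1 := by
    have := L_algebraMap (K := K) 2 1
    rwa [map_one] at this
  have h2 : el (L 2 1) (L_mem_B 2 h1B) (ψ (x K 0)) = ψ (el 1 h1B (x K 0)) :=
    key (el 1 h1B) (el (L 2 1) (L_mem_B 2 h1B)) (Subgroup.subset_closure (Gen.el 1 h1B)) (x K 0)
  rw [el_0, map_add, hψ1, hu, map_smul, el_0, hL1, smul_add] at h2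
  have h3 := add_left_cancel h2
  have h4 := congrArg (co 1) h3
  rw [map_smul, ← mon_one, co_mon, if_pos rfl, smul_eq_mul, mul_one] at h4
  rw [hu, h4, one_smul]

theorem not_semi {φ : TAut K ≃* TAut K}
    (hφ : ∀ g h (hgh : (g, h) ∈ Gam (2 : K)), φ ⟨g, Gam_fst hgh⟩ = ⟨h, Gam_snd hgh⟩) :
    ¬ SemiInner K φ := by
  rintro ⟨σ, ψ, hs, hψ⟩
  have key : ∀ g h (hgh : (g, h) ∈ Gam (2 : K)) (a : A K), h (ψ a) = ψ (g a) := by
    intro g h hgh a
    have := hψ ⟨g, Gam_fst hgh⟩ a
    rw [hφ g h hgh] at this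
    exact this
  have h0 := semi_x0 hφ hs hψ
  have hx : ∀ i, ψ (x K i) = x K i := by
    intro i
    have h : permA (Equiv.swap 0 i) (ψ (x K 0)) = ψ (permA (Equiv.swap 0 i) (x K 0)) :=
      key _ _ (Subgroup.subset_closure (Gen.lin _ (permA_linear (Equiv.swap 0 i)))) (x K 0)
    rw [permA_x, Equiv.swap_apply_left, h0, permA_x, Equiv.swap_apply_left] at h
    exact h.symm
  have hP : x K 1 * x K 2 ∈ (B : Subalgebra K (A K)) := B.mul_mem x1_mem x2_mem
  have h1 : el (L 2 (x K 1 * x K 2)) (L_mem_B 2 hP) (ψ (x K 0)) = ψ (el (x K 1 * x K 2) hP (x K 0)) :=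
    key (el _ hP) (el _ (L_mem_B 2 hP)) (Subgroup.subset_closure (Gen.el _ hP)) (x K 0)
  rw [el_0, map_add, h0, el_0] at h1
  have h2 := add_left_cancel h1
  have hL : L (2 : K) (x K 1 * x K 2) = ((1 + 2 : K) / 2) • (x K 1 * x K 2) +
      ((1 - 2 : K) / 2) • (x K 2 * x K 1) := by
    rw [L, star_mul, star_ι, star_ι]
  rw [hL] at h2
  have e1 : x K 1 * x K 2 = mon (K := K) (FreeMonoid.of 1 * FreeMonoid.of 2) := by
    rw [mon_mul, mon_of, mon_of]
  have e2 : x K 2 * x K 1 = mon (K := K) (FreeMonoid.of 2 * FreeMonoid.of 1) := by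
    rw [mon_mul, mon_of, mon_of]
  have hne : FreeMonoid.of (2 : Fin 3) * FreeMonoid.of 1 ≠ FreeMonoid.of 1 * FreeMonoid.of 2 := by
    decide
  have hc := congrArg (co (FreeMonoid.of 1 * FreeMonoid.of 2)) h2
  rcases hs.2 with hm | hm
  · rw [hm, hx, hx, e1, e2, map_add, map_smul, map_smul, co_mon, co_mon, if_pos rfl,
      if_neg hne] at hc
    norm_num at hc
  · rw [hm, hx, hx, e1, e2, map_add, map_smul, map_smul, co_mon, co_mon, if_pos rfl,
      if_neg hne] at hc
    norm_num at hc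

/-- Reduction of the main theorem to uniqueness. -/
theorem main_of_uniq (U : Uniq K) : ∃ φ : TAut K ≃* TAut K, ¬ SemiInner K φ := by
  obtain ⟨φ, hφ⟩ := exists_phi U (l := (2 : K)) two_ne_zero
  exact ⟨φ, not_semi hφ⟩

end Pool.Agent.H66.TA
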