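import Pool.Agent.H66.TA.Cases5
import Pool.Agent.H66.TA.Top3

/-!
Vertices of level at most three; the set of vertices connected to the base vertex.
-/

namespace Pool.Agent.H66.TA

open FreeAlgebra Polynomial Module

variable {K : Type*} [Field K]

theorem co_hc (w : FreeMonoid (Fin 3)) (n : ℕ) (a : A K) :
    co w (hc n a) = if w.length = n then co w a else 0 := by
  have : ∀ v, ((co w).comp (hc n)) (mon (K := K) v) =
      ((if w.length = n then (1 : K) else 0) • co w) (mon v) := by
    intro v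
    rw [LinearMap.comp_apply, hc_apply, tp_mon, coeff_C_mul, coeff_X_pow, LinearMap.smul_apply,
      co_mon]
    by_cases hv : v = w
    · subst hv
      by_cases hn : v.length = n
      · subst hn
        simp [co_mon]
      · have hn' : ¬ (n = v.length) := fun e => hn e.symm
        simp [hn, hn']
    · by_cases hn : n = v.length
      · subst hn
        simp [co_mon, hv]
      · simp [hn, hv]
  have h2 := LinearMap.congr_fun (lin_ext this) a
  rw [LinearMap.comp_apply, LinearMap.smul_apply] at h2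
  rw [h2]
  split_ifs <;> simp

theorem co_eq_zero {w : FreeMonoid (Fin 3)} {a : A K} (h : dg a < w.length) : co w a = 0 := by
  have h1 := co_hc w w.length a
  rw [if_pos rfl, hc_eq_zero_of_lt h, map_zero] at h1
  exact h1.symm

/-- elements of degree at most one are affine -/
theorem mem_Af_of_dg {u : A K} (h : dg u ≤ 1) : u ∈ (Af : Submodule K (A K)) := by
  rw [mem_Af]
  refine ⟨co 1 u, co (FreeMonoid.of 0) u, co (FreeMonoid.of 1) u, co (FreeMonoid.of 2) u, ?_⟩
  apply eq_of_co
  intro w
  by_cases hw : 1 < w.length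
  · rw [co_eq_zero (lt_of_le_of_lt h hw)]
    symm
    apply co_eq_zero
    refine lt_of_le_of_lt ?_ hw
    have hf : ∀ (c : K) (i : Fin 3), dg (c • x K i) ≤ 1 := fun c i =>
      (dg_smul_le _ _).trans (by rw [dg_x])
    have h1 : ∀ c : K, dg (c • (1 : A K)) ≤ 1 := fun c =>
      (dg_smul_le _ _).trans (by rw [dg_one]; exact Nat.zero_le _)
    exact (dg_add_le _ _).trans (max_le (h1 _) ((dg_add_le _ _).trans (max_le (hf _ _)
      ((dg_add_le _ _).trans (max_le (hf _ _) (hf _ _))))))
  · obtain ⟨c1, c2, c3, c4⟩ := co_aff (co 1 u) (co (FreeMonoid.of 0) u) (co (FreeMonoid.of 1) u)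
      (co (FreeMonoid.of 2) u)
    have hlen : w.length = 0 ∨ w.length = 1 := by omega
    rcases hlen with h0 | h1
    · have : w = 1 := FreeMonoid.length_eq_zero.mp h0
      subst this
      rw [c1]
    · obtain ⟨i, rfl⟩ := FreeMonoid.length_eq_one.mp h1
      fin_cases i
      · exact c2.symm
      · exact c3.symm
      · exact c4.symm

theorem dg_of_mem_Af {u : A K} (h : u ∈ (Af : Submodule K (A K))) : dg u ≤ 1 := by
  have hle : (Af : Submodule K (A K)) ≤ Fil 1 := by
    rw [Af, Submodule.span_le]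
    rintro a (rfl | rfl | rfl | rfl)
    · show dg 1 ≤ 1
      rw [dg_one]; exact Nat.zero_le _
    all_goals
      show dg (x K _) ≤ 1
      rw [dg_x]
  exact hle h

/-- vertices of level at most three are the base vertex -/
theorem aff_of_lv {g : Gp K} (h : lv g ≤ 3) : g ∈ (AffG : Subgroup (Gp K)) := by
  obtain ⟨b, hb, hA⟩ := exists_adp g
  have hs := hA.std
  unfold Std at hs
  rw [lv_mul_aff _ hb] at hs
  have h0 := dg_gx (g * b) 0
  have h1 := dg_gx (g * b) 1
  have h2 := dg_gx (g * b) 2
  have hgb : g * b ∈ (AffG : Subgroup (Gp K)) := by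
    rw [mem_AffG_iff]
    intro i
    apply mem_Af_of_dg
    fin_cases i
    · show dg ((g * b) (x K 0)) ≤ 1
      omega
    · show dg ((g * b) (x K 1)) ≤ 1
      omega
    · show dg ((g * b) (x K 2)) ≤ 1
      omega
  have := mul_mem hgb (inv_mem hb)
  rwa [mul_inv_cancel_right] at this

theorem lv_one : lv (1 : Gp K) = 3 := by
  apply le_antisymm
  · have := lv_le (1 : Gp K)
    have h : ∀ i, dg ((1 : Gp K) (x K i)) = 1 := fun i => dg_x i
    rw [h, h, h] at this
    exact this
  · obtain ⟨b, hb, hA⟩ := exists_adp (1 : Gp K)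
    have hs := hA.std
    unfold Std at hs
    rw [lv_mul_aff _ hb] at hs
    have h0 := dg_gx ((1 : Gp K) * b) 0
    have h1 := dg_gx ((1 : Gp K) * b) 1
    have h2 := dg_gx ((1 : Gp K) * b) 2
    omega

theorem lv_ge (g : Gp K) : 3 ≤ lv g := by
  obtain ⟨b, hb, hA⟩ := exists_adp g
  have hs := hA.std
  unfold Std at hs
  rw [lv_mul_aff _ hb] at hs
  have h0 := dg_gx (g * b) 0
  have h1 := dg_gx (g * b) 1
  have h2 := dg_gx (g * b) 2
  omega

theorem Pl_of_Af_B {P : A K} (h1 : P ∈ (Af : Submodule K (A K)))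
    (h2 : P ∈ (B : Subalgebra K (A K))) : P ∈ (Pl : Submodule K (A K)) := by
  obtain ⟨d, a, b, c, rfl⟩ := mem_Af.mp h1
  have h3 := el_B (1 : A K) B.one_mem h2
  rw [map_add, map_add, map_add, map_smul, map_smul, map_smul, map_smul, map_one, el_0, el_1,
    el_2, smul_add] at h3
  have h4 := congrArg (co (1 : FreeMonoid (Fin 3))) h3
  simp only [map_add, map_smul, co_one_one, co_one_x, smul_eq_mul] at h4
  have ha : a = 0 := by
    simp only [mul_one, mul_zero, add_zero, zero_add] at h4
    linear_combination h4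
  subst ha
  rw [zero_smul, zero_add]
  exact mem_Pl.mpr ⟨d, b, c, rfl⟩

variable [CharZero K]

/-- the vertices connected to the base vertex inside level `D` -/
def RD (l : K) (D : ℕ) (p : Gp K × Gp K) : Prop := Conn l D 1 p

omit [CharZero K] in
theorem RD.lv_le {l : K} {D : ℕ} (hD : 3 ≤ D) {p : Gp K × Gp K} (h : RD l D p) : lv p.1 ≤ D := by
  rcases Relation.ReflTransGen.cases_tail h with h1 | ⟨q, _, h1⟩
  · rw [h1]
    show lv (1 : Gp K) ≤ D
    rw [lv_one]
    exact hD
  · exact h1.2.1

omit [CharZero K] in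
theorem RD.cl {l : K} {D : ℕ} (hD : 3 ≤ D) : Cl l D (RD l D) := by
  refine ⟨fun q hq => hq.lv_le hD, fun q q' hq hadj hle => ?_⟩
  exact Relation.ReflTransGen.tail hq ⟨hq.lv_le hD, hle, hadj⟩

/-- the induction statement -/
structure StateD (l : K) (D : ℕ) : Prop where
  uniq : UniqD l D
  good : ∀ p, RD l D p → Good p.1
  low : ∀ p, RD l D p → lv p.1 = 3 ∨ ∃ q, Adj l p q ∧ lv q.1 < lv p.1

theorem rd3 {l : K} {p : Gp K × Gp K} (h : RD l 3 p) :
    ∃ a ∈ (AffG : Subgroup (Gp K)), p = dia a := by
  induction h with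
  | refl => exact ⟨1, one_mem _, rfl⟩
  | tail _ h1 ih =>
    obtain ⟨a, ha, rfl⟩ := ih
    obtain ⟨-, hle, W, b, hb, c, hc, P, hP, -, rfl⟩ := h1
    have h2 : a * b * el P hP * c ∈ (AffG : Subgroup (Gp K)) := aff_of_lv hle
    have h3 : el P hP ∈ (AffG : Subgroup (Gp K)) := by
      have h4 := mul_mem (mul_mem (inv_mem (mul_mem ha hb)) h2) (inv_mem hc)
      rwa [mul_assoc (a * b) , inv_mul_cancel_left, mul_inv_cancel_right] at h4
    have h5 := mem_AffG_iff.mp h3 0
    rw [el_0] at h5
    have h6 : P ∈ (Af : Submodule K (A K)) := by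
      have := Af.sub_mem h5 (x_mem_Af 0)
      rwa [add_sub_cancel_left] at this
    have h7 := Pl_of_Af_B h6 hP
    refine ⟨a * b * el P hP * c, h2, ?_⟩
    rw [dia_mul, dia_mul, dia_mul, E0_Pl l h7]

theorem state3 (l : K) : StateD l 3 := by
  refine ⟨?_, ?_, ?_⟩
  · intro h hc
    obtain ⟨a, -, ha⟩ := rd3 (l := l) hc
    have h1 := congrArg Prod.fst ha
    have h2 := congrArg Prod.snd ha
    exact h2.trans h1.symm
  · intro p hp b hb _ hlt
    exfalso
    obtain ⟨a, ha, rfl⟩ := rd3 hp
    have hab : a * b ∈ (AffG : Subgroup (Gp K)) := mul_mem ha hb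
    have h1 := dg_of_mem_Af (mem_AffG_iff.mp hab 1)
    have h2 := dg_gx (a * b) 2
    have h3 : dg ((a * b) (x K 2)) < dg ((a * b) (x K 1)) := hlt
    omega
  · intro p hp
    left
    obtain ⟨a, ha, rfl⟩ := rd3 hp
    have := lv_mul_aff 1 ha
    rw [one_mul, lv_one] at this
    exact this

/-- the induction step, from the two facts about the new vertices -/
theorem step_state (F : PF K) {l : K} {D : ℕ} (hD : 3 ≤ D) (hS : StateD l D)
    (hnew : ∀ p, lv p.1 = D + 1 → RN l (RD l D) p → Good p.1 ∧ NoD l (RD l D) p) :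
    StateD l (D + 1) := by
  have hcl := RD.cl (l := l) hD
  have key : ∀ p, RD l (D + 1) p → RD l D p ∨ (lv p.1 = D + 1 ∧ RN l (RD l D) p) := by
    intro p hp
    induction hp with
    | refl => left; exact Relation.ReflTransGen.refl
    | @tail b c _ h1 ih =>
      obtain ⟨-, hle, hadj⟩ := h1
      rcases ih with h2 | ⟨h2, h3⟩
      · rcases Nat.lt_or_ge D (lv c.1) with h4 | h4
        · right
          exact ⟨le_antisymm hle h4, _, hadj.symm, h2⟩
        · left
          exact hcl.2 _ _ h2 hadj h4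
      · obtain ⟨h4, h5⟩ := hnew _ h2 h3
        obtain ⟨h6, h7⟩ := local_thm F hcl h4 h2 h5 h3
        rcases Nat.lt_or_ge D (lv c.1) with h8 | h8
        · right
          exact ⟨le_antisymm hle h8, h7 _ hadj (le_antisymm hle h8)⟩
        · left
          exact h6 _ hadj h8
  refine ⟨?_, ?_, ?_⟩
  · intro h hc
    rcases key (1, h) hc with h1 | ⟨h1, -⟩
    · exact hS.uniq h h1
    · exfalso
      have h2 : lv (1 : Gp K) = D + 1 := h1
      rw [lv_one] at h2
      omega
  · intro p hp
    rcases key p hp with h1 | ⟨h1, h2⟩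
    · exact hS.good p h1
    · exact (hnew p h1 h2).1
  · intro p hp
    rcases key p hp with h1 | ⟨h1, q, h2, h3⟩
    · exact hS.low p h1
    · right
      refine ⟨q, h2, ?_⟩
      have := hcl.1 q h3
      omega

/-- Reduction of the main theorem to the facts about pairs and new vertices. -/
theorem main_of_facts (F : PF K)
    (hnew : ∀ (l : K) (D : ℕ), 3 ≤ D → StateD l D → ∀ p, lv p.1 = D + 1 → RN l (RD l D) p →
      Good p.1 ∧ NoD l (RD l D) p) :
    ∃ φ : TAut K ≃* TAut K, ¬ SemiInner K φ := by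
  apply main_of_uniq
  apply uniq_of_uniqD
  intro l _ D hD
  have : ∀ D, 3 ≤ D → StateD l D := by
    intro D hD
    induction D, hD using Nat.le_induction with
    | base => exact state3 l
    | succ D hD ih => exact step_state F hD ih (hnew l D hD ih)
  exact (this D hD).uniq

end Pool.Agent.H66.TA
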