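import Pool.Agent.H66.TA.LemS
import Pool.Agent.H66.TA.Base

/-!
The set of reached vertices is admissible; the facts about new vertices.
-/

namespace Pool.Agent.H66.TA

open FreeAlgebra Polynomial Module

variable {K : Type*} [Field K]

section

variable {n : ℕ} {V : A K → A K → A K → Prop}

/-- exclusion of commutator steps -/
theorem Adm.j3 (G : PG K) (W : Adm n V) {t1 t2 t3 P : A K} (hV : V (t2 + P) t1 t3)
    (hP : P ∈ KK t1 t3) (hlow : dg (t2 + P) < dg t2) (hm : Mn (t2 + P) t1 t3)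
    (h31 : dg t3 ≤ dg t1) (h12 : dg t1 < dg t2) (hc23 : Com t2 t3) (hc13 : Com t1 t3)
    (hNT2 : NT t2 t3) (hNT1 : NT t1 t3) (hS2 : S2 t2 t3) : dg t1 < dg (br t2 t3) := by
  have F := G.toPF
  by_contra hge
  rw [not_lt] at hge
  have hd2 : ¬ dg t3 ∣ dg t2 := fun h => hNT2 ⟨hc23, h⟩
  have hd1 : ¬ dg t3 ∣ dg t1 := fun h => hNT1 ⟨hc13, h⟩
  have hlt : dg t3 < dg t1 := lt_of_le_of_ne h31 (fun e => hd1 (by rw [e]))
  have hpr : PR t1 t3 := W.pr hV
  have h30 := hpr.dgr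
  have hsg : Sg t1 t3 := ⟨hc13, hlt, hd1⟩
  have h2 := W.s2 hV hsg
  obtain ⟨e1, e2⟩ := low_lf' hlow
  have hPc : Com P t3 := (com_neg_left e2).mpr hc23
  have h4 := hS2.2
  have h5 := hpr.la G hsg h2 hP hPc (by rw [e1]; exact hd2) (by omega) (by omega)
  have h6 : dg (br t1 t3) ≠ 0 := W.dbr F hV
  have h7 : dg (br (t2 + P) t3) = dg (br P t3) := by
    rw [br_add_left, dg_add_eq_right (by omega)]
  generalize ht : t2 + P = t at *
  have hIS : IS t3 t1 := (hsg.is h30).symm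
  by_cases hc : Com t t3
  · refine dl_sym F W (W.dl G (dg t3 + dg t1 + dg t + 1)) (W.tr hV) hIS hc13.symm hm.symm hc ?_
      (Nat.lt_succ_self _)
    rw [dg_br_swap t3 t1, dg_br_swap t3 t, h7]
    omega
  · have h8 := il_sym F W (W.tr hV) hIS hc13.symm hm.symm hc
    rw [dg_br_swap t3 t1] at h8
    have h9 := (dg_br hc).1
    omega

end

/-- independence of the leading forms gives the level -/
theorem cf_of_red {g : Gp K} (h : ∀ β γ : K, dg (g (x K 0)) ≤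
    dg (g (x K 0) + β • g (x K 1) + γ • g (x K 2))) :
    cf (im g Af) (im g Pl) = dg (g (x K 0)) := by
  apply le_antisymm
  · have := cf0_le g (Pl.zero_mem)
    rwa [map_zero, add_zero] at this
  · have hn : ¬ im g Af ≤ im g Pl := by
      intro h2
      have := h2 (im_mem.mpr (x_mem_Af 0))
      rw [im_mem] at this
      exact x0_not_mem this
    obtain ⟨v, hv, hv', hvd⟩ := cf_spec hn
    rw [← hvd]
    obtain ⟨u, hu, rfl⟩ := mem_im.mp hv
    obtain ⟨d, α, β, γ, rfl⟩ := mem_Af.mp hu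
    have hα : α ≠ 0 := by
      rintro rfl
      apply hv'
      rw [im_mem, zero_smul, zero_add]
      exact mem_Pl.mpr ⟨d, β, γ, rfl⟩
    have e : g (d • (1 : A K) + (α • x K 0 + (β • x K 1 + γ • x K 2))) =
        α • (g (x K 0) + (α⁻¹ * β) • g (x K 1) + (α⁻¹ * γ) • g (x K 2)) + d • 1 := by
      simp only [map_add, map_smul, map_one, smul_add, smul_smul, mul_inv_cancel_left₀ hα]
      abel
    rw [e, dg_add_const, dg_smul hα]
    exact h _ _

theorem cf1_of_red {g : Gp K} (h : ∀ β : K, dg (g (x K 1)) ≤ dg (g (x K 1) + β • g (x K 2))) :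
    lev (im g Pl) = dg (g (x K 1)) + dg (g (x K 2)) := by
  rw [lvP_eq, lvL_eq']
  have : cf (im g Pl) (im g Ln) = dg (g (x K 1)) := by
    apply le_antisymm
    · have := cf1_le g (Ln.zero_mem)
      rwa [map_zero, add_zero] at this
    · have hn : ¬ im g Pl ≤ im g Ln := by
        intro h2
        have := h2 (im_mem.mpr x1_mem_Pl)
        rw [im_mem] at this
        exact x1_not_mem this
      obtain ⟨v, hv, hv', hvd⟩ := cf_spec hn
      rw [← hvd]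
      obtain ⟨u, hu, rfl⟩ := mem_im.mp hv
      obtain ⟨d, β, γ, rfl⟩ := mem_Pl.mp hu
      have hβ : β ≠ 0 := by
        rintro rfl
        apply hv'
        rw [im_mem, zero_smul, zero_add]
        exact mem_Ln.mpr ⟨d, γ, rfl⟩
      have e : g (d • (1 : A K) + (β • x K 1 + γ • x K 2)) =
          β • (g (x K 1) + (β⁻¹ * γ) • g (x K 2)) + d • 1 := by
        simp only [map_add, map_smul, map_one, smul_add, smul_smul, mul_inv_cancel_left₀ hβ]
        abel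
      rw [e, dg_add_const, dg_smul hβ]
      exact h _
  rw [this, add_comm]

theorem std_of_red {g : Gp K} (h : Red (g (x K 0)) (g (x K 1)) (g (x K 2))) : Std g := by
  have h0 : cf (im g Af) (im g Pl) = dg (g (x K 0)) := by
    apply cf_of_red
    intro β γ
    have := (h 1 β γ).1
    rwa [one_smul] at this
  have h1 : lev (im g Pl) = dg (g (x K 1)) + dg (g (x K 2)) := by
    apply cf1_of_red
    intro β
    have := (h 0 1 β).2.1
    rwa [one_smul, zero_smul, zero_add] at this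
  rw [Std, lv_eq, h0, h1]
  omega

variable [CharZero K]

/-- the triples of the reached vertices -/
def VR (l : K) (D : ℕ) (a b c : A K) : Prop :=
  ∃ p : Gp K × Gp K, RD l D p ∧ p.1 (x K 0) = a ∧ p.1 (x K 1) = b ∧ p.1 (x K 2) = c

theorem RD.aff {l : K} {D : ℕ} (hD : 3 ≤ D) {p : Gp K × Gp K} (h : RD l D p) {b : Gp K}
    (hb : b ∈ (AffG : Subgroup (Gp K))) : RD l D (p * dia b) := by
  refine (RD.cl hD).2 _ _ h (adj_aff l p hb).adj ?_
  show lv (p.1 * b) ≤ D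
  rw [lv_mul_aff _ hb]
  exact h.lv_le hD

omit [CharZero K] in
theorem dia_fst (p : Gp K × Gp K) (b : Gp K) (u : A K) : (p * dia b).1 u = p.1 (b u) := rfl

/-- exchange of the first and the last generator -/
noncomputable def sw02 : Gp K := permA (Equiv.swap 0 2)

omit [CharZero K] in
@[simp] theorem sw02_0 : sw02 (x K 0) = x K 2 := by rw [sw02, permA_x]; rfl
omit [CharZero K] in
@[simp] theorem sw02_1 : sw02 (x K 1) = x K 1 := by rw [sw02, permA_x]; rfl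
omit [CharZero K] in
@[simp] theorem sw02_2 : sw02 (x K 2) = x K 0 := by rw [sw02, permA_x]; rfl

theorem VR.low {l : K} {D : ℕ} (hD : 3 ≤ D) (hS : StateD l D) {a b c : A K}
    (h : VR l D a b c) (hred : Red a b c) (hab : dg a ≤ dg b) (hbc : dg b ≤ dg c)
    (h3 : 3 < dg a + dg b + dg c) :
    (∃ P ∈ KK a b, dg (c + P) < dg c) ∨
    (∃ μ : K, ∃ P ∈ KK a (c + μ • b), dg (b + P) < dg b) ∨
    (∃ ν μ : K, ∃ P ∈ KK (b + ν • a) (c + μ • a), dg (a + P) < dg a) := by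
  obtain ⟨p, hp1, rfl, rfl, rfl⟩ : ∃ p : Gp K × Gp K, RD l D p ∧ p.1 (x K 0) = c ∧
      p.1 (x K 1) = b ∧ p.1 (x K 2) = a := by
    obtain ⟨p0, hp0, h0, h1, h2⟩ := h
    refine ⟨p0 * dia sw02, hp0.aff hD (permA_aff _), ?_, ?_, ?_⟩
    · rw [dia_fst, sw02_0, h2]
    · rw [dia_fst, sw02_1, h1]
    · rw [dia_fst, sw02_2, h0]
  have hstd : Std p.1 := std_of_red hred.sw.cy.cy
  have hadp : Adp p.1 := ⟨hstd, hbc, hab⟩
  have hsum := hstd
  unfold Std at hsum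
  rcases hS.low p hp1 with h4 | ⟨q, ⟨Wq, hq⟩, hlt⟩
  · omega
  rcases hq.class with h5 | ⟨μ, h5⟩ | ⟨μ, ν, h5⟩
  · subst h5
    left
    obtain ⟨c', hc', P, hP, -, hlv⟩ := hq.rep
    rw [hstd.cf.2.2] at hlv
    refine ⟨p.1 P, ?_, by omega⟩
    rw [KK_comm]
    exact mem_KK.mpr ⟨P, hP, rfl⟩
  · subst h5
    right; left
    obtain ⟨hS1, hd1⟩ := hadp.ka μ
    have h' : AdjP l (p * dia (ka μ)) q (im (p * dia (ka μ)).1 Pl) := hq.mul_left (ka_aff μ)
    obtain ⟨c', hc', P, hP, -, hlv⟩ := h'.rep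
    have hS1' : Std (p * dia (ka μ)).1 := hS1
    rw [hS1'.cf.2.2] at hlv
    have f0 : (p * dia (ka μ)).1 (x K 0) = p.1 (x K 1) := by
      show (p.1 * ka μ) (x K 0) = _
      rw [gp_mul_apply, ka_0]
    have f1 : (p * dia (ka μ)).1 (x K 1) = p.1 (x K 0 + μ • x K 1) := by
      show (p.1 * ka μ) (x K 1) = _
      rw [gp_mul_apply, ka_1]
    have f2 : (p * dia (ka μ)).1 (x K 2) = p.1 (x K 2) := by
      show (p.1 * ka μ) (x K 2) = _
      rw [gp_mul_apply, ka_2]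
    rw [f0, f1, f2] at hlv
    refine ⟨μ, (p * dia (ka μ)).1 P, ?_, by omega⟩
    rw [KK_comm, ← map_smul, ← map_add, ← f1, ← f2]
    exact mem_KK.mpr ⟨P, hP, rfl⟩
  · subst h5
    right; right
    obtain ⟨hS1, hd1, hd2⟩ := hadp.kab μ ν
    have h' : AdjP l (p * dia (kab μ ν)) q (im (p * dia (kab μ ν)).1 Pl) :=
      hq.mul_left (kab_aff μ ν)
    obtain ⟨c', hc', P, hP, -, hlv⟩ := h'.rep
    have hS1' : Std (p * dia (kab μ ν)).1 := hS1
    rw [hS1'.cf.2.2] at hlv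
    have f0 : (p * dia (kab μ ν)).1 (x K 0) = p.1 (x K 2) := by
      show (p.1 * kab μ ν) (x K 0) = _
      rw [gp_mul_apply, kab_0]
    have f1 : (p * dia (kab μ ν)).1 (x K 1) = p.1 (x K 0 + μ • x K 2) := by
      show (p.1 * kab μ ν) (x K 1) = _
      rw [gp_mul_apply, kab_1]
    have f2 : (p * dia (kab μ ν)).1 (x K 2) = p.1 (x K 1 + ν • x K 2) := by
      show (p.1 * kab μ ν) (x K 2) = _
      rw [gp_mul_apply, kab_2]
    rw [f0, f1, f2] at hlv
    refine ⟨ν, μ, (p * dia (kab μ ν)).1 P, ?_, by omega⟩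
    rw [KK_comm, ← map_smul, ← map_smul, ← map_add, ← map_add, ← f1, ← f2]
    exact mem_KK.mpr ⟨P, hP, rfl⟩

theorem adm_VR {l : K} {D : ℕ} (hD : 3 ≤ D) (hS : StateD l D) : Adm (D + 1) (VR l D) where
  fr := by
    rintro a b c ⟨p, -, h0, h1, h2⟩
    exact ⟨p.1, h0, h1, h2⟩
  sw := by
    rintro a b c ⟨p, hp, h0, h1, h2⟩
    refine ⟨p * dia sw, hp.aff hD sw_aff, ?_, ?_, ?_⟩
    · rw [dia_fst, sw_0, h1]
    · rw [dia_fst, sw_1, h0]
    · rw [dia_fst, sw_2, h2]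
  cy := by
    rintro a b c ⟨p, hp, h0, h1, h2⟩
    refine ⟨p * dia (cy * cy), hp.aff hD (mul_mem (permA_aff _) (permA_aff _)), ?_, ?_, ?_⟩
    · rw [dia_fst, gp_mul_apply, cy_0, cy_2, h1]
    · rw [dia_fst, gp_mul_apply, cy_1, cy_0, h2]
    · rw [dia_fst, gp_mul_apply, cy_2, cy_1, h0]
  sh := by
    rintro a b c μ ⟨p, hp, h0, h1, h2⟩
    refine ⟨p * dia (el (μ • x K 1) (Pl_le_B (smul_x1_Pl μ))), hp.aff hD (el_aff (smul_x1_Pl μ)),
      ?_, ?_, ?_⟩
    · rw [dia_fst, el_0, map_add, map_smul, h0, h1]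
    · rw [dia_fst, el_1, h1]
    · rw [dia_fst, el_2, h2]
  mv := by
    rintro a b c P ⟨p, hp, rfl, rfl, rfl⟩ hP hlt
    obtain ⟨P', hP', rfl⟩ := mem_KK.mp hP
    have f0 : (p * E0 l P' hP').1 (x K 0) = p.1 (x K 0) + p.1 P' := by
      show (p.1 * el P' hP') (x K 0) = _
      rw [gp_mul_apply, el_0, map_add]
    have f1 : (p * E0 l P' hP').1 (x K 1) = p.1 (x K 1) := by
      show (p.1 * el P' hP') (x K 1) = _
      rw [gp_mul_apply, el_1]
    have f2 : (p * E0 l P' hP').1 (x K 2) = p.1 (x K 2) := by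
      show (p.1 * el P' hP') (x K 2) = _
      rw [gp_mul_apply, el_2]
    refine ⟨p * E0 l P' hP', (RD.cl hD).2 _ _ hp (adjP_std l p P' hP').adj ?_, f0, f1, f2⟩
    have := lv_le (p * E0 l P' hP').1
    rw [f0, f1, f2] at this
    omega
  lt := by
    rintro a b c ⟨p, hp, rfl, rfl, rfl⟩ hred
    have h1 := std_of_red hred
    unfold Std at h1
    have := hp.lv_le hD
    omega
  s2 := by
    rintro a b c ⟨p, hp, rfl, rfl, rfl⟩ hs
    exact hS.good p hp 1 (one_mem _) hs.1 hs.2.1 hs.2.2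
  a5 := by
    intro a b c h hred hab hbc h3
    exact h.low hD hS hred hab hbc h3

/-- `x1 ↦ x1 + κ x2` -/
noncomputable def sh1 (κ : K) : Gp K := sw * el (κ • x K 2) (Pl_le_B (smul_x2_Pl κ)) * sw

omit [CharZero K] in
@[simp] theorem sh1_0 (κ : K) : sh1 κ (x K 0) = x K 0 := by
  simp only [sh1, gp_mul_apply, sw_0, el_1, sw_1]

omit [CharZero K] in
@[simp] theorem sh1_1 (κ : K) : sh1 κ (x K 1) = x K 1 + κ • x K 2 := by
  simp only [sh1, gp_mul_apply, sw_1, el_0, map_add, sw_0, map_smul, sw_2]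

omit [CharZero K] in
@[simp] theorem sh1_2 (κ : K) : sh1 κ (x K 2) = x K 2 := by
  simp only [sh1, gp_mul_apply, sw_2, el_2]

omit [CharZero K] in
theorem sh1_aff (κ : K) : sh1 κ ∈ (AffG : Subgroup (Gp K)) :=
  mul_mem (mul_mem sw_aff (el_aff (smul_x2_Pl κ))) sw_aff

omit [CharZero K] in
theorem sh1_Pl (κ : K) : im (sh1 κ) Pl = Pl := by
  apply Submodule.eq_of_le_of_finrank_eq
  · rw [im_Pl, Submodule.span_le]
    rintro a (rfl | rfl | rfl)
    · exact one_mem_Pl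
    · rw [sh1_1]
      exact Pl.add_mem x1_mem_Pl (smul_x2_Pl κ)
    · rw [sh1_2]
      exact Ln_le_Pl x2_mem_Ln
  · rw [finrank_im]

/-- the neighbour along the plane of the frame, as a triple -/
theorem nb_triple {l : K} {D : ℕ} (hD : 3 ≤ D) (hS : StateD l D) {p q : Gp K × Gp K}
    (hp : lv p.1 = D + 1) (hq : AdjP l p q (im p.1 Pl)) (hR : RD l D q)
    (h1 : ∀ κ : K, dg (p.1 (x K 1)) ≤ dg (p.1 (x K 1) + κ • p.1 (x K 2))) :
    ∃ P ∈ KK (p.1 (x K 1)) (p.1 (x K 2)), VR l D (p.1 (x K 0) + P) (p.1 (x K 1)) (p.1 (x K 2)) ∧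
      Mn (p.1 (x K 0) + P) (p.1 (x K 1)) (p.1 (x K 2)) ∧
      dg (p.1 (x K 0) + P) < dg (p.1 (x K 0)) := by
  have W := adm_VR hD hS
  obtain ⟨c, hc, P, hP, hqe, hlv⟩ := hq.rep
  have hR' : RD l D (p * E0 l P hP) := by
    have := hR.aff hD (inv_mem hc)
    rwa [hqe, mul_assoc, dia_mul_inv, mul_one] at this
  have hV : VR l D (p.1 (x K 0) + p.1 P) (p.1 (x K 1)) (p.1 (x K 2)) := by
    refine ⟨p * E0 l P hP, hR', ?_, ?_, ?_⟩
    · show (p.1 * el P hP) (x K 0) = _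
      rw [gp_mul_apply, el_0, map_add]
    · show (p.1 * el P hP) (x K 1) = _
      rw [gp_mul_apply, el_1]
    · show (p.1 * el P hP) (x K 2) = _
      rw [gp_mul_apply, el_2]
  have hPm : p.1 P ∈ KK (p.1 (x K 1)) (p.1 (x K 2)) := mem_KK.mpr ⟨P, hP, rfl⟩
  have hlevP := cf1_of_red h1
  have hqD := hR.lv_le hD
  have hlvp := lv_eq p.1
  have hcf := cf0_le p.1 (Pl.zero_mem)
  rw [map_zero, add_zero] at hcf
  obtain ⟨P0, hP0, hm0, hmin⟩ := exists_min (p.1 (x K 0) + p.1 P) (p.1 (x K 1)) (p.1 (x K 2))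
  have hle0 : dg (p.1 (x K 0) + p.1 P + P0) ≤ dg (p.1 (x K 0) + p.1 P) := by
    have := hmin 0 (Subalgebra.zero_mem _)
    rwa [add_zero] at this
  have hV2 := W.mv hV hP0 (by omega)
  refine ⟨p.1 P + P0, Subalgebra.add_mem _ hPm hP0, ?_, ?_, ?_⟩
  · rw [← add_assoc]; exact hV2
  · rw [← add_assoc]; exact hm0
  · rw [← add_assoc]; omega

theorem new_SS (G : PG K) {l : K} {D : ℕ} (hD : 3 ≤ D) (hS : StateD l D) {p q : Gp K × Gp K}
    (hp : lv p.1 = D + 1) (hq : AdjP l p q (im p.1 Pl)) (hR : RD l D q)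
    (h1 : ∀ κ : K, dg (p.1 (x K 1)) ≤ dg (p.1 (x K 1) + κ • p.1 (x K 2)))
    (hc : Com (p.1 (x K 0)) (p.1 (x K 2))) (hIS : IS (p.1 (x K 0)) (p.1 (x K 2))) :
    SS (p.1 (x K 0)) (p.1 (x K 2)) := by
  have W := adm_VR hD hS
  obtain ⟨P, hP, hV, hm, hlt⟩ := nb_triple hD hS hp hq hR h1
  have hPn : -P ∈ KK (p.1 (x K 2)) (p.1 (x K 1)) := by
    rw [KK_comm]
    exact Subalgebra.neg_mem _ hP
  refine W.lemS G (W.tr hV) (f1 := p.1 (x K 0)) (P := -P) (by abel) hPn hm.symm hlt hc hIS h1 ?_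
  intro hred
  have h5 := std_of_red hred.sw.cy
  unfold Std at h5
  omega

/-- an element of the line with least degree -/
theorem exists_kap (u v : A K) : ∃ κ : K, ∀ κ' : K,
    dg (u + κ • v) ≤ dg (u + κ • v + κ' • v) := by
  have hne : {m | ∃ κ : K, dg (u + κ • v) = m}.Nonempty := ⟨_, 0, rfl⟩
  obtain ⟨κ, hκ⟩ := Nat.sInf_mem hne
  refine ⟨κ, fun κ' => ?_⟩
  rw [hκ, add_assoc, ← add_smul]
  exact Nat.sInf_le ⟨κ + κ', rfl⟩

theorem new_good_aux (G : PG K) {l : K} {D : ℕ} (hD : 3 ≤ D) (hS : StateD l D)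
    {p' : Gp K × Gp K} (hlv' : lv p'.1 = D + 1) (hRN : RN l (RD l D) p')
    (hcom : Com (p'.1 (x K 1)) (p'.1 (x K 2)))
    (hlt : dg (p'.1 (x K 2)) < dg (p'.1 (x K 1)))
    (hnd : ¬ dg (p'.1 (x K 2)) ∣ dg (p'.1 (x K 1))) :
    S2 (p'.1 (x K 1)) (p'.1 (x K 2)) := by
  obtain ⟨q, ⟨Wq, hq'⟩, hR⟩ := hRN
  have hsg : Sg (p'.1 (x K 1)) (p'.1 (x K 2)) := ⟨hcom, hlt, hnd⟩
  rcases hq'.class with h5 | ⟨a, h5⟩ | ⟨a, c, h5⟩
  · subst h5
    obtain ⟨c, hc, P, hP, hqe, -⟩ := hq'.rep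
    have h6 := hS.good q hR c⁻¹ (inv_mem hc)
    have f : ∀ i : Fin 3, q.1 (c⁻¹ (x K i)) = (p'.1 * el P hP) (x K i) := by
      intro i
      rw [hqe]
      show (p'.1 * el P hP * c) (c⁻¹ (x K i)) = _
      rw [gp_mul_apply _ c, ← gp_mul_apply c, mul_inv_cancel]
      rfl
    rw [f, f, gp_mul_apply, gp_mul_apply, el_1, el_2] at h6
    exact h6 hcom hlt hnd
  · obtain ⟨κ, hκ⟩ := exists_kap (p'.1 (x K 0 + a • x K 1)) (p'.1 (x K 2))
    have haff : ka a * sh1 κ ∈ (AffG : Subgroup (Gp K)) := mul_mem (ka_aff a) (sh1_aff κ)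
    have hq2 : AdjP l (p' * dia (ka a * sh1 κ)) q (im (p' * dia (ka a * sh1 κ)).1 Pl) := by
      have h6 := hq'.mul_left haff
      rw [h5] at h6
      have h7 : im (p'.1 * ka a) Pl = im (p' * dia (ka a * sh1 κ)).1 Pl := by
        show _ = im (p'.1 * (ka a * sh1 κ)) Pl
        rw [← mul_assoc, im_mul (p'.1 * ka a), sh1_Pl]
      rwa [h7] at h6
    have f0 : (p' * dia (ka a * sh1 κ)).1 (x K 0) = p'.1 (x K 1) := by
      show (p'.1 * (ka a * sh1 κ)) (x K 0) = _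
      rw [gp_mul_apply, gp_mul_apply, sh1_0, ka_0]
    have f1 : (p' * dia (ka a * sh1 κ)).1 (x K 1) =
        p'.1 (x K 0 + a • x K 1) + κ • p'.1 (x K 2) := by
      show (p'.1 * (ka a * sh1 κ)) (x K 1) = _
      rw [gp_mul_apply, gp_mul_apply, sh1_1, map_add, map_smul, ka_1, ka_2, map_add, map_smul]
    have f2 : (p' * dia (ka a * sh1 κ)).1 (x K 2) = p'.1 (x K 2) := by
      show (p'.1 * (ka a * sh1 κ)) (x K 2) = _
      rw [gp_mul_apply, gp_mul_apply, sh1_2, ka_2]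
    have hlv2 : lv (p' * dia (ka a * sh1 κ)).1 = D + 1 := by
      show lv (p'.1 * (ka a * sh1 κ)) = D + 1
      rw [lv_mul_aff _ haff, hlv']
    have h8 := new_SS G hD hS hlv2 hq2 hR (by rw [f1, f2]; exact hκ) (by rw [f0, f2]; exact hcom)
      (by rw [f0, f2]; exact hsg.is (dg_gx _ _))
    rw [f0, f2] at h8
    exact h8.1 hlt
  · obtain ⟨κ, hκ⟩ := exists_kap (p'.1 (x K 0 + a • x K 2)) (p'.1 (x K 1 + c • x K 2))
    have haff : kab a c * sh1 κ ∈ (AffG : Subgroup (Gp K)) := mul_mem (kab_aff a c) (sh1_aff κ)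
    have hq2 : AdjP l (p' * dia (kab a c * sh1 κ)) q (im (p' * dia (kab a c * sh1 κ)).1 Pl) := by
      have h6 := hq'.mul_left haff
      rw [h5] at h6
      have h7 : im (p'.1 * kab a c) Pl = im (p' * dia (kab a c * sh1 κ)).1 Pl := by
        show _ = im (p'.1 * (kab a c * sh1 κ)) Pl
        rw [← mul_assoc, im_mul (p'.1 * kab a c), sh1_Pl]
      rwa [h7] at h6
    have f0 : (p' * dia (kab a c * sh1 κ)).1 (x K 0) = p'.1 (x K 2) := by
      show (p'.1 * (kab a c * sh1 κ)) (x K 0) = _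
      rw [gp_mul_apply, gp_mul_apply, sh1_0, kab_0]
    have f1 : (p' * dia (kab a c * sh1 κ)).1 (x K 1) =
        p'.1 (x K 0 + a • x K 2) + κ • p'.1 (x K 1 + c • x K 2) := by
      show (p'.1 * (kab a c * sh1 κ)) (x K 1) = _
      rw [gp_mul_apply, gp_mul_apply, sh1_1, map_add, map_smul, kab_1, kab_2, map_add, map_smul]
    have f2 : (p' * dia (kab a c * sh1 κ)).1 (x K 2) = p'.1 (x K 1 + c • x K 2) := by
      show (p'.1 * (kab a c * sh1 κ)) (x K 2) = _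
      rw [gp_mul_apply, gp_mul_apply, sh1_2, kab_2]
    have hlv2 : lv (p' * dia (kab a c * sh1 κ)).1 = D + 1 := by
      show lv (p'.1 * (kab a c * sh1 κ)) = D + 1
      rw [lv_mul_aff _ haff, hlv']
    -- the pair (t, s + c t)
    obtain ⟨g1, g2⟩ := lf_add_smul_left hlt c
    have e3 : p'.1 (x K 1 + c • x K 2) = p'.1 (x K 1) + c • p'.1 (x K 2) := by
      rw [map_add, map_smul]
    have hsg2 : Sg (p'.1 (x K 1) + c • p'.1 (x K 2)) (p'.1 (x K 2)) :=
      hsg.congr g1 rfl g2 rfl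
    have h8 := new_SS G hD hS hlv2 hq2 hR (by rw [f1, f2]; exact hκ)
      (by rw [f0, f2, e3]; exact hsg2.1.symm)
      (by rw [f0, f2, e3]; exact (hsg2.is (dg_gx _ _)).symm)
    rw [f0, f2, e3] at h8
    have h9 := h8.2 hsg2.2.1
    have h10 : br (p'.1 (x K 1) + c • p'.1 (x K 2)) (p'.1 (x K 2)) =
        br (p'.1 (x K 1)) (p'.1 (x K 2)) := by
      rw [br_add_left, br_smul_left, br_self, smul_zero, add_zero]
    unfold S2 at h9 ⊢
    rw [h10, g1] at h9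
    exact h9

theorem new_good (G : PG K) {l : K} {D : ℕ} (hD : 3 ≤ D) (hS : StateD l D) {p : Gp K × Gp K}
    (hp : lv p.1 = D + 1) (hRN : RN l (RD l D) p) : Good p.1 := by
  intro b hb hcom hlt hnd
  exact new_good_aux G hD hS (p' := p * dia b) ((lv_mul_aff _ hb).trans hp) (hRN.aff hb)
    hcom hlt hnd

theorem new_nod_aux (G : PG K) {l : K} {D : ℕ} (hD : 3 ≤ D) (hS : StateD l D)
    {p' q : Gp K × Gp K} (hlv' : lv p'.1 = D + 1) (hG' : Good p'.1) (hA' : Adp p'.1)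
    (hlt : dg (p'.1 (x K 1)) < dg (p'.1 (x K 0)))
    (hc02 : Com (p'.1 (x K 0)) (p'.1 (x K 2))) (hc12 : Com (p'.1 (x K 1)) (p'.1 (x K 2)))
    (hnt0 : NT (p'.1 (x K 0)) (p'.1 (x K 2))) (hnt1 : NT (p'.1 (x K 1)) (p'.1 (x K 2)))
    (hq' : AdjP l p' q (im p'.1 Pl)) (hR : RD l D q) :
    dg (p'.1 (x K 1)) < dg (br (p'.1 (x K 0)) (p'.1 (x K 2))) := by
  have W := adm_VR hD hS
  obtain ⟨P, hP, hV, hm, hlt2⟩ := nb_triple hD hS hlv' hq' hR (fun κ => by
    have := hA'.std.le1 (Ln.smul_mem κ x2_mem_Ln)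
    rwa [map_smul] at this)
  have hS2 : S2 (p'.1 (x K 0)) (p'.1 (x K 2)) := by
    have h := hG' sw sw_aff
    rw [sw_1, sw_2] at h
    have hnd : ¬ dg (p'.1 (x K 2)) ∣ dg (p'.1 (x K 0)) := fun hh => hnt0 ⟨hc02, hh⟩
    refine h hc02 ?_ hnd
    exact lt_of_le_of_lt hA'.le32 hlt
  exact W.j3 G hV hP hlt2 hm hA'.le32 hlt hc02 hc12 hnt0 hnt1 hS2

theorem new_nod (G : PG K) {l : K} {D : ℕ} (hD : 3 ≤ D) (hS : StateD l D) {p : Gp K × Gp K}
    (hp : lv p.1 = D + 1) (hRN : RN l (RD l D) p) : NoD l (RD l D) p := by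
  have hG := new_good G hD hS hp hRN
  rintro b hb hA hlt hc02 hc12 hnt0 hnt1 ⟨q, hq, hR⟩
  exact new_nod_aux G hD hS (p' := p * dia b) ((lv_mul_aff _ hb).trans hp) (hG.aff hb) hA hlt
    hc02 hc12 hnt0 hnt1 (hq.mul_left hb) hR

/-- Reduction of the main theorem to the facts about pairs. -/
theorem main_of_PG (G : PG K) : ∃ φ : TAut K ≃* TAut K, ¬ SemiInner K φ :=
  main_of_facts G.toPF fun _ _ hD hS _ hp hRN =>
    ⟨new_good G hD hS hp hRN, new_nod G hD hS hp hRN⟩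

end Pool.Agent.H66.TA
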