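import Pool.Agent.H66.TA.Planes

/-!
Adapted frames.
-/

namespace Pool.Agent.H66.TA

open FreeAlgebra Polynomial Module

variable {K : Type*} [Field K]

/-- the leading forms of the frame `g` are independent -/
def Std (g : Gp K) : Prop := lv g = dg (g (x K 0)) + dg (g (x K 1)) + dg (g (x K 2))

theorem Std.cf {g : Gp K} (h : Std g) :
    cf (im g Af) (im g Pl) = dg (g (x K 0)) ∧ cf (im g Pl) (im g Ln) = dg (g (x K 1)) ∧
      lev (im g Pl) = dg (g (x K 1)) + dg (g (x K 2)) := by
  have h0 := cf0_le g (Pl.zero_mem)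
  have h1 := cf1_le g (Ln.zero_mem)
  rw [map_zero, add_zero] at h0 h1
  have e1 := lv_eq g
  have e2 := lvP_eq g
  have e3 := lvL_eq' g
  unfold Std at h
  omega

theorem std_of_le {g : Gp K}
    (h : dg (g (x K 0)) + dg (g (x K 1)) + dg (g (x K 2)) ≤ lv g) : Std g :=
  le_antisymm (lv_le g) h

theorem Std.le0 {g : Gp K} (h : Std g) {u : A K} (hu : u ∈ (Pl : Submodule K (A K))) :
    dg (g (x K 0)) ≤ dg (g (x K 0) + g u) := by
  rw [← h.cf.1]; exact cf0_le g hu

theorem Std.le1 {g : Gp K} (h : Std g) {u : A K} (hu : u ∈ (Ln : Submodule K (A K))) :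
    dg (g (x K 1)) ≤ dg (g (x K 1) + g u) := by
  rw [← h.cf.2.1]; exact cf1_le g hu

/-- An adapted frame: degrees `n1 ≥ n2 ≥ n3`. -/
structure Adp (g : Gp K) : Prop where
  std : Std g
  le21 : dg (g (x K 1)) ≤ dg (g (x K 0))
  le32 : dg (g (x K 2)) ≤ dg (g (x K 1))

/-- the frame `(f2, f1 + a f2, f3)` of the plane `W_a` -/
theorem Adp.ka {g : Gp K} (h : Adp g) (a : K) :
    Std (g * ka a) ∧ dg (g (x K 0 + a • x K 1)) = dg (g (x K 0)) := by
  have h1 : dg (g (x K 0 + a • x K 1)) ≤ dg (g (x K 0)) := by
    rw [map_add, map_smul]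
    refine (dg_add_le _ _).trans (max_le le_rfl ((dg_smul_le _ _).trans h.le21))
  have h2 := lv_le (g * TA.ka a)
  rw [lv_mul_aff _ (ka_aff a), h.std] at h2
  simp only [gp_mul_apply, ka_0, ka_1, ka_2] at h2
  have h3 : dg (g (x K 0 + a • x K 1)) = dg (g (x K 0)) := by omega
  refine ⟨?_, h3⟩
  rw [Std, lv_mul_aff _ (ka_aff a), h.std]
  simp only [gp_mul_apply, ka_0, ka_1, ka_2]
  omega

/-- the frame `(f3, f1 + a f3, f2 + b f3)` of the plane `W_ab` -/
theorem Adp.kab {g : Gp K} (h : Adp g) (a b : K) :
    Std (g * kab a b) ∧ dg (g (x K 0 + a • x K 2)) = dg (g (x K 0)) ∧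
      dg (g (x K 1 + b • x K 2)) = dg (g (x K 1)) := by
  have h1 : dg (g (x K 0 + a • x K 2)) ≤ dg (g (x K 0)) := by
    rw [map_add, map_smul]
    refine (dg_add_le _ _).trans (max_le le_rfl ((dg_smul_le _ _).trans (h.le32.trans h.le21)))
  have h1' : dg (g (x K 1 + b • x K 2)) ≤ dg (g (x K 1)) := by
    rw [map_add, map_smul]
    refine (dg_add_le _ _).trans (max_le le_rfl ((dg_smul_le _ _).trans h.le32))
  have h2 := lv_le (g * TA.kab a b)
  rw [lv_mul_aff _ (kab_aff a b), h.std] at h2
  simp only [gp_mul_apply, kab_0, kab_1, kab_2] at h2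
  have h3 : dg (g (x K 0 + a • x K 2)) = dg (g (x K 0)) := by omega
  have h4 : dg (g (x K 1 + b • x K 2)) = dg (g (x K 1)) := by omega
  refine ⟨?_, h3, h4⟩
  rw [Std, lv_mul_aff _ (kab_aff a b), h.std]
  simp only [gp_mul_apply, kab_0, kab_1, kab_2]
  omega

/-- Independent affine forms are the images of the generators under an affine automorphism. -/
theorem exists_aff {u : Fin 3 → A K} (hu : ∀ i, u i ∈ (Af : Submodule K (A K)))
    (h2 : u 2 ∉ Submodule.span K {(1 : A K)}) (h1 : u 1 ∉ Submodule.span K {(1 : A K), u 2})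
    (h0 : u 0 ∉ Submodule.span K {(1 : A K), u 1, u 2}) :
    ∃ b ∈ (AffG : Subgroup (Gp K)), ∀ i, b (x K i) = u i := by
  let φ : A K →ₐ[K] A K := lift K u
  have hφx : ∀ i, φ (x K i) = u i := fun i => lift_ι_apply u i
  have s2 : Submodule.span K {(1 : A K)} ⊔ Submodule.span K {u 2} =
      Submodule.span K {(1 : A K), u 2} := by
    rw [← Submodule.span_union]; rfl
  have s1 : Submodule.span K {(1 : A K), u 2} ⊔ Submodule.span K {u 1} =
      Submodule.span K {(1 : A K), u 1, u 2} := by
    rw [← Submodule.span_union]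
    congr 1
    ext a
    simp only [Set.mem_union, Set.mem_insert_iff, Set.mem_singleton_iff]
    tauto
  have s0 : Submodule.span K {(1 : A K), u 1, u 2} ⊔ Submodule.span K {u 0} =
      Submodule.span K {(1 : A K), u 0, u 1, u 2} := by
    rw [← Submodule.span_union]
    congr 1
    ext a
    simp only [Set.mem_union, Set.mem_insert_iff, Set.mem_singleton_iff]
    tauto
  haveI : FiniteDimensional K (Submodule.span K {(1 : A K), u 2}) :=
    FiniteDimensional.span_of_finite K (by simp)
  haveI : FiniteDimensional K (Submodule.span K {(1 : A K), u 1, u 2}) :=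
    FiniteDimensional.span_of_finite K (by simp)
  have r2 : finrank K (Submodule.span K {(1 : A K), u 2}) = 2 := by
    rw [← s2, finrank_sup_one h2, finrank_one]
  have r1 : finrank K (Submodule.span K {(1 : A K), u 1, u 2}) = 3 := by
    rw [← s1, finrank_sup_one h1, r2]
  have r0 : finrank K (Submodule.span K {(1 : A K), u 0, u 1, u 2}) = 4 := by
    rw [← s0, finrank_sup_one h0, r1]
  have hmap : (Af : Submodule K (A K)).map φ.toLinearMap =
      Submodule.span K {(1 : A K), u 0, u 1, u 2} := by
    rw [Af, Submodule.map_span]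
    congr 1
    simp only [Set.image_insert_eq, Set.image_singleton, AlgHom.toLinearMap_apply, map_one, hφx]
  have hAf : Submodule.span K {(1 : A K), u 0, u 1, u 2} = Af := by
    apply Submodule.eq_of_le_of_finrank_eq
    · rw [Submodule.span_le]
      rintro a (rfl | rfl | rfl | rfl)
      · exact Submodule.subset_span (by simp)
      · exact hu 0
      · exact hu 1
      · exact hu 2
    · rw [r0, finrank_Af]
  rw [hAf] at hmap
  have hinj : ∀ a ∈ (Af : Submodule K (A K)), ∀ b ∈ (Af : Submodule K (A K)), φ a = φ b → a = b := by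
    have hker : ∀ a ∈ (Af : Submodule K (A K)), φ a = 0 → a = 0 := by
      have hr := (LinearMap.finrank_range_add_finrank_ker (φ.toLinearMap.domRestrict Af))
      have hrange : LinearMap.range (φ.toLinearMap.domRestrict Af) = Af := by
        rw [LinearMap.range_domRestrict, hmap]
      rw [hrange, finrank_Af] at hr
      have hk0 : finrank K (LinearMap.ker (φ.toLinearMap.domRestrict Af)) = 0 := by omega
      have hbot := Submodule.finrank_eq_zero.mp hk0
      intro a ha h
      have : (⟨a, ha⟩ : (Af : Submodule K (A K))) ∈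
          LinearMap.ker (φ.toLinearMap.domRestrict Af) := by
        rw [LinearMap.mem_ker]
        exact h
      rw [hbot, Submodule.mem_bot] at this
      exact congrArg Subtype.val this
    intro a ha b hb h
    have := hker (a - b) (Af.sub_mem ha hb) (by rw [map_sub, h, sub_self])
    exact sub_eq_zero.mp this
  have hv : ∀ i, ∃ v ∈ (Af : Submodule K (A K)), φ v = x K i := by
    intro i
    have := x_mem_Af (K := K) i
    rw [← hmap] at this
    exact this
  choose v hvm hvφ using hv
  let ψ : A K →ₐ[K] A K := lift K v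
  have hψx : ∀ i, ψ (x K i) = v i := fun i => lift_ι_apply v i
  have hψAf : ∀ a ∈ (Af : Submodule K (A K)), ψ a ∈ (Af : Submodule K (A K)) := by
    intro a ha
    obtain ⟨d, p, q, r, rfl⟩ := mem_Af.mp ha
    rw [map_add, map_add, map_add, map_smul, map_smul, map_smul, map_smul, map_one, hψx, hψx, hψx]
    exact Af.add_mem (Af.smul_mem _ (Submodule.subset_span (by simp)))
      (Af.add_mem (Af.smul_mem _ (hvm 0)) (Af.add_mem (Af.smul_mem _ (hvm 1))
        (Af.smul_mem _ (hvm 2))))
  have c1 : φ.comp ψ = AlgHom.id K (A K) := by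
    apply FreeAlgebra.hom_ext
    funext i
    show φ (ψ (x K i)) = x K i
    rw [hψx, hvφ]
  have c2 : ψ.comp φ = AlgHom.id K (A K) := by
    apply FreeAlgebra.hom_ext
    funext i
    show ψ (φ (x K i)) = x K i
    rw [hφx]
    apply hinj _ (hψAf _ (hu i)) _ (x_mem_Af i)
    rw [hφx]
    exact DFunLike.congr_fun c1 (u i)
  refine ⟨AlgEquiv.ofAlgHom φ ψ c1 c2, ?_, hφx⟩
  rw [mem_AffG_iff]
  intro i
  show φ (x K i) ∈ _
  rw [hφx]
  exact hu i

/-- Independent elements of a vertex form a frame. -/
theorem exists_frame {g : Gp K} {v : Fin 3 → A K} (hv : ∀ i, v i ∈ im g Af)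
    (h2 : v 2 ∉ Submodule.span K {(1 : A K)}) (h1 : v 1 ∉ Submodule.span K {(1 : A K), v 2})
    (h0 : v 0 ∉ Submodule.span K {(1 : A K), v 1, v 2}) :
    ∃ b ∈ (AffG : Subgroup (Gp K)), ∀ i, g (b (x K i)) = v i := by
  have hg : ∀ a, g (g⁻¹ a) = a := fun a => by rw [← gp_mul_apply, mul_inv_cancel]; rfl
  have hspan : ∀ (S : Set (A K)) (a : A K),
      g⁻¹ a ∈ Submodule.span K ((fun y : A K => g⁻¹ y) '' S) →
      a ∈ Submodule.span K S := by
    intro S a h
    have e : Submodule.span K ((fun y : A K => g⁻¹ y) '' S) = im g⁻¹ (Submodule.span K S) := by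
      rw [im, Submodule.map_span]
      rfl
    rw [e, im_mem] at h
    exact h
  obtain ⟨b, hb, hbx⟩ := exists_aff (K := K) (u := fun i => g⁻¹ (v i)) (fun i => by
      rw [← im_mem (g := g), hg]; exact hv i)
    (fun h => h2 (hspan {1} _ (by rwa [Set.image_singleton, map_one])))
    (fun h => h1 (hspan {1, v 2} _ (by
      rwa [Set.image_insert_eq, Set.image_singleton, map_one])))
    (fun h => h0 (hspan {1, v 1, v 2} _ (by
      rwa [Set.image_insert_eq, Set.image_insert_eq, Set.image_singleton, map_one])))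
  exact ⟨b, hb, fun i => by rw [hbx, hg]⟩

theorem im_Ln (g : Gp K) : im g Ln = Submodule.span K {(1 : A K), g (x K 2)} := by
  rw [im, Ln, Submodule.map_span, Set.image_insert_eq, Set.image_singleton]
  congr 2
  exact map_one g

theorem im_Pl (g : Gp K) : im g Pl = Submodule.span K {(1 : A K), g (x K 1), g (x K 2)} := by
  rw [im, Pl, Submodule.map_span, Set.image_insert_eq, Set.image_insert_eq, Set.image_singleton]
  congr 2
  exact map_one g

/-- Adapted frames exist. -/
theorem exists_adp (g : Gp K) : ∃ b ∈ (AffG : Subgroup (Gp K)), Adp (g * b) := by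
  have hn2 : ¬ im g Af ≤ Submodule.span K {(1 : A K)} := by
    intro h
    have := Submodule.finrank_mono h
    rw [finrank_im, finrank_Af, finrank_one] at this
    omega
  obtain ⟨v2, hv2, hv2', hd2⟩ := cf_spec hn2
  have hfin2 : FiniteDimensional K (Submodule.span K {(1 : A K), v2}) :=
    FiniteDimensional.span_of_finite K (by simp)
  have hr2 : finrank K (Submodule.span K {(1 : A K), v2}) = 2 := by
    have s2 : Submodule.span K {(1 : A K)} ⊔ Submodule.span K {v2} =
        Submodule.span K {(1 : A K), v2} := by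
      rw [← Submodule.span_union]; rfl
    rw [← s2, finrank_sup_one hv2', finrank_one]
  have hn1 : ¬ im g Af ≤ Submodule.span K {(1 : A K), v2} := by
    intro h
    have := Submodule.finrank_mono h
    rw [finrank_im, finrank_Af, hr2] at this
    omega
  obtain ⟨v1, hv1, hv1', hd1⟩ := cf_spec hn1
  have hfin1 : FiniteDimensional K (Submodule.span K {(1 : A K), v1, v2}) :=
    FiniteDimensional.span_of_finite K (by simp)
  have hr1 : finrank K (Submodule.span K {(1 : A K), v1, v2}) = 3 := by
    have s1 : Submodule.span K {(1 : A K), v2} ⊔ Submodule.span K {v1} =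
        Submodule.span K {(1 : A K), v1, v2} := by
      rw [← Submodule.span_union]
      congr 1
      ext a
      simp only [Set.mem_union, Set.mem_insert_iff, Set.mem_singleton_iff]
      tauto
    rw [← s1, finrank_sup_one hv1', hr2]
  have hn0 : ¬ im g Af ≤ Submodule.span K {(1 : A K), v1, v2} := by
    intro h
    have := Submodule.finrank_mono h
    rw [finrank_im, finrank_Af, hr1] at this
    omega
  obtain ⟨v0, hv0, hv0', hd0⟩ := cf_spec hn0
  obtain ⟨b, hb, hbx⟩ := exists_frame (g := g) (v := ![v0, v1, v2])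
    (by intro i; fin_cases i <;> assumption) hv2' hv1' hv0'
  have e0 : (g * b) (x K 0) = v0 := hbx 0
  have e1 : (g * b) (x K 1) = v1 := hbx 1
  have e2 : (g * b) (x K 2) = v2 := hbx 2
  have hV : im (g * b) Af = im g Af := by rw [im_mul, mem_AffG.mp hb]
  have hLn : im (g * b) Ln = Submodule.span K {(1 : A K), v2} := by rw [im_Ln, e2]
  have hPl : im (g * b) Pl = Submodule.span K {(1 : A K), v1, v2} := by rw [im_Pl, e1, e2]
  have hle1 : Submodule.span K {(1 : A K)} ≤ Submodule.span K {(1 : A K), v2} :=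
    Submodule.span_mono (by simp)
  have hle2 : Submodule.span K {(1 : A K), v2} ≤ Submodule.span K {(1 : A K), v1, v2} := by
    apply Submodule.span_mono
    rintro a (rfl | rfl) <;> simp
  refine ⟨b, hb, ?_, ?_, ?_⟩
  · rw [Std, lv_eq, lvP_eq, lvL_eq', e0, e1, e2, hV, hPl, hLn, ← hd0]
    have hc1 : cf (Submodule.span K {(1 : A K), v1, v2}) (Submodule.span K {(1 : A K), v2}) =
        dg v1 := by
      apply le_antisymm
      · exact cf_le (Submodule.subset_span (by simp)) hv1'
      · have hnle : ¬ Submodule.span K {(1 : A K), v1, v2} ≤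
            Submodule.span K {(1 : A K), v2} := by
          intro h
          exact hv1' (h (Submodule.subset_span (by simp)))
        obtain ⟨w, hw, hw', hwd⟩ := cf_spec hnle
        rw [← hwd, hd1]
        apply cf_le _ hw'
        rw [← hV]
        rw [← hPl] at hw
        exact im_mono Pl_le_Af hw
    rw [hc1]
    omega
  · rw [e0, e1, hd1]
    exact cf_le hv0 (fun h => hv0' (hle2 h))
  · rw [e1, e2, hd2]
    exact cf_le hv1 (fun h => hv1' (hle1 h))

end Pool.Agent.H66.TA
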