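import Pool.Agent.H66.TA.PairK

/-!
Sets of triples with the properties used in the study of new vertices.
-/

namespace Pool.Agent.H66.TA

open FreeAlgebra Polynomial Module

variable {K : Type*} [Field K]

/-- reduced triple -/
def Red (a b c : A K) : Prop := ∀ α β γ : K,
  dg (α • a) ≤ dg (α • a + β • b + γ • c) ∧ dg (β • b) ≤ dg (α • a + β • b + γ • c) ∧
    dg (γ • c) ≤ dg (α • a + β • b + γ • c)

theorem Red.sw {a b c : A K} (h : Red a b c) : Red b a c := by
  intro α β γ
  obtain ⟨h1, h2, h3⟩ := h β α γ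
  have e : α • b + β • a + γ • c = β • a + α • b + γ • c := by abel
  rw [e]
  exact ⟨h2, h1, h3⟩

theorem Red.cy {a b c : A K} (h : Red a b c) : Red b c a := by
  intro α β γ
  obtain ⟨h1, h2, h3⟩ := h γ α β
  have e : α • b + β • c + γ • a = γ • a + α • b + β • c := by abel
  rw [e]
  exact ⟨h2, h3, h1⟩

theorem red_sorted {a b c : A K} (h1 : dg a ≤ dg b) (h2 : dg b ≤ dg c)
    (hb : ∀ μ : K, dg b ≤ dg (b + μ • a)) (hc : ∀ μ ν : K, dg c ≤ dg (c + μ • b + ν • a)) :
    Red a b c := by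
  intro α β γ
  have hle : ∀ (z : K) (u : A K), dg (z • u) ≤ dg u := fun z u => dg_smul_le z u
  by_cases hγ : γ = 0
  · subst hγ
    by_cases hβ : β = 0
    · subst hβ
      rw [zero_smul, zero_smul, add_zero, add_zero, dg_zero]
      exact ⟨le_rfl, Nat.zero_le _, Nat.zero_le _⟩
    · have e : α • a + β • b + (0 : K) • c = β • (b + (β⁻¹ * α) • a) := by
        rw [smul_add, smul_smul, mul_inv_cancel_left₀ hβ, zero_smul, add_zero, add_comm]
      rw [e, dg_smul hβ (b + (β⁻¹ * α) • a)]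
      have h3 := hb (β⁻¹ * α)
      refine ⟨(hle _ _).trans (h1.trans h3), (hle _ _).trans h3, ?_⟩
      rw [zero_smul, dg_zero]
      exact Nat.zero_le _
  · have e : α • a + β • b + γ • c = γ • (c + (γ⁻¹ * β) • b + (γ⁻¹ * α) • a) := by
      rw [smul_add, smul_add, smul_smul, smul_smul, mul_inv_cancel_left₀ hγ,
        mul_inv_cancel_left₀ hγ]
      abel
    rw [e, dg_smul hγ (c + (γ⁻¹ * β) • b + (γ⁻¹ * α) • a)]
    have h3 := hc (γ⁻¹ * β) (γ⁻¹ * α)
    exact ⟨(hle _ _).trans (h1.trans (h2.trans h3)), (hle _ _).trans (h2.trans h3),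
      (hle _ _).trans h3⟩

/-- The properties of the set of reached vertices below level `n`. -/
structure Adm (n : ℕ) (V : A K → A K → A K → Prop) : Prop where
  fr : ∀ {a b c}, V a b c → ∃ g : Gp K, g (x K 0) = a ∧ g (x K 1) = b ∧ g (x K 2) = c
  sw : ∀ {a b c}, V a b c → V b a c
  cy : ∀ {a b c}, V a b c → V b c a
  sh : ∀ {a b c} (μ : K), V a b c → V (a + μ • b) b c
  mv : ∀ {a b c P}, V a b c → P ∈ KK b c → dg (a + P) + dg b + dg c < n → V (a + P) b c
  lt : ∀ {a b c}, V a b c → Red a b c → dg a + dg b + dg c < n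
  s2 : ∀ {a b c}, V a b c → Sg b c → S2 b c
  a5 : ∀ {a b c}, V a b c → Red a b c → dg a ≤ dg b → dg b ≤ dg c → 3 < dg a + dg b + dg c →
    (∃ P ∈ KK a b, dg (c + P) < dg c) ∨
    (∃ μ : K, ∃ P ∈ KK a (c + μ • b), dg (b + P) < dg b) ∨
    (∃ ν μ : K, ∃ P ∈ KK (b + ν • a) (c + μ • a), dg (a + P) < dg a)

section

variable {n : ℕ} {V : A K → A K → A K → Prop}

/-- transposition of the last two elements -/
theorem Adm.tr (A' : Adm n V) {a b c : A K} (h : V a b c) : V a c b := A'.cy (A'.sw h)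

theorem Adm.pr (A' : Adm n V) {a b c : A K} (h : V a b c) : PR b c := by
  obtain ⟨g, -, h1, h2⟩ := A'.fr h
  exact ⟨g, h1, h2⟩

/-- the element is minimal modulo the subalgebra of the two others -/
def Mn (c a b : A K) : Prop := ∀ P ∈ KK a b, dg c ≤ dg (c + P)

theorem Mn.symm {c a b : A K} (h : Mn c a b) : Mn c b a := fun P hP => h P (by rwa [KK_comm])

theorem Mn.lin {c a b : A K} (h : Mn c a b) (μ ν : K) : dg c ≤ dg (c + μ • a + ν • b) := by
  rw [add_assoc]
  exact h _ (Subalgebra.add_mem _ (Subalgebra.smul_mem _ (lef_mem _ _) _)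
    (Subalgebra.smul_mem _ (rig_mem _ _) _))

/-- a lower translate cancels the leading form -/
theorem low_lf' {u v : A K} (h : dg (u + v) < dg u) : dg v = dg u ∧ lf v = - lf u := by
  have h1 : dg v = dg u := by
    rcases lt_trichotomy (dg v) (dg u) with h1 | h1 | h1
    · rw [dg_add_eq_left h1] at h; omega
    · exact h1
    · rw [dg_add_eq_right h1] at h; omega
  refine ⟨h1, ?_⟩
  by_contra hne
  have h2 := (lf_add_eq h1.symm (fun hz => hne (eq_neg_of_add_eq_zero_right hz))).1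
  omega

theorem lf_add_smul_left {u v : A K} (h : dg v < dg u) (μ : K) :
    dg (u + μ • v) = dg u ∧ lf (u + μ • v) = lf u := by
  have h1 : dg (μ • v) < dg u := lt_of_le_of_lt (dg_smul_le _ _) h
  exact ⟨dg_add_eq_left h1, lf_add_left h1⟩

end

end Pool.Agent.H66.TA
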