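import Pool.Agent.H66.TA.Pair

/-!
Representation of steps, the reduction `(P1)` along planes of divisible type, and special frames.
-/

namespace Pool.Agent.H66.TA

open FreeAlgebra Polynomial Module

variable {K : Type*} [Field K]

section

variable [CharZero K]

/-- a step along the plane of the frame, with the best representative -/
theorem AdjP.rep {l : K} {p q : Gp K × Gp K} (h : AdjP l p q (im p.1 Pl)) :
    ∃ c ∈ (AffG : Subgroup (Gp K)), ∃ (P : A K) (hP : P ∈ (B : Subalgebra K (A K))),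
      q = p * E0 l P hP * dia c ∧ lv q.1 = lev (im p.1 Pl) + dg (p.1 (x K 0) + p.1 P) := by
  obtain ⟨c, hc, P, hP, hq⟩ := h.frame (b := 1) (one_mem _) (by rw [mul_one])
  rw [dia_one, mul_one] at hq
  obtain ⟨-, -, -, -, hlv⟩ := h.plane_le
  have hV : im q.1 Af = im (p.1 * el P hP) Af := by
    rw [hq]
    show im (p.1 * el P hP * c) Af = _
    rw [im_mul, mem_AffG.mp hc]
  have hn : ¬ im q.1 Af ≤ im p.1 Pl := by
    rw [hV]
    intro hle
    have := Submodule.finrank_mono hle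
    rw [finrank_im, finrank_im, finrank_Af, finrank_Pl] at this
    omega
  obtain ⟨v, hv, hv', hvd⟩ := cf_spec hn
  rw [hV] at hv
  obtain ⟨u, hu, rfl⟩ := mem_im.mp hv
  obtain ⟨d, α, β, γ, rfl⟩ := mem_Af.mp hu
  have hα : α ≠ 0 := by
    rintro rfl
    apply hv'
    have hm : d • (1 : A K) + ((0 : K) • x K 0 + (β • x K 1 + γ • x K 2)) ∈
        (Pl : Submodule K (A K)) := by
      rw [zero_smul, zero_add]; exact mem_Pl.mpr ⟨d, β, γ, rfl⟩
    rw [gp_mul_apply, el_B _ _ (Pl_le_B hm), im_mem]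
    exact hm
  set w : A K := α⁻¹ • (d • (1 : A K) + (β • x K 1 + γ • x K 2)) with hw
  have hwPl : w ∈ (Pl : Submodule K (A K)) := Pl.smul_mem _ (mem_Pl.mpr ⟨d, β, γ, rfl⟩)
  have hval : (p.1 * el P hP) (d • (1 : A K) + (α • x K 0 + (β • x K 1 + γ • x K 2))) =
      α • (p.1 (x K 0) + p.1 (P + w)) := by
    have h1 : d • (1 : A K) + (α • x K 0 + (β • x K 1 + γ • x K 2)) = α • (x K 0 + w) := by
      rw [hw, smul_add, smul_inv_smul₀ hα]; abel
    rw [h1, map_smul, gp_mul_apply, map_add, el_0, el_B _ _ (Pl_le_B hwPl), add_assoc, map_add]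
  rw [hval, dg_smul hα] at hvd
  have hE : E0 l P hP = E0 l (P + w) (B.add_mem hP (Pl_le_B hwPl)) *
      dia (el (-w) (Pl_le_B (Pl.neg_mem hwPl))) := by
    rw [← E0_Pl l (Pl.neg_mem hwPl), E0_mul]
    exact E0_congr l (by abel) _ _
  refine ⟨el (-w) (Pl_le_B (Pl.neg_mem hwPl)) * c, mul_mem (el_aff (Pl.neg_mem hwPl)) hc, P + w,
    B.add_mem hP (Pl_le_B hwPl), ?_, ?_⟩
  · rw [hq, hE, dia_mul, ← mul_assoc, ← mul_assoc]
  · rw [hlv, hvd]

/-- the polynomial of a simple reduction -/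
noncomputable def rr (c : K) (s : ℕ) : K[X] := - (C c * X ^ s)

/-- the reduction `(P1)` along a plane of divisible type -/
theorem lemP1 (l : K) {p : Gp K × Gp K} (hs : Std p.1) {c : K} {s : ℕ}
    (hl : lf (p.1 (x K 1)) = c • lf (p.1 (x K 2)) ^ s)
    (hd : dg (p.1 (x K 1)) = s * dg (p.1 (x K 2))) {D : ℕ} (hD : lv p.1 = D + 1) :
    lv (p * dia (e1 0 (rr c s))).1 ≤ D ∧
      ∀ q, AdjP l p q (im p.1 Pl) → lv q.1 ≤ D + 1 →
        ∃ q', Adj l q q' ∧ lv q'.1 ≤ D ∧ Adj l (p * dia (e1 0 (rr c s))) q' := by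
  generalize hr : rr c s = r
  unfold rr at hr
  have hq2 : q2 r = - (c • x K 2 ^ s) := by
    rw [q2, ← hr, map_neg, map_mul, aeval_C, map_pow, aeval_X, ← Algebra.smul_def]
  have hc : c ≠ 0 := by
    rintro rfl
    rw [zero_smul, lf_eq_zero] at hl
    exact dg_gx p.1 1 (by rw [hl, dg_zero])
  have hlt : dg (p.1 (x K 1) + p.1 (q2 r)) < dg (p.1 (x K 1)) := by
    rw [hq2, map_neg, map_smul, map_pow, ← sub_eq_add_neg]
    apply dg_sub_lt
    · rw [dg_smul hc, dg_pow, hd]
    · rw [lf_smul, lf_pow, hl]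
    · exact dg_gx p.1 1
  have hsum := hs
  unfold Std at hsum
  refine ⟨?_, ?_⟩
  · have h1 := lv_le (p.1 * e1 0 r)
    simp only [gp_mul_apply, e1_0, e1_1, e1_2, zero_smul, add_zero, map_add] at h1
    show lv (p.1 * e1 0 r) ≤ D
    omega
  · intro q hq hle
    obtain ⟨c', hc', P, hP, rfl, hlv⟩ := hq.rep
    refine ⟨p * E0 l P hP * dia (e1 0 r), ?_, ?_, ?_⟩
    · have h1 := adjP_E1 l (p * E0 l P hP) 0 r
      rw [E1_dia] at h1
      have h2 := h1.symm.mul_right hc'
      exact h2.symm.adj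
    · have h1 := lv_le (p.1 * el P hP * e1 0 r)
      have e0' : (p.1 * el P hP * e1 0 r) (x K 0) = p.1 (x K 0) + p.1 P := by
        rw [gp_mul_apply, e1_0, gp_mul_apply, el_0, map_add]
      have e1' : (p.1 * el P hP * e1 0 r) (x K 1) = p.1 (x K 1) + p.1 (q2 r) := by
        rw [gp_mul_apply, e1_1, zero_smul, add_zero, gp_mul_apply,
          el_B _ _ (B.add_mem x1_mem (q2_mem r)), map_add]
      have e2' : (p.1 * el P hP * e1 0 r) (x K 2) = p.1 (x K 2) := by
        rw [gp_mul_apply, e1_2, gp_mul_apply, el_2]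
      rw [e0', e1', e2'] at h1
      show lv (p.1 * el P hP * e1 0 r) ≤ D
      rw [hs.cf.2.2] at hlv
      omega
    · rw [mul_assoc, r2, ← mul_assoc]
      exact (adjP_std l _ _ _).adj

end

theorem std01 (F : PF K) {g : Gp K} (hs : Std g) (hd : dg (g (x K 0)) = dg (g (x K 1))) :
    ¬ Com (g (x K 0)) (g (x K 1)) := by
  intro hc
  obtain ⟨c, h⟩ := F.c0 _ _ (dg_gx g 1) hc (by rw [hd])
  rw [hd, Nat.div_self (Nat.pos_of_ne_zero (dg_gx g 1)), pow_one] at h
  have hc0 : c ≠ 0 := by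
    rintro rfl
    rw [zero_smul, lf_eq_zero] at h
    exact dg_gx g 0 (by rw [h, dg_zero])
  have h1 := hs.le0 (u := -(c • x K 1)) (Pl.neg_mem (smul_x1_Pl c))
  rw [map_neg, map_smul, ← sub_eq_add_neg] at h1
  have h2 := dg_sub_lt (a := g (x K 0)) (b := c • g (x K 1)) (by rw [dg_smul hc0, hd])
    (by rw [lf_smul, h]) (dg_gx g 0)
  omega

theorem std02 (F : PF K) {g : Gp K} (hs : Std g) (hd : dg (g (x K 0)) = dg (g (x K 2))) :
    ¬ Com (g (x K 0)) (g (x K 2)) := by
  intro hc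
  obtain ⟨c, h⟩ := F.c0 _ _ (dg_gx g 2) hc (by rw [hd])
  rw [hd, Nat.div_self (Nat.pos_of_ne_zero (dg_gx g 2)), pow_one] at h
  have hc0 : c ≠ 0 := by
    rintro rfl
    rw [zero_smul, lf_eq_zero] at h
    exact dg_gx g 0 (by rw [h, dg_zero])
  have h1 := hs.le0 (u := -(c • x K 2)) (Pl.neg_mem (smul_x2_Pl c))
  rw [map_neg, map_smul, ← sub_eq_add_neg] at h1
  have h2 := dg_sub_lt (a := g (x K 0)) (b := c • g (x K 2)) (by rw [dg_smul hc0, hd])
    (by rw [lf_smul, h]) (dg_gx g 0)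
  omega

theorem std12 (F : PF K) {g : Gp K} (hs : Std g) (hd : dg (g (x K 1)) = dg (g (x K 2))) :
    ¬ Com (g (x K 1)) (g (x K 2)) := by
  intro hc
  obtain ⟨c, h⟩ := F.c0 _ _ (dg_gx g 2) hc (by rw [hd])
  rw [hd, Nat.div_self (Nat.pos_of_ne_zero (dg_gx g 2)), pow_one] at h
  have hc0 : c ≠ 0 := by
    rintro rfl
    rw [zero_smul, lf_eq_zero] at h
    exact dg_gx g 1 (by rw [h, dg_zero])
  have h1 := hs.le1 (u := -(c • x K 2)) (Ln.neg_mem (Ln.smul_mem c x2_mem_Ln))
  rw [map_neg, map_smul, ← sub_eq_add_neg] at h1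
  have h2 := dg_sub_lt (a := g (x K 1)) (b := c • g (x K 2)) (by rw [dg_smul hc0, hd])
    (by rw [lf_smul, h]) (dg_gx g 1)
  omega

/-- the condition on the frame when the two largest degrees coincide -/
def Star (g : Gp K) : Prop :=
  dg (g (x K 0)) = dg (g (x K 1)) → ∀ a : K, ¬ Com (g (x K 0 + a • x K 1)) (g (x K 2))

/-- Frames adapted and with the condition `Star` exist. -/
theorem exists_star (F : PF K) (g : Gp K) :
    ∃ b ∈ (AffG : Subgroup (Gp K)), Adp (g * b) ∧ Star (g * b) := by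
  obtain ⟨b, hb, hadp⟩ := exists_adp g
  by_cases hst : Star (g * b)
  · exact ⟨b, hb, hadp, hst⟩
  · unfold Star at hst
    push Not at hst
    obtain ⟨hd, a, ha⟩ := hst
    generalize hg' : g * b = g' at *
    -- new frame (f2, f1 + a f2, f3)
    refine ⟨b * ka a, mul_mem hb (ka_aff a), ?_, ?_⟩
    · obtain ⟨h1, h2⟩ := hadp.ka a
      rw [← mul_assoc, hg']
      refine ⟨h1, ?_, ?_⟩
      · rw [gp_mul_apply, gp_mul_apply, ka_1, ka_0, h2, hd]
      · rw [gp_mul_apply, gp_mul_apply, ka_1, ka_2, h2]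
        exact hadp.le32.trans hadp.le21
    · intro _ c hc
      rw [← mul_assoc, hg'] at hc
      rw [gp_mul_apply, gp_mul_apply, map_add, map_smul, ka_0, ka_1, ka_2] at hc
      -- frame (f2 + c (f1 + a f2), f1 + a f2, f3)
      obtain ⟨h1, h2⟩ := hadp.ka a
      have hcom : Com (g' (x K 1 + c • (x K 0 + a • x K 1))) (g' (x K 0 + a • x K 1)) :=
        F.ct _ _ _ (dg_gx g' 2) hc ha.symm
      have h3 : Std (g' * ka a * el (c • x K 1) (Pl_le_B (smul_x1_Pl c))) ∧
          dg ((g' * ka a * el (c • x K 1) (Pl_le_B (smul_x1_Pl c))) (x K 0)) =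
            dg (g' (x K 0)) := by
        have h4 := lv_le (g' * ka a * el (c • x K 1) (Pl_le_B (smul_x1_Pl c)))
        have h5 := h1
        unfold Std at h5
        rw [lv_mul_aff _ (el_aff (smul_x1_Pl c))] at h4
        simp only [gp_mul_apply, el_0, el_1, el_2, map_add, map_smul, ka_0, ka_1, ka_2] at h4 h5
        have h6 : dg (g' (x K 0) + a • g' (x K 1)) = dg (g' (x K 0)) := by
          rw [map_add, map_smul] at h2; exact h2
        have h7 : dg (g' (x K 1) + c • (g' (x K 0) + a • g' (x K 1))) ≤ dg (g' (x K 0)) := by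
          refine (dg_add_le _ _).trans (max_le hadp.le21 ((dg_smul_le _ _).trans ?_))
          rw [h6]
        have h8 : dg (g' (x K 1) + c • (g' (x K 0) + a • g' (x K 1))) = dg (g' (x K 0)) := by
          simp only [smul_add] at h4 h7 ⊢
          omega
        constructor
        · rw [Std, lv_mul_aff _ (el_aff (smul_x1_Pl c))]
          simp only [gp_mul_apply, el_0, el_1, el_2, map_add, map_smul, ka_0, ka_1, ka_2]
          simp only [smul_add] at h8 ⊢
          omega
        · simp only [gp_mul_apply, el_0, map_add, map_smul, ka_0, ka_1]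
          simp only [smul_add] at h8 ⊢
          exact h8
      apply std01 F h3.1
      · rw [h3.2]
        simp only [gp_mul_apply, el_1, ka_1]
        rw [h2]
      · have e0 : (g' * ka a * el (c • x K 1) (Pl_le_B (smul_x1_Pl c))) (x K 0) =
            g' (x K 1 + c • (x K 0 + a • x K 1)) := by
          simp only [gp_mul_apply, el_0, map_add, map_smul, ka_0, ka_1]
        have e1 : (g' * ka a * el (c • x K 1) (Pl_le_B (smul_x1_Pl c))) (x K 1) =
            g' (x K 0 + a • x K 1) := by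
          simp only [gp_mul_apply, el_1, ka_1]
        rw [e0, e1]
        exact hcom

end Pool.Agent.H66.TA
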