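import Pool.Agent.H66.TA.Cases1

/-!
Steps along the planes `W_a` and `W_ab`.
-/

namespace Pool.Agent.H66.TA

open FreeAlgebra Polynomial Module

variable {K : Type*} [Field K]

/-- `R` is closed under steps inside level `D`. -/
def Cl (l : K) (D : ℕ) (R : Gp K × Gp K → Prop) : Prop :=
  (∀ q, R q → lv q.1 ≤ D) ∧ ∀ q q', R q → Adj l q q' → lv q'.1 ≤ D → R q'

/-- `p` has a neighbour in `R`. -/
def RN (l : K) (R : Gp K × Gp K → Prop) (p : Gp K × Gp K) : Prop := ∃ q, Adj l p q ∧ R q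

/-- `(S2)` for all singular pairs of the vertex -/
def Good (g : Gp K) : Prop :=
  ∀ b ∈ (AffG : Subgroup (Gp K)), Com (g (b (x K 1))) (g (b (x K 2))) →
    dg (g (b (x K 2))) < dg (g (b (x K 1))) → ¬ dg (g (b (x K 2))) ∣ dg (g (b (x K 1))) →
    S2 (g (b (x K 1))) (g (b (x K 2)))

theorem Good.nt {g : Gp K} (h : Good g) {b : Gp K} (hb : b ∈ (AffG : Subgroup (Gp K)))
    (hnt : NT (g (b (x K 1))) (g (b (x K 2))))
    (hle : dg (g (b (x K 2))) ≤ dg (g (b (x K 1))))
    (hc : Com (g (b (x K 1))) (g (b (x K 2)))) : S2 (g (b (x K 1))) (g (b (x K 2))) := by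
  have hnd : ¬ dg (g (b (x K 2))) ∣ dg (g (b (x K 1))) := fun hd => hnt ⟨hc, hd⟩
  refine h b hb hc ?_ hnd
  apply lt_of_le_of_ne hle
  intro e
  exact hnd (by rw [e])

theorem Good.aff {g : Gp K} (h : Good g) {b : Gp K} (hb : b ∈ (AffG : Subgroup (Gp K))) :
    Good (g * b) := fun b' hb' => h (b * b') (mul_mem hb hb')

theorem hc_add_com {u b : A K} (h : Com u b) (n : ℕ) (hn : dg u ≤ n) :
    Commute (hc n u) (lf b) := by
  rcases lt_or_eq_of_le hn with h1 | h1
  · rw [hc_eq_zero_of_lt h1]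
    exact Commute.zero_left _
  · subst h1
    exact h

theorem com_add {u v b : A K} (hu : Com u b) (hv : Com v b) (h1 : dg u ≤ dg (u + v))
    (h2 : dg v ≤ dg (u + v)) : Com (u + v) b := by
  rw [Com, lf_eq_hc, map_add]
  exact (hc_add_com hu _ h1).add_left (hc_add_com hv _ h2)

theorem NT.com {a b : A K} (h : NT a b) (hb : dg b ≠ 0) (hc : Com a b) (α : K) (q : K[X]) :
    Com (α • a + aeval b q) b := by
  obtain ⟨h1, h2, -, -⟩ := h.sum hb α q
  exact com_add (hc.smul_left α) (com_aeval hb q) h1 h2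

variable [CharZero K]

omit [CharZero K] in
theorem dg_of_add_le {u v : A K} {n : ℕ} (h : dg (u + v) ≤ n) (hu : dg u ≤ n) : dg v ≤ n := by
  have : v = (u + v) - u := by abel
  rw [this]
  exact (dg_sub_le _ _).trans (max_le h hu)

/-- no proper steps along `W_ab` if it is not of divisible type -/
theorem wab_triv (F : PF K) {l : K} {p q : Gp K × Gp K} (hA : Adp p.1) (hG : Good p.1) {a c : K}
    (hnt : NT (p.1 (x K 0 + a • x K 2)) (p.1 (x K 1 + c • x K 2)))
    (h : AdjP l p q (im (p.1 * kab a c) Pl)) (hle : lv q.1 ≤ lv p.1) :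
    ∃ c' ∈ (AffG : Subgroup (Gp K)), q = p * dia c' := by
  obtain ⟨hS, hd1, hd2⟩ := hA.kab a c
  have h' : AdjP l (p * dia (kab a c)) q (im (p * dia (kab a c)).1 Pl) :=
    h.mul_left (kab_aff a c)
  obtain ⟨c', hc', P, hP, hq, hlv⟩ := h'.rep
  have e0 : (p * dia (kab a c)).1 (x K 0) = p.1 (x K 2) := by
    show (p.1 * kab a c) (x K 0) = _
    rw [gp_mul_apply, kab_0]
  have e1 : (p * dia (kab a c)).1 (x K 1) = p.1 (x K 0 + a • x K 2) := by
    show (p.1 * kab a c) (x K 1) = _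
    rw [gp_mul_apply, kab_1]
  have e2 : (p * dia (kab a c)).1 (x K 2) = p.1 (x K 1 + c • x K 2) := by
    show (p.1 * kab a c) (x K 2) = _
    rw [gp_mul_apply, kab_2]
  have hS' : Std (p * dia (kab a c)).1 := hS
  have hsum := hS'
  unfold Std at hsum
  have hlvp : lv (p * dia (kab a c)).1 = lv p.1 := lv_mul_aff _ (kab_aff a c)
  rw [hS'.cf.2.2] at hlv
  rw [hlvp] at hsum
  have hA2 := hA.le21
  have hA3 := hA.le32
  generalize hg : (p * dia (kab a c)).1 = g at *
  rw [e0, e1, e2] at hsum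
  rw [e0, e1, e2] at hlv
  have hgP : dg (g P) ≤ dg (p.1 (x K 2)) := by
    apply dg_of_add_le (u := p.1 (x K 2)) _ le_rfl
    omega
  have hS2 : Com (g (x K 1)) (g (x K 2)) → S2 (g (x K 1)) (g (x K 2)) := by
    intro hc
    have := hG.nt (kab_aff a c) (by rwa [kab_1, kab_2]) (by
      rw [kab_1, kab_2, hd1, hd2]; exact hA2)
    rw [kab_1, kab_2, ← e1, ← e2] at this
    exact this hc
  have hlt : dg (g P) < dg (br (g (x K 1)) (g (x K 2))) := by
    by_cases hc : Com (g (x K 1)) (g (x K 2))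
    · have h1 := (hS2 hc).1
      have h2 : dg (g (x K 2)) = dg (p.1 (x K 1)) := by rw [e2, hd2]
      omega
    · rw [(dg_br hc).1, e1, e2, hd1, hd2]
      have := dg_gx p.1 2
      omega
  obtain ⟨α, r, hPr⟩ := F.p12 g P hP (by rw [e1, e2]; exact hnt)
    (by rw [e1, e2, hd1, hd2]; exact hA2) hS2 hlt
  have hPPl : P ∈ (Pl : Submodule K (A K)) := by
    have hval : g P = α • g (x K 1) + aeval (g (x K 2)) r := by
      rw [hPr, map_add, map_smul, map_q2]
    have h3 := (NT.sum (a := g (x K 1)) (b := g (x K 2)) (by rw [e1, e2]; exact hnt)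
      (dg_gx g 2) α r).2.1
    rw [← hval, (dg_aeval (dg_gx g 2) r).1, e2, hd2] at h3
    have hn2 : dg (p.1 (x K 1)) ≠ 0 := dg_gx p.1 1
    have hdeg : r.natDegree ≤ 1 := by
      by_contra hcon
      have h4 : 2 ≤ r.natDegree := by omega
      have h5 : 2 * dg (p.1 (x K 1)) ≤ r.natDegree * dg (p.1 (x K 1)) :=
        Nat.mul_le_mul_right _ h4
      omega
    obtain ⟨u, v, huv⟩ := exists_eq_X_add_C_of_natDegree_le_one hdeg
    rw [hPr, huv, q2]
    simp only [map_add, map_mul, aeval_C, aeval_X]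
    rw [← Algebra.smul_def, Algebra.algebraMap_eq_smul_one]
    exact Pl.add_mem (smul_x1_Pl α) (Pl.add_mem (smul_x2_Pl u) (Pl.smul_mem v one_mem_Pl))
  refine ⟨kab a c * el P (Pl_le_B hPPl) * c',
    mul_mem (mul_mem (kab_aff a c) (el_aff hPPl)) hc', ?_⟩
  rw [hq, dia_mul, dia_mul, ← E0_Pl l hPPl, ← mul_assoc, ← mul_assoc]

/-- representation of the non-increasing steps along `W_a` -/
theorem wa_rep (F : PF K) {l : K} {p q : Gp K × Gp K} (hA : Adp p.1) (hG : Good p.1) {a : K}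
    (hnt : NT (p.1 (x K 0 + a • x K 1)) (p.1 (x K 2)))
    (h : AdjP l p q (im (p.1 * ka a) Pl)) (hle : lv q.1 ≤ lv p.1) :
    ∃ c ∈ (AffG : Subgroup (Gp K)), ∃ (α β : K) (r : K[X]) (hP : α • x K 1 + qb β r ∈
      (B : Subalgebra K (A K))), q = p * dia (ka a) * E0 l (α • x K 1 + qb β r) hP * dia c ∧
      lv q.1 + dg (p.1 (x K 1)) = lv p.1 + dg (p.1 (x K 1) +
        (α • p.1 (x K 0 + a • x K 1) + aeval (p.1 (x K 2)) r +
          β • br (p.1 (x K 0 + a • x K 1)) (p.1 (x K 2)))) ∧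
      dg (α • p.1 (x K 0 + a • x K 1)) ≤ dg (p.1 (x K 1)) ∧
      dg (aeval (p.1 (x K 2)) r) ≤ dg (p.1 (x K 1)) ∧
      dg (β • br (p.1 (x K 0 + a • x K 1)) (p.1 (x K 2))) ≤ dg (p.1 (x K 1)) ∧
      (β ≠ 0 → Com (p.1 (x K 0 + a • x K 1)) (p.1 (x K 2))) := by
  obtain ⟨hS, hd1⟩ := hA.ka a
  have h' : AdjP l (p * dia (ka a)) q (im (p * dia (ka a)).1 Pl) := h.mul_left (ka_aff a)
  obtain ⟨c', hc', P, hP, hq, hlv⟩ := h'.rep
  have e0 : (p * dia (ka a)).1 (x K 0) = p.1 (x K 1) := by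
    show (p.1 * ka a) (x K 0) = _
    rw [gp_mul_apply, ka_0]
  have e1 : (p * dia (ka a)).1 (x K 1) = p.1 (x K 0 + a • x K 1) := by
    show (p.1 * ka a) (x K 1) = _
    rw [gp_mul_apply, ka_1]
  have e2 : (p * dia (ka a)).1 (x K 2) = p.1 (x K 2) := by
    show (p.1 * ka a) (x K 2) = _
    rw [gp_mul_apply, ka_2]
  have hS' : Std (p * dia (ka a)).1 := hS
  have hsum := hS'
  unfold Std at hsum
  have hlvp : lv (p * dia (ka a)).1 = lv p.1 := lv_mul_aff _ (ka_aff a)
  rw [hS'.cf.2.2] at hlv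
  rw [hlvp] at hsum
  have hA2 := hA.le21
  have hA3 := hA.le32
  have hn3 := dg_gx p.1 2
  generalize hg : (p * dia (ka a)).1 = g at *
  rw [e0, e1, e2] at hsum
  rw [e0, e1, e2] at hlv
  have hgP : dg (g P) ≤ dg (p.1 (x K 1)) := by
    apply dg_of_add_le (u := p.1 (x K 1)) _ le_rfl
    omega
  have hdT : ∀ T : A K, g P = T →
      lv q.1 + dg (p.1 (x K 1)) = lv p.1 + dg (p.1 (x K 1) + T) := by
    intro T hT
    rw [hT] at hlv
    omega
  by_cases hc : Com (p.1 (x K 0 + a • x K 1)) (p.1 (x K 2))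
  · have hnd : ¬ dg (p.1 (x K 2)) ∣ dg (p.1 (x K 0 + a • x K 1)) := fun hd => hnt ⟨hc, hd⟩
    have hlt : dg (p.1 (x K 2)) < dg (p.1 (x K 0 + a • x K 1)) := by
      apply lt_of_le_of_ne (by omega)
      intro e
      exact hnd (by rw [e])
    have hS2 : S2 (g (x K 1)) (g (x K 2)) := by
      have := hG.nt (ka_aff a) (by rwa [ka_1, ka_2]) (by rw [ka_1, ka_2]; exact hlt.le)
      rw [ka_1, ka_2, ← e1, ← e2] at this
      exact this (by rw [e1, e2]; exact hc)
    obtain ⟨α, β, r, hPr⟩ := F.p2 g P hP (by rw [e1, e2]; exact hc) (by rw [e1, e2]; exact hlt)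
      (by rw [e1, e2]; exact hnd) hS2 (by rw [e1]; omega)
    have hval : g P = α • p.1 (x K 0 + a • x K 1) + aeval (p.1 (x K 2)) r +
          β • br (p.1 (x K 0 + a • x K 1)) (p.1 (x K 2)) := by
      rw [hPr, map_add, map_smul, qb, map_add, map_smul, map_q2, map_br, e1, e2, add_assoc]
    subst hPr
    have hcs := hnt.com hn3 hc α r
    have hns := hnt.sum hn3 α r
    refine ⟨c', hc', α, β, r, hP, hq, hdT _ hval, ?_, ?_, ?_, fun _ => hc⟩
    all_goals
      by_cases hβ : β = 0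
      · subst hβ
        rw [zero_smul, add_zero] at hval
        rw [hval] at hgP
        first
          | exact hns.1.trans hgP
          | exact hns.2.1.trans hgP
          | (rw [zero_smul, dg_zero]; exact Nat.zero_le _)
      · have hD : ¬ Com (β • br (p.1 (x K 0 + a • x K 1)) (p.1 (x K 2))) (p.1 (x K 2)) := by
          rw [com_smul_iff hβ]
          apply F.tc _ _ _ hn3
          rw [← e1, ← e2]
          exact br_gx_ne g (by decide)
        have hm := mix_sum hD hcs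
        rw [hval, add_comm (_ + _) (β • _)] at hgP
        first
          | exact hns.1.trans (hm.2.1.trans hgP)
          | exact hns.2.1.trans (hm.2.1.trans hgP)
          | exact hm.1.trans hgP
  · obtain ⟨α, r, hPr⟩ := F.p1 g P hP (by rw [e1, e2]; exact hc)
      (by rw [e1, e2, hd1]; exact hA3.trans hA2) (by rw [e1, e2]; omega)
    have hval : g P = α • p.1 (x K 0 + a • x K 1) + aeval (p.1 (x K 2)) r := by
      rw [hPr, map_add, map_smul, map_q2, e1, e2]
    have hqb : qb (0 : K) r = q2 r := by rw [qb, zero_smul, add_zero]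
    rw [← hqb] at hPr
    subst hPr
    have hns := hnt.sum hn3 α r
    refine ⟨c', hc', α, 0, r, hP, hq, ?_, ?_, ?_, ?_, fun h => absurd rfl h⟩
    · rw [zero_smul, add_zero]
      exact hdT _ hval
    · rw [hval] at hgP
      exact hns.1.trans hgP
    · rw [hval] at hgP
      exact hns.2.1.trans hgP
    · rw [zero_smul, dg_zero]; exact Nat.zero_le _

end Pool.Agent.H66.TA
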