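import Pool.Agent.H66.TA.Cases2

/-!
Lower and neutral steps along `W_a`; the case where `W` is of divisible type.
-/

namespace Pool.Agent.H66.TA

open FreeAlgebra Polynomial Module

variable {K : Type*} [Field K] [CharZero K]

/-- lower steps along `W_a` -/
theorem wa_low (F : PF K) {l : K} {p q : Gp K × Gp K} (hA : Adp p.1) (hSt : Star p.1)
    (hG : Good p.1) {a : K} (hnt : NT (p.1 (x K 0 + a • x K 1)) (p.1 (x K 2)))
    (hnt2 : NT (p.1 (x K 1)) (p.1 (x K 2)))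
    (h : AdjP l p q (im (p.1 * ka a) Pl)) (hlt : lv q.1 < lv p.1) :
    Com (p.1 (x K 0 + a • x K 1)) (p.1 (x K 2)) ∧ ¬ Com (p.1 (x K 1)) (p.1 (x K 2)) ∧
      dg (p.1 (x K 1)) < dg (p.1 (x K 0)) ∧
      dg (br (p.1 (x K 0 + a • x K 1)) (p.1 (x K 2))) ≤ dg (p.1 (x K 1)) ∧
      ∃ c ∈ (AffG : Subgroup (Gp K)), ∃ (β : K) (r : K[X]),
        q = p * dia (ka a) * E0 l (qb β r) (qb_mem β r) * dia c ∧
        dg (p.1 (x K 1) + (aeval (p.1 (x K 2)) r +
          β • br (p.1 (x K 0 + a • x K 1)) (p.1 (x K 2)))) < dg (p.1 (x K 1)) ∧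
        lv q.1 + dg (p.1 (x K 1)) = lv p.1 + dg (p.1 (x K 1) + (aeval (p.1 (x K 2)) r +
          β • br (p.1 (x K 0 + a • x K 1)) (p.1 (x K 2)))) := by
  obtain ⟨c, hc, α, β, r, hP, hq, hlv, hd1, hd2, hd3, hβ⟩ := wa_rep F hA hG hnt h hlt.le
  have hn3 := dg_gx p.1 2
  have hdf1 := (hA.ka a).2
  have hA2 := hA.le21
  have hlow : dg (p.1 (x K 1) + (α • p.1 (x K 0 + a • x K 1) + aeval (p.1 (x K 2)) r +
      β • br (p.1 (x K 0 + a • x K 1)) (p.1 (x K 2)))) < dg (p.1 (x K 1)) := by omega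
  by_cases hcom : Com (p.1 (x K 0 + a • x K 1)) (p.1 (x K 2))
  · have hlt1 : dg (p.1 (x K 1)) < dg (p.1 (x K 0)) := by
      apply lt_of_le_of_ne hA2
      intro e
      exact hSt e.symm a hcom
    have hα : α = 0 := by
      by_contra hα
      rw [dg_smul hα, hdf1] at hd1
      omega
    subst hα
    rw [zero_smul, zero_add] at hlow
    have hβ0 : β ≠ 0 := by
      rintro rfl
      rw [zero_smul, add_zero] at hlow
      have := (hnt2.sum hn3 1 r).1
      rw [one_smul] at this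
      omega
    have hD : ¬ Com (β • br (p.1 (x K 0 + a • x K 1)) (p.1 (x K 2))) (p.1 (x K 2)) := by
      rw [com_smul_iff hβ0]
      apply F.tc _ _ _ hn3
      have := br_gx_ne (p.1 * ka a) (i := 1) (j := 2) (by decide)
      rwa [gp_mul_apply, gp_mul_apply, ka_1, ka_2] at this
    have hncom : ¬ Com (p.1 (x K 1)) (p.1 (x K 2)) := by
      intro hc2
      have h1 := hnt2.com hn3 hc2 1 r
      have h2 := (hnt2.sum hn3 1 r).1
      rw [one_smul] at h1 h2
      have h3 := (mix_sum hD h1).2.1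
      have h4 : β • br (p.1 (x K 0 + a • x K 1)) (p.1 (x K 2)) +
          (p.1 (x K 1) + aeval (p.1 (x K 2)) r) = p.1 (x K 1) + (aeval (p.1 (x K 2)) r +
          β • br (p.1 (x K 0 + a • x K 1)) (p.1 (x K 2))) := by abel
      rw [h4] at h3
      omega
    refine ⟨hcom, hncom, hlt1, ?_, c, hc, β, r, ?_, hlow, ?_⟩
    · rwa [dg_smul hβ0] at hd3
    · rw [hq]
      congr 2
      exact E0_congr l (by rw [zero_smul, zero_add]) _ _
    · rw [hlv, zero_smul, zero_add]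
  · exfalso
    have hβ0 : β = 0 := by
      by_contra hβ0
      exact hcom (hβ hβ0)
    subst hβ0
    rw [zero_smul, add_zero] at hlow
    by_cases hα : α = 0
    · subst hα
      rw [zero_smul, zero_add] at hlow
      have := (hnt2.sum hn3 1 r).1
      rw [one_smul] at this
      omega
    · rw [dg_smul hα, hdf1] at hd1
      have hd12 : dg (p.1 (x K 0)) = dg (p.1 (x K 1)) := by omega
      -- u = f2 + α f1', proportional to f1 + a' f2
      set a' : K := α⁻¹ * (1 + α * a) with ha'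
      have hu : p.1 (x K 1) + α • p.1 (x K 0 + a • x K 1) = α • p.1 (x K 0 + a' • x K 1) := by
        have e : α * a' = 1 + α * a := by rw [ha', mul_inv_cancel_left₀ hα]
        rw [map_add, map_add, map_smul, map_smul, smul_add, smul_add, smul_smul, smul_smul, e,
          add_smul, one_smul]
        abel
      have hnc : ¬ Com (α • p.1 (x K 0 + a' • x K 1)) (p.1 (x K 2)) := by
        rw [com_smul_iff hα]
        exact hSt hd12 a'
      have h1 := (mix_sum hnc (com_aeval hn3 r)).1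
      rw [← hu, add_assoc, hu, dg_smul hα, (hA.ka a').2] at h1
      omega

omit [CharZero K] in
/-- `x0 ↦ x0 + a x1` -/
noncomputable def ela (a : K) : Gp K := el (a • x K 1) (Pl_le_B (smul_x1_Pl a))

omit [CharZero K] in
@[simp] theorem ela_0 (a : K) : ela a (x K 0) = x K 0 + a • x K 1 := el_0 _ _
omit [CharZero K] in
@[simp] theorem ela_1 (a : K) : ela a (x K 1) = x K 1 := el_1 _ _
omit [CharZero K] in
@[simp] theorem ela_2 (a : K) : ela a (x K 2) = x K 2 := el_2 _ _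
omit [CharZero K] in
theorem ela_aff (a : K) : ela a ∈ (AffG : Subgroup (Gp K)) := el_aff (smul_x1_Pl a)

theorem E0_ela (l a : K) : E0 l (a • x K 1) (Pl_le_B (smul_x1_Pl a)) = dia (ela a) :=
  E0_Pl l (smul_x1_Pl a)

/-- neutral steps along `W_a` -/
theorem wa_neu (F : PF K) {l : K} {p q : Gp K × Gp K} (hA : Adp p.1)
    (hG : Good p.1) {a : K} (hnt : NT (p.1 (x K 0 + a • x K 1)) (p.1 (x K 2)))
    (h : AdjP l p q (im (p.1 * ka a) Pl)) (hle : lv q.1 ≤ lv p.1) :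
    ∃ c ∈ (AffG : Subgroup (Gp K)), ∃ (β : K) (r : K[X]),
      q = p * dia (ka a) * E0 l (qb β r) (qb_mem β r) * dia c ∧
      dg (aeval (p.1 (x K 2)) r) ≤ dg (p.1 (x K 1)) ∧
      (β ≠ 0 → Com (p.1 (x K 0 + a • x K 1)) (p.1 (x K 2)) ∧
        dg (br (p.1 (x K 0 + a • x K 1)) (p.1 (x K 2))) ≤ dg (p.1 (x K 1))) := by
  obtain ⟨c, hc, α, β, r, hP, hq, hlv, hd1, hd2, hd3, hβ⟩ := wa_rep F hA hG hnt h hle
  refine ⟨ela α * c, mul_mem (ela_aff α) hc, β, r,
    ?_, hd2, fun h0 => ⟨hβ h0, by rwa [dg_smul h0] at hd3⟩⟩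
  rw [hq, dia_mul, ← E0_ela l, ← mul_assoc, mul_assoc _ (E0 l (qb β r) _), E0_mul]
  congr 2
  exact E0_congr l (add_comm _ _) _ _

omit [CharZero K] in
/-- the family of vertices obtained by the commuting moves -/
noncomputable def fam (l : K) (p : Gp K × Gp K) (β : K) (q r : K[X]) : Gp K × Gp K :=
  p * E1 l β q * dia (e0 r)

omit [CharZero K] in
theorem ka_sw (a : K) : ka a * sw = ela a := by
  rw [ka, mul_assoc, sw_sw, mul_one, ela]

omit [CharZero K] in
theorem el_e1 (a : K) (q : K[X]) :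
    ela a * e1 0 q = e1 0 q * e0 (-(a • q)) * ela a := by
  apply aut_ext3
  intro i
  rw [gp_mul_apply, gp_mul_apply, gp_mul_apply]
  fin_cases i
  · show ela a (e1 0 q (x K 0)) = e1 0 q (e0 _ (ela a (x K 0)))
    simp only [e1_0, ela_0, map_add, e0_0, map_smul, e0_1, e1_1, zero_smul,
      add_zero, map_q2_of_fix (e1_2 (0 : K) q), q2_neg, q2_smul, smul_add, map_neg]
    abel
  · show ela a (e1 0 q (x K 1)) = e1 0 q (e0 _ (ela a (x K 1)))
    simp only [e1_1, ela_1, e0_1, zero_smul, add_zero, map_add, map_q2_of_fix (ela_2 a)]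
  · show ela a (e1 0 q (x K 2)) = e1 0 q (e0 _ (ela a (x K 2)))
    simp only [e1_2, ela_2, e0_2]

/-- a `q`-step along `W_a` in the family -/
theorem wa_fam (l : K) (p : Gp K × Gp K) (a : K) (r : K[X]) :
    p * dia (ka a) * E0 l (qb 0 r) (qb_mem 0 r) =
      fam l p 0 r (-(a • r)) * dia (ela a * sw) := by
  have h1 : E0 l (qb 0 r) (qb_mem 0 r) = dia sw * E1 l 0 r * dia sw := by
    rw [E1_eq]
    have : dia sw * (dia sw * E0 l (qb 0 r) (qb_mem 0 r) * dia sw) * dia sw =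
        (dia sw * dia sw) * E0 l (qb 0 r) (qb_mem 0 r) * (dia sw * dia sw) := by
      simp only [mul_assoc]
    rw [this, ← dia_mul, sw_sw, dia_one, one_mul, mul_one]
  rw [h1, fam, E1_dia]
  simp only [← mul_assoc, mul_assoc p, ← dia_mul]
  congr 2
  rw [ka_sw, el_e1]

omit [CharZero K] in
theorem fam_comm (l : K) (p : Gp K × Gp K) (β : K) (q r : K[X]) :
    fam l p β q r = p * dia (e0 r) * E1 l β q := by
  rw [fam, mul_assoc, mul_assoc, dia_e0_E1]

/-- change of `β, q` in the family -/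
theorem fam_adj1 (l : K) (p : Gp K × Gp K) (β β' : K) (q q' r : K[X]) :
    Adj l (fam l p β q r) (fam l p β' q' r) := by
  rw [fam_comm, fam_comm]
  exact ((adjP_E1 l (p * dia (e0 r)) β q).r1 (adjP_E1 l (p * dia (e0 r)) β' q')).adj

/-- change of `r` in the family -/
theorem fam_adj0 (l : K) (p : Gp K × Gp K) (β : K) (q r r' : K[X]) :
    Adj l (fam l p β q r) (fam l p β q r') :=
  ((adjP_e0 l (p * E1 l β q) r).r1 (adjP_e0 l (p * E1 l β q) r')).adj

omit [CharZero K] in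
theorem fam_zero (l : K) (p : Gp K × Gp K) : fam l p 0 0 0 = p := by
  rw [fam, E1_zero, e0_zero, dia_one, mul_one, mul_one]

omit [CharZero K] in
theorem fam_val (l : K) (p : Gp K × Gp K) (β : K) (q r : K[X]) :
    (fam l p β q r).1 (x K 0) = p.1 (x K 0) + aeval (p.1 (x K 2)) r ∧
    (fam l p β q r).1 (x K 1) = p.1 (x K 1) + (aeval (p.1 (x K 2)) q +
      β • br (p.1 (x K 0)) (p.1 (x K 2))) ∧
    (fam l p β q r).1 (x K 2) = p.1 (x K 2) := by
  have h : ∀ y, (fam l p β q r).1 y = p.1 (e0 r (e1 β q y)) := by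
    intro y
    rw [fam_comm]
    rfl
  refine ⟨?_, ?_, ?_⟩
  · rw [h, e1_0, e0_0, map_add, map_q2]
  · rw [h, e1_1, map_add (e0 r), map_add (e0 r), e0_1, map_smul (e0 r), map_br, e0_0, e0_2,
      map_q2_of_fix (e0_2 r), br_add_left]
    have h2 : br (q2 r) (x K 2) = 0 := br_aeval _ _
    rw [h2, add_zero, map_add, map_add, map_smul, map_br, map_q2]
  · rw [h, e1_2, e0_2]

omit [CharZero K] in
theorem sw_plane (g : Gp K) : im (g * sw) Pl = im (g * ka 0) Pl := by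
  have h : (ka (0 : K)) = sw := by
    apply aut_ext3
    intro i
    fin_cases i
    · show ka 0 (x K 0) = sw (x K 0)
      rw [ka_0, sw_0]
    · show ka 0 (x K 1) = sw (x K 1)
      rw [ka_1, sw_1, zero_smul, add_zero]
    · show ka 0 (x K 2) = sw (x K 2)
      rw [ka_2, sw_2]
  rw [h]

omit [CharZero K] in
theorem elsw_plane (g : Gp K) (a : K) :
    im (g * ela a * sw) Pl = im (g * ka a) Pl := by
  rw [ka, mul_assoc g, ela]

omit [CharZero K] in
theorem kasw_plane (g : Gp K) (a : K) : im (g * ka a * sw) Pl = im g Pl := by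
  rw [mul_assoc, ka_sw, im_mul, ela, im_el_Pl]

omit [CharZero K] in
theorem kabsw_plane (g : Gp K) (a c : K) : im (g * kab a c * sw) Pl = im g Pl := by
  rw [mul_assoc, im_mul]
  congr 1
  apply Submodule.eq_of_le_of_finrank_eq
  · rintro v ⟨u, hu, rfl⟩
    obtain ⟨d, β, γ, rfl⟩ := mem_Pl.mp hu
    show (kab a c * sw : Gp K) (d • (1 : A K) + (β • x K 1 + γ • x K 2)) ∈ _
    rw [map_add, map_add, map_smul, map_smul, map_smul, map_one, gp_mul_apply, gp_mul_apply,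
      sw_1, sw_2, kab_0, kab_2]
    exact Pl.add_mem (Pl.smul_mem _ one_mem_Pl) (Pl.add_mem (smul_x2_Pl β)
      (Pl.smul_mem _ (Pl.add_mem x1_mem_Pl (smul_x2_Pl c))))
  · rw [finrank_im]

/-- what happens along a plane of divisible type -/
theorem div_plane (F : PF K) (l : K) {p : Gp K × Gp K} {b : Gp K}
    (hb : b ∈ (AffG : Subgroup (Gp K))) (hs : Std (p.1 * b))
    (hdiv : ¬ NT (p.1 (b (x K 1))) (p.1 (b (x K 2)))) {D : ℕ} (hD : lv p.1 = D + 1) :
    ∃ p' : Gp K × Gp K, AdjP l p p' (im (p.1 * b * sw) Pl) ∧ lv p'.1 ≤ D ∧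
      ∀ q, AdjP l p q (im (p.1 * b) Pl) → lv q.1 ≤ D + 1 →
        ∃ q', Adj l q q' ∧ lv q'.1 ≤ D ∧ Adj l p' q' := by
  unfold NT at hdiv
  push Not at hdiv
  obtain ⟨hc, hd⟩ := hdiv
  obtain ⟨c, hl⟩ := F.c0 _ _ (dg_gx (p.1 * b) 2) hc hd
  have hD' : lv (p * dia b).1 = D + 1 := by
    show lv (p.1 * b) = _
    rw [lv_mul_aff _ hb, hD]
  obtain ⟨h1, h2⟩ := lemP1 l (p := p * dia b) hs hl (Nat.div_mul_cancel hd).symm hD'
  refine ⟨_, ?_, h1, ?_⟩
  · have h3 := adjP_E1 l (p * dia b) 0 (rr c (dg (p.1 (b (x K 1))) / dg (p.1 (b (x K 2)))))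
    rw [E1_dia] at h3
    have h4 := h3.mul_left (inv_mem hb)
    rw [mul_assoc p, ← dia_mul, mul_inv_cancel, dia_one, mul_one] at h4
    exact h4
  · intro q hq hle
    exact h2 q (hq.mul_left hb) hle

/-- the case where `W` is of divisible type -/
theorem caseZ (F : PF K) {l : K} {D : ℕ} {R : Gp K × Gp K → Prop} (hR : Cl l D R)
    {p : Gp K × Gp K} (hA : Adp p.1) (hG : Good p.1) (hD : lv p.1 = D + 1)
    (hdiv : ¬ NT (p.1 (x K 1)) (p.1 (x K 2))) (hRN : RN l R p) :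
    (∀ q, Adj l p q → lv q.1 ≤ D → R q) ∧ (∀ q, Adj l p q → lv q.1 = D + 1 → RN l R q) := by
  have hdiv' := hdiv
  unfold NT at hdiv
  push Not at hdiv
  obtain ⟨hc, hd⟩ := hdiv
  obtain ⟨c, hl⟩ := F.c0 _ _ (dg_gx p.1 2) hc hd
  have hdd := (Nat.div_mul_cancel hd).symm
  set s := dg (p.1 (x K 1)) / dg (p.1 (x K 2)) with hs
  obtain ⟨h1, h2⟩ := lemP1 l (p := p) hA.std hl hdd hD
  -- the vertices V*_a
  have hVa : ∀ a : K, lv (p * dia (ela a) *
      dia (e1 0 (rr c s))).1 ≤ D := by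
    intro a
    refine (lemP1 l (p := p * dia (ela a)) ?_ ?_ ?_ ?_).1
    · have h3 := (hA.ka a).2
      have h4 := hA.std
      unfold Std at h4 ⊢
      show lv (p.1 * ela a) = dg (p.1 (ela a (x K 0))) + dg (p.1 (ela a (x K 1))) +
        dg (p.1 (ela a (x K 2)))
      rw [lv_mul_aff _ (ela_aff a), ela_0, ela_1, ela_2, h3, h4]
    · show lf (p.1 (ela a (x K 1))) = c • lf (p.1 (ela a (x K 2))) ^ s
      rw [ela_1, ela_2, hl]
    · show dg (p.1 (ela a (x K 1))) = s * dg (p.1 (ela a (x K 2)))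
      rw [ela_1, ela_2, hdd]
    · show lv (p.1 * ela a) = _
      rw [lv_mul_aff _ (ela_aff a), hD]
  have hadjVa : ∀ a : K, AdjP l p (p * dia (ela a) *
      dia (e1 0 (rr c s))) (im (p.1 * ka a) Pl) := by
    intro a
    have h3 := adjP_E1 l (p * dia (ela a)) 0 (rr c s)
    rw [E1_dia] at h3
    have h4 := h3.mul_left (inv_mem (ela_aff a))
    rw [mul_assoc p, ← dia_mul, mul_inv_cancel, dia_one, mul_one] at h4
    have h5 : im ((p * dia (ela a)).1 * sw) Pl =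
        im (p.1 * ka a) Pl := elsw_plane p.1 a
    rw [h5] at h4
    exact h4
  have hVV : ∀ a : K, Adj l (p * dia (e1 0 (rr c s)))
      (p * dia (ela a) * dia (e1 0 (rr c s))) := by
    intro a
    rw [mul_assoc p, ← dia_mul, el_e1, dia_mul, ← mul_assoc, dia_mul, ← mul_assoc]
    exact ((adjP_e0 l (p * dia (e1 0 (rr c s))) _).mul_right (ela_aff a)).adj
  -- every lower neighbour is equivalent to V*_0
  have key : ∀ q, Adj l p q → lv q.1 ≤ D → (R q ↔ R (p * dia (e1 0 (rr c s)))) := by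
    have keyW : ∀ q, AdjP l p q (im p.1 Pl) → lv q.1 ≤ D →
        (R q ↔ R (p * dia (e1 0 (rr c s)))) := by
      intro q hq hle
      obtain ⟨q', h3, h4, h5⟩ := h2 q hq (by omega)
      exact ⟨fun h => hR.2 _ _ (hR.2 _ _ h h3 h4) h5.symm h1,
        fun h => hR.2 _ _ (hR.2 _ _ h h5 h4) h3.symm hle⟩
    rintro q ⟨W, hq⟩ hle
    rcases hq.class with h3 | ⟨a, h3⟩ | ⟨a, c', h3⟩
    · subst h3
      exact keyW q hq hle
    · subst h3
      have h4 := (hq.r1 (hadjVa a)).adj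
      exact ⟨fun h => hR.2 _ _ (hR.2 _ _ h h4 (hVa a)) (hVV a).symm h1,
        fun h => hR.2 _ _ (hR.2 _ _ h (hVV a) (hVa a)) h4.symm hle⟩
    · subst h3
      by_cases hnt : NT (p.1 (x K 0 + a • x K 2)) (p.1 (x K 1 + c' • x K 2))
      · obtain ⟨c'', hc'', rfl⟩ := wab_triv F hA hG hnt hq (by omega)
        have h5 : lv (p * dia c'').1 = lv p.1 := lv_mul_aff _ hc''
        omega
      · obtain ⟨p', h5, h6, h7⟩ := div_plane F l (kab_aff a c') (hA.kab a c').1
          (by rwa [kab_1, kab_2]) hD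
        rw [kabsw_plane] at h5
        obtain ⟨q', h8, h9, h10⟩ := h7 q hq (by omega)
        rw [← keyW p' h5 h6]
        exact ⟨fun h => hR.2 _ _ (hR.2 _ _ h h8 h9) h10.symm h6,
          fun h => hR.2 _ _ (hR.2 _ _ h h10 h9) h8.symm hle⟩
  obtain ⟨q0, hq0, hRq0⟩ := hRN
  have hV0 : R (p * dia (e1 0 (rr c s))) := (key q0 hq0 (hR.1 _ hRq0)).mp hRq0
  refine ⟨fun q hq hle => (key q hq hle).mpr hV0, ?_⟩
  rintro q ⟨W, hq⟩ hlv
  rcases hq.class with h3 | ⟨a, h3⟩ | ⟨a, c', h3⟩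
  · subst h3
    obtain ⟨q', h3, h4, h5⟩ := h2 q hq (by omega)
    exact ⟨q', h3, hR.2 _ _ hV0 h5 h4⟩
  · subst h3
    exact ⟨_, (hq.r1 (hadjVa a)).adj, hR.2 _ _ hV0 (hVV a) (hVa a)⟩
  · subst h3
    by_cases hnt : NT (p.1 (x K 0 + a • x K 2)) (p.1 (x K 1 + c' • x K 2))
    · obtain ⟨c'', hc'', rfl⟩ := wab_triv F hA hG hnt hq (by omega)
      obtain ⟨W, h5⟩ := hq0
      exact ⟨q0, (h5.mul_left hc'').adj, hRq0⟩
    · obtain ⟨p', h5, h6, h7⟩ := div_plane F l (kab_aff a c') (hA.kab a c').1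
        (by rwa [kab_1, kab_2]) hD
      obtain ⟨q', h8, h9, h10⟩ := h7 q hq (by omega)
      have h11 : R p' := (key p' h5.adj h6).mpr hV0
      exact ⟨q', h8, hR.2 _ _ h11 h10 h9⟩

end Pool.Agent.H66.TA
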