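import Pool.Agent.H66.TA.Cases3

/-!
The case where `W` is not of divisible type and no step uses a commutator.
-/

namespace Pool.Agent.H66.TA

open FreeAlgebra Polynomial Module

variable {K : Type*} [Field K] [CharZero K]

omit [CharZero K] in
theorem RN.aff {l : K} {R : Gp K × Gp K → Prop} {p : Gp K × Gp K} (h : RN l R p) {c : Gp K}
    (hc : c ∈ (AffG : Subgroup (Gp K))) : RN l R (p * dia c) := by
  obtain ⟨q, ⟨W, hq⟩, hRq⟩ := h
  exact ⟨q, (hq.mul_left hc).adj, hRq⟩

omit [CharZero K] in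
theorem Adj.aff {l : K} {p q : Gp K × Gp K} (h : Adj l p q) {c : Gp K}
    (hc : c ∈ (AffG : Subgroup (Gp K))) : Adj l (p * dia c) q := by
  obtain ⟨W, hq⟩ := h
  exact (hq.mul_left hc).adj

omit [CharZero K] in
theorem RN.of_aff {l : K} {R : Gp K × Gp K → Prop} {p : Gp K × Gp K} {c : Gp K}
    (hc : c ∈ (AffG : Subgroup (Gp K))) (h : RN l R (p * dia c)) : RN l R p := by
  have := h.aff (inv_mem hc)
  rwa [mul_assoc, ← dia_mul, mul_inv_cancel, dia_one, mul_one] at this

omit [CharZero K] in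
theorem Adj.of_aff {l : K} {p q : Gp K × Gp K} {c : Gp K}
    (hc : c ∈ (AffG : Subgroup (Gp K))) (h : Adj l (p * dia c) q) : Adj l p q := by
  have := h.aff (inv_mem hc)
  rwa [mul_assoc, ← dia_mul, mul_inv_cancel, dia_one, mul_one] at this

omit [CharZero K] in
theorem Adj.aff_right {l : K} {p q : Gp K × Gp K} (h : Adj l p q) {c : Gp K}
    (hc : c ∈ (AffG : Subgroup (Gp K))) : Adj l p (q * dia c) := by
  obtain ⟨W, hq⟩ := h
  exact (hq.mul_right hc).adj

omit [CharZero K] in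
/-- a lower step in the plane of the frame cancels the leading form -/
theorem low_lf {u v : A K} (h : dg (u + v) < dg u) : dg v = dg u ∧ lf v = - lf u := by
  have h1 : dg v = dg u := by
    rcases lt_trichotomy (dg v) (dg u) with h1 | h1 | h1
    · rw [dg_add_eq_left h1] at h; omega
    · exact h1
    · rw [dg_add_eq_right h1] at h; omega
  refine ⟨h1, ?_⟩
  by_contra hne
  have h2 := (lf_add_eq h1.symm (fun hz => hne (eq_neg_of_add_eq_zero_right hz))).1
  omega

/-- exclusion of commutator steps -/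
def NoD (l : K) (R : Gp K × Gp K → Prop) (p : Gp K × Gp K) : Prop :=
  ∀ b ∈ (AffG : Subgroup (Gp K)), Adp (p.1 * b) →
    dg (p.1 (b (x K 1))) < dg (p.1 (b (x K 0))) →
    Com (p.1 (b (x K 0))) (p.1 (b (x K 2))) → Com (p.1 (b (x K 1))) (p.1 (b (x K 2))) →
    NT (p.1 (b (x K 0))) (p.1 (b (x K 2))) → NT (p.1 (b (x K 1))) (p.1 (b (x K 2))) →
    (∃ q, AdjP l p q (im (p.1 * b) Pl) ∧ R q) →
    dg (p.1 (b (x K 1))) < dg (br (p.1 (b (x K 0))) (p.1 (b (x K 2))))

omit [CharZero K] in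
theorem Adp.ela {g : Gp K} (h : Adp g) (a : K) : Adp (g * ela a) := by
  obtain ⟨h1, h2⟩ := h.ka a
  have h3 := h.std
  refine ⟨?_, ?_, ?_⟩
  · unfold Std at h3 ⊢
    rw [lv_mul_aff _ (ela_aff a), gp_mul_apply, gp_mul_apply, gp_mul_apply, ela_0, ela_1, ela_2,
      h2, h3]
  · rw [gp_mul_apply, gp_mul_apply, ela_0, ela_1, h2]
    exact h.le21
  · rw [gp_mul_apply, gp_mul_apply, ela_1, ela_2]
    exact h.le32

omit [CharZero K] in
theorem ela_plane (g : Gp K) (a : K) : im (g * ela a) Pl = im g Pl := by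
  rw [im_mul, TA.ela, im_el_Pl]

/-- the case without commutator steps -/
theorem caseX (F : PF K) {l : K} {D : ℕ} {R : Gp K × Gp K → Prop} (hR : Cl l D R)
    {p : Gp K × Gp K} (hA : Adp p.1) (hSt : Star p.1) (hG : Good p.1) (hD : lv p.1 = D + 1)
    (hnt2 : NT (p.1 (x K 1)) (p.1 (x K 2)))
    (hno : ∀ a q, NT (p.1 (x K 0 + a • x K 1)) (p.1 (x K 2)) →
      AdjP l p q (im (p.1 * ka a) Pl) → ¬ lv q.1 ≤ D)
    (hE : NoD l R p) (hRN : RN l R p) :
    (∀ q, Adj l p q → lv q.1 ≤ D → R q) ∧ (∀ q, Adj l p q → lv q.1 = D + 1 → RN l R q) := by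
  have hn3 := dg_gx p.1 2
  have hlevW := hA.std.cf.2.2
  have hsum := hA.std
  unfold Std at hsum
  -- every lower neighbour is equivalent to one along W
  have key : ∀ q, Adj l p q → lv q.1 ≤ D →
      ∃ q1, AdjP l p q1 (im p.1 Pl) ∧ lv q1.1 ≤ D ∧ (R q ↔ R q1) := by
    rintro q ⟨W, hq⟩ hle
    rcases hq.class with h3 | ⟨a, h3⟩ | ⟨a, c', h3⟩
    · subst h3
      exact ⟨q, hq, hle, Iff.rfl⟩
    · subst h3
      by_cases hnt : NT (p.1 (x K 0 + a • x K 1)) (p.1 (x K 2))
      · exact absurd hle (hno a q hnt hq)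
      · obtain ⟨p', h5, h6, h7⟩ := div_plane F l (ka_aff a) (hA.ka a).1
          (by rwa [ka_1, ka_2]) hD
        rw [kasw_plane] at h5
        obtain ⟨q', h8, h9, h10⟩ := h7 q hq (by omega)
        exact ⟨p', h5, h6, fun h => hR.2 _ _ (hR.2 _ _ h h8 h9) h10.symm h6,
          fun h => hR.2 _ _ (hR.2 _ _ h h10 h9) h8.symm hle⟩
    · subst h3
      by_cases hnt : NT (p.1 (x K 0 + a • x K 2)) (p.1 (x K 1 + c' • x K 2))
      · obtain ⟨c'', hc'', rfl⟩ := wab_triv F hA hG hnt hq (by omega)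
        have h5 : lv (p * dia c'').1 = lv p.1 := lv_mul_aff _ hc''
        omega
      · obtain ⟨p', h5, h6, h7⟩ := div_plane F l (kab_aff a c') (hA.kab a c').1
          (by rwa [kab_1, kab_2]) hD
        rw [kabsw_plane] at h5
        obtain ⟨q', h8, h9, h10⟩ := h7 q hq (by omega)
        exact ⟨p', h5, h6, fun h => hR.2 _ _ (hR.2 _ _ h h8 h9) h10.symm h6,
          fun h => hR.2 _ _ (hR.2 _ _ h h10 h9) h8.symm hle⟩
  obtain ⟨q0, hq0, hRq0⟩ := hRN
  obtain ⟨q1, hq1, hle1, hiff1⟩ := key q0 hq0 (hR.1 _ hRq0)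
  have hRq1 : R q1 := hiff1.mp hRq0
  have B1 : ∀ q, Adj l p q → lv q.1 ≤ D → R q := by
    intro q hq hle
    obtain ⟨q2, hq2, hle2, hiff2⟩ := key q hq hle
    exact hiff2.mpr (hR.2 _ _ hRq1 (hq1.r1 hq2).adj hle2)
  refine ⟨B1, ?_⟩
  -- the representation of q1
  obtain ⟨c1, hc1, P, hP, hq1e, hlv1⟩ := hq1.rep
  have hlow1 : dg (p.1 (x K 0) + p.1 P) < dg (p.1 (x K 0)) := by
    rw [hlevW] at hlv1
    omega
  have hRN0 : RN l R p := ⟨q0, hq0, hRq0⟩
  rintro q ⟨W, hq⟩ hlv
  rcases hq.class with h3 | ⟨a, h3⟩ | ⟨a, c', h3⟩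
  · subst h3
    exact ⟨q1, (hq.r1 hq1).adj, hRq1⟩
  · subst h3
    by_cases hnt : NT (p.1 (x K 0 + a • x K 1)) (p.1 (x K 2))
    · obtain ⟨c, hc, β, r, hqe, hdr, hβ⟩ := wa_neu F hA hG hnt hq (by omega)
      have hβ0 : β = 0 := by
        by_contra hβ0
        obtain ⟨hcom, hdbr⟩ := hβ hβ0
        have hlt12 : dg (p.1 (x K 1)) < dg (p.1 (x K 0)) := by
          apply lt_of_le_of_ne hA.le21
          intro e
          exact hSt e.symm a hcom
        have hdf := (hA.ka a).2
        have hcom2 : Com (p.1 (x K 1)) (p.1 (x K 2)) := by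
          by_contra hnc
          obtain ⟨hd, hl⟩ := low_lf hlow1
          have hlf : lf (p.1 (x K 0 + a • x K 1)) = lf (p.1 (x K 0)) := by
            rw [map_add, map_smul]
            exact lf_add_left (lt_of_le_of_lt (dg_smul_le _ _) hlt12)
          have hcP : Com (p.1 P) (p.1 (x K 2)) := by
            rw [Com, hl, ← hlf]
            exact Commute.neg_left hcom
          obtain ⟨c, s, hs⟩ := F.p1b p.1 P hP hnc hcP
          apply hnt
          refine ⟨hcom, ?_⟩
          have hPne : p.1 P ≠ 0 := by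
            intro hz
            rw [hz, dg_zero] at hd
            exact dg_gx p.1 0 hd.symm
          have hc0 : c ≠ 0 := by
            rintro rfl
            rw [zero_smul] at hs
            exact lf_ne_zero hPne hs
          have h5 : dg (lf (p.1 P)) = s * dg (lf (p.1 (x K 2))) := by
            rw [hs, dg_smul hc0, dg_pow]
          have hx2 : p.1 (x K 2) ≠ 0 := by
            intro hz
            exact hn3 (by rw [hz, dg_zero])
          rw [dg_lf hPne, dg_lf hx2, hd, ← hdf] at h5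
          exact ⟨s, by rw [h5, mul_comm]⟩
        have h6 := hE (ela a) (ela_aff a) (hA.ela a) (by rw [ela_0, ela_1, hdf]; exact hlt12)
          (by rw [ela_0, ela_2]; exact hcom) (by rw [ela_1, ela_2]; exact hcom2)
          (by rw [ela_0, ela_2]; exact hnt) (by rw [ela_1, ela_2]; exact hnt2)
          ⟨q1, by rw [ela_plane]; exact hq1, hRq1⟩
        rw [ela_0, ela_1, ela_2] at h6
        omega
      subst hβ0
      rw [hqe, wa_fam]
      apply RN.aff _ hc
      apply RN.aff _ (mul_mem (ela_aff a) sw_aff)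
      -- the vertex U'
      have hU : Adj l q1 (p * E0 l P hP * dia (e1 0 r)) := by
        have h5 := adjP_E1 l (p * E0 l P hP) 0 r
        rw [E1_dia] at h5
        rw [hq1e]
        exact h5.adj.aff hc1
      have hUl : lv (p * E0 l P hP * dia (e1 0 r)).1 ≤ D := by
        have h5 := lv_le (p.1 * el P hP * e1 0 r)
        have e0' : (p.1 * el P hP * e1 0 r) (x K 0) = p.1 (x K 0) + p.1 P := by
          rw [gp_mul_apply, e1_0, gp_mul_apply, el_0, map_add]
        have e1' : (p.1 * el P hP * e1 0 r) (x K 1) = p.1 (x K 1) + aeval (p.1 (x K 2)) r := by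
          rw [gp_mul_apply, e1_1, zero_smul, add_zero, gp_mul_apply,
            el_B _ _ (B.add_mem x1_mem (q2_mem r)), map_add, map_q2]
        have e2' : (p.1 * el P hP * e1 0 r) (x K 2) = p.1 (x K 2) := by
          rw [gp_mul_apply, e1_2, gp_mul_apply, el_2]
        rw [e0', e1', e2'] at h5
        have h6 : dg (p.1 (x K 1) + aeval (p.1 (x K 2)) r) ≤ dg (p.1 (x K 1)) :=
          (dg_add_le _ _).trans (max_le le_rfl hdr)
        show lv (p.1 * el P hP * e1 0 r) ≤ D
        omega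
      refine ⟨p * E0 l P hP * dia (e1 0 r), ?_, hR.2 _ _ hRq1 hU hUl⟩
      rw [mul_assoc p, r2, ← mul_assoc, fam, E1_dia]
      exact
        ((adjP_e0 l (p * dia (e1 0 r)) (-(a • r))).r1
          (adjP_std l (p * dia (e1 0 r)) _ (e1_B _ hP))).adj
    · obtain ⟨p', h5, h6, h7⟩ := div_plane F l (ka_aff a) (hA.ka a).1
        (by rwa [ka_1, ka_2]) hD
      obtain ⟨q', h8, h9, h10⟩ := h7 q hq (by omega)
      exact ⟨q', h8, hR.2 _ _ (B1 p' h5.adj h6) h10 h9⟩
  · subst h3
    by_cases hnt : NT (p.1 (x K 0 + a • x K 2)) (p.1 (x K 1 + c' • x K 2))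
    · obtain ⟨c'', hc'', rfl⟩ := wab_triv F hA hG hnt hq (by omega)
      exact hRN0.aff hc''
    · obtain ⟨p', h5, h6, h7⟩ := div_plane F l (kab_aff a c') (hA.kab a c').1
        (by rwa [kab_1, kab_2]) hD
      obtain ⟨q', h8, h9, h10⟩ := h7 q hq (by omega)
      exact ⟨q', h8, hR.2 _ _ (B1 p' h5.adj h6) h10 h9⟩

end Pool.Agent.H66.TA
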