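import Pool.Agent.H66.TA.Cases4

/-!
The case with a lower commutator step, and the local theorem.
-/

namespace Pool.Agent.H66.TA

open FreeAlgebra Polynomial Module

variable {K : Type*} [Field K] [CharZero K]

/-- steps `x1 ↦ x1 + q(x2) + β [x0,x2]` in the frame -/
theorem ka0_E0 (l : K) (p : Gp K × Gp K) (β : K) (r : K[X]) :
    p * dia (ka 0) * E0 l (qb β r) (qb_mem β r) = fam l p β r 0 * dia sw := by
  have hka : ka (0 : K) = sw := by
    apply aut_ext3
    intro i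
    fin_cases i
    · show ka 0 (x K 0) = sw (x K 0)
      rw [ka_0, sw_0]
    · show ka 0 (x K 1) = sw (x K 1)
      rw [ka_1, sw_1, zero_smul, add_zero]
    · show ka 0 (x K 2) = sw (x K 2)
      rw [ka_2, sw_2]
  rw [fam, e0_zero, dia_one, mul_one, hka, E1_eq, mul_assoc, mul_assoc, mul_assoc (_ * _) (dia sw),
    ← dia_mul, sw_sw, dia_one, mul_one]

/-- the case with a lower commutator step -/
theorem caseY (F : PF K) {l : K} {D : ℕ} {R : Gp K × Gp K → Prop} (hR : Cl l D R)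
    {p : Gp K × Gp K} (hA : Adp p.1) (hG : Good p.1) (hD : lv p.1 = D + 1)
    (hc1 : Com (p.1 (x K 0)) (p.1 (x K 2))) (hnt1 : NT (p.1 (x K 0)) (p.1 (x K 2)))
    (hc2 : ¬ Com (p.1 (x K 1)) (p.1 (x K 2))) (hlt : dg (p.1 (x K 1)) < dg (p.1 (x K 0)))
    (hbr : dg (br (p.1 (x K 0)) (p.1 (x K 2))) ≤ dg (p.1 (x K 1))) (hRN : RN l R p) :
    (∀ q, Adj l p q → lv q.1 ≤ D → R q) ∧ (∀ q, Adj l p q → lv q.1 = D + 1 → RN l R q) := by
  have hn3 := dg_gx p.1 2
  have hlevW := hA.std.cf.2.2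
  have hsum := hA.std
  unfold Std at hsum
  have hA3 := hA.le32
  have hnt2 : NT (p.1 (x K 1)) (p.1 (x K 2)) := fun h => hc2 h.1
  have hSt : Star p.1 := fun e => by omega
  have hka0 : NT (p.1 (x K 0 + (0 : K) • x K 1)) (p.1 (x K 2)) := by
    rw [zero_smul, add_zero]; exact hnt1
  have hS2 : S2 (p.1 (x K 0)) (p.1 (x K 2)) := by
    have := hG.nt (ka_aff 0) (by rw [ka_1, ka_2]; exact hka0)
      (by rw [ka_1, ka_2, zero_smul, add_zero]; omega)
      (by rw [ka_1, ka_2, zero_smul, add_zero]; exact hc1)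
    rwa [ka_1, ka_2, zero_smul, add_zero] at this
  have h32 : dg (p.1 (x K 2)) < dg (p.1 (x K 1)) := lt_of_lt_of_le hS2.1 hbr
  have hbr23 := (dg_br hc2).1
  -- commutator of f1 + a f2 with f3
  have hbra : ∀ a : K, a ≠ 0 →
      dg (p.1 (x K 1)) < dg (br (p.1 (x K 0 + a • x K 1)) (p.1 (x K 2))) := by
    intro a ha
    have h1 : br (p.1 (x K 0 + a • x K 1)) (p.1 (x K 2)) =
        br (p.1 (x K 0)) (p.1 (x K 2)) + a • br (p.1 (x K 1)) (p.1 (x K 2)) := by
      rw [map_add, map_smul, br_add_left, br_smul_left]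
    have h2 : dg (a • br (p.1 (x K 1)) (p.1 (x K 2))) =
        dg (p.1 (x K 1)) + dg (p.1 (x K 2)) := by rw [dg_smul ha, hbr23]
    rw [h1, dg_add_eq_right (by rw [h2]; omega), h2]
    omega
  have hlfa : ∀ a : K, lf (p.1 (x K 0 + a • x K 1)) = lf (p.1 (x K 0)) := by
    intro a
    rw [map_add, map_smul]
    exact lf_add_left (lt_of_le_of_lt (dg_smul_le _ _) hlt)
  have hnta : ∀ a : K, NT (p.1 (x K 0 + a • x K 1)) (p.1 (x K 2)) := by
    intro a h
    apply hnt1
    rw [(hA.ka a).2] at h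
    exact ⟨hc1, h.2⟩
  have hntab : ∀ a c : K, NT (p.1 (x K 0 + a • x K 2)) (p.1 (x K 1 + c • x K 2)) := by
    rintro a c ⟨h, -⟩
    apply hc2
    have e1 : lf (p.1 (x K 0 + a • x K 2)) = lf (p.1 (x K 0)) := by
      rw [map_add, map_smul]
      exact lf_add_left (lt_of_le_of_lt (dg_smul_le _ _) (by omega))
    have e2 : lf (p.1 (x K 1 + c • x K 2)) = lf (p.1 (x K 1)) := by
      rw [map_add, map_smul]
      exact lf_add_left (lt_of_le_of_lt (dg_smul_le _ _) h32)
    rw [Com, e1, e2] at h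
    exact F.ct _ _ _ (dg_gx p.1 0) (Commute.symm h) hc1
  -- every lower neighbour is along W_0
  have key : ∀ q, Adj l p q → lv q.1 ≤ D → AdjP l p q (im (p.1 * ka 0) Pl) := by
    rintro q ⟨W, hq⟩ hle
    rcases hq.class with h3 | ⟨a, h3⟩ | ⟨a, c', h3⟩
    · exfalso
      subst h3
      obtain ⟨c, hc, P, hP, hqe, hlv⟩ := hq.rep
      have hlow : dg (p.1 (x K 0) + p.1 P) < dg (p.1 (x K 0)) := by
        rw [hlevW] at hlv
        omega
      obtain ⟨hd, hl⟩ := low_lf hlow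
      have hcP : Com (p.1 P) (p.1 (x K 2)) := by
        rw [Com, hl]
        exact Commute.neg_left hc1
      obtain ⟨c, s, hs⟩ := F.p1b p.1 P hP hc2 hcP
      apply hnt1
      refine ⟨hc1, ?_⟩
      have hPne : p.1 P ≠ 0 := by
        intro hz
        rw [hz, dg_zero] at hd
        exact dg_gx p.1 0 hd.symm
      have hc0 : c ≠ 0 := by
        rintro rfl
        rw [zero_smul] at hs
        exact lf_ne_zero hPne hs
      have h5 : dg (lf (p.1 P)) = s * dg (lf (p.1 (x K 2))) := by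
        rw [hs, dg_smul hc0, dg_pow]
      have hx2 : p.1 (x K 2) ≠ 0 := by
        intro hz
        exact hn3 (by rw [hz, dg_zero])
      rw [dg_lf hPne, dg_lf hx2, hd] at h5
      exact ⟨s, by rw [h5, mul_comm]⟩
    · subst h3
      by_cases ha : a = 0
      · rw [ha] at hq
        exact hq
      · exfalso
        have h4 := (wa_low F hA hSt hG (hnta a) hnt2 hq (by omega)).2.2.2.1
        have h5 := hbra a ha
        omega
    · exfalso
      subst h3
      obtain ⟨c'', hc'', rfl⟩ := wab_triv F hA hG (hntab a c') hq (by omega)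
      have h5 : lv (p * dia c'').1 = lv p.1 := lv_mul_aff _ hc''
      omega
  obtain ⟨q0, hq0, hRq0⟩ := hRN
  have hRN0 : RN l R p := ⟨q0, hq0, hRq0⟩
  have hq0' := key q0 hq0 (hR.1 _ hRq0)
  have B1 : ∀ q, Adj l p q → lv q.1 ≤ D → R q := fun q hq hle =>
    hR.2 _ _ hRq0 (hq0'.r1 (key q hq hle)).adj hle
  refine ⟨B1, ?_⟩
  have hlt0 : lv q0.1 < lv p.1 := by have := hR.1 _ hRq0; omega
  obtain ⟨-, -, -, -, c0, hc0, β0, r0, hq0e, hlow0, hlv0⟩ := wa_low F hA hSt hG hka0 hnt2 hq0' hlt0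
  rw [ka0_E0, mul_assoc, ← dia_mul] at hq0e
  have hRfam : R (fam l p β0 r0 0) := by
    have h5 : Adj l q0 (fam l p β0 r0 0) := by
      rw [hq0e]
      have h6 : Adj l (fam l p β0 r0 0) (fam l p β0 r0 0) := fam_adj0 l p β0 r0 0 0
      exact h6.aff (mul_mem sw_aff hc0)
    refine hR.2 _ _ hRq0 h5 ?_
    have h7 : lv q0.1 = lv (fam l p β0 r0 0).1 := by
      rw [hq0e]
      exact lv_mul_aff _ (mul_mem sw_aff hc0)
    rw [← h7]
    exact hR.1 _ hRq0
  have hfamRN : ∀ (q r : K[X]), dg (aeval (p.1 (x K 2)) r) ≤ dg (p.1 (x K 0)) →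
      RN l R (fam l p 0 q r) := by
    intro q r hr
    refine ⟨fam l p β0 r0 r, fam_adj1 _ _ _ _ _ _ _, ?_⟩
    refine hR.2 _ _ hRfam (fam_adj0 _ _ _ _ _ _) ?_
    have h5 := lv_le (fam l p β0 r0 r).1
    obtain ⟨v0, v1, v2⟩ := fam_val l p β0 r0 r
    rw [v0, v1, v2] at h5
    have h6 : dg (p.1 (x K 0) + aeval (p.1 (x K 2)) r) ≤ dg (p.1 (x K 0)) :=
      (dg_add_le _ _).trans (max_le le_rfl hr)
    rw [zero_smul, add_zero] at hlow0
    omega
  rintro q ⟨W, hq⟩ hlv
  rcases hq.class with h3 | ⟨a, h3⟩ | ⟨a, c', h3⟩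
  · subst h3
    obtain ⟨c, hc, P, hP, hqe, hlv'⟩ := hq.rep
    have hgP : dg (p.1 P) ≤ dg (p.1 (x K 0)) := by
      apply dg_of_add_le (u := p.1 (x K 0)) _ le_rfl
      rw [hlevW] at hlv'
      omega
    obtain ⟨α, r, hPr⟩ := F.p1 p.1 P hP hc2 hA3 (by
      have := hS2.2
      omega)
    have hval : p.1 P = α • p.1 (x K 1) + aeval (p.1 (x K 2)) r := by
      rw [hPr, map_add, map_smul, map_q2]
    have hr : dg (aeval (p.1 (x K 2)) r) ≤ dg (p.1 (x K 0)) := by
      rw [hval] at hgP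
      exact (hnt2.sum hn3 α r).2.1.trans hgP
    have hqe' : q = fam l p 0 0 r * dia (ela α * c) := by
      subst hPr
      rw [hqe, fam, E1_zero, mul_one, dia_mul, ← E0_ela l, ← E0_q2 l, ← mul_assoc,
        mul_assoc p (E0 l (q2 r) _), E0_mul]
      congr 2
      exact E0_congr l (add_comm _ _) _ _
    rw [hqe']
    exact (hfamRN 0 r hr).aff (mul_mem (ela_aff α) hc)
  · subst h3
    by_cases ha : a = 0
    · subst ha
      exact ⟨q0, (hq.r1 hq0').adj, hRq0⟩
    · obtain ⟨c, hc, β, r, hqe, hdr, hβ⟩ := wa_neu F hA hG (hnta a) hq (by omega)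
      have hβ0 : β = 0 := by
        by_contra hβ0
        have h4 := (hβ hβ0).2
        have h5 := hbra a ha
        omega
      subst hβ0
      rw [hqe, wa_fam]
      apply RN.aff _ hc
      apply RN.aff _ (mul_mem (ela_aff a) sw_aff)
      apply hfamRN
      rw [map_neg, dg_neg, map_smul]
      exact (dg_smul_le _ _).trans (hdr.trans hlt.le)
  · subst h3
    obtain ⟨c'', hc'', rfl⟩ := wab_triv F hA hG (hntab a c') hq (by omega)
    exact hRN0.aff hc''

omit [CharZero K] in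
theorem NoD.aff {l : K} {R : Gp K × Gp K → Prop} {p : Gp K × Gp K} (h : NoD l R p) {b : Gp K}
    (hb : b ∈ (AffG : Subgroup (Gp K))) : NoD l R (p * dia b) := by
  intro b' hb' hA h1 h2 h3 h4 h5 ⟨q, hq, hRq⟩
  have hmul : (p * dia b).1 * b' = p.1 * (b * b') := mul_assoc _ _ _
  refine h (b * b') (mul_mem hb hb') (by rw [← hmul]; exact hA) h1 h2 h3 h4 h5 ⟨q, ?_, hRq⟩
  have h6 := hq.mul_left (inv_mem hb)
  rw [mul_assoc p, ← dia_mul, mul_inv_cancel, dia_one, mul_one, hmul] at h6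
  exact h6

/-- The local theorem: at a vertex of level `D + 1` with a neighbour in `R`, all lower neighbours
are in `R`, and all neighbours of level `D + 1` have a neighbour in `R`. -/
theorem local_thm (F : PF K) {l : K} {D : ℕ} {R : Gp K × Gp K → Prop} (hR : Cl l D R)
    {p : Gp K × Gp K} (hG : Good p.1) (hD : lv p.1 = D + 1) (hE : NoD l R p) (hRN : RN l R p) :
    (∀ q, Adj l p q → lv q.1 ≤ D → R q) ∧ (∀ q, Adj l p q → lv q.1 = D + 1 → RN l R q) := by
  obtain ⟨b, hb, hA, hSt⟩ := exists_star F p.1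
  suffices h : (∀ q, Adj l (p * dia b) q → lv q.1 ≤ D → R q) ∧
      (∀ q, Adj l (p * dia b) q → lv q.1 = D + 1 → RN l R q) from
    ⟨fun q hq => h.1 q (hq.aff hb), fun q hq => h.2 q (hq.aff hb)⟩
  have hG' : Good (p * dia b).1 := hG.aff hb
  have hD' : lv (p * dia b).1 = D + 1 := by
    show lv (p.1 * b) = _
    rw [lv_mul_aff _ hb, hD]
  have hE' := hE.aff hb
  have hRN' := hRN.aff hb
  have hA' : Adp (p * dia b).1 := hA
  have hSt' : Star (p * dia b).1 := hSt
  generalize p * dia b = p' at *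
  by_cases hnt2 : NT (p'.1 (x K 1)) (p'.1 (x K 2))
  · by_cases hno : ∀ a q, NT (p'.1 (x K 0 + a • x K 1)) (p'.1 (x K 2)) →
      AdjP l p' q (im (p'.1 * ka a) Pl) → ¬ lv q.1 ≤ D
    · exact caseX F hR hA' hSt' hG' hD' hnt2 hno hE' hRN'
    · push Not at hno
      obtain ⟨a, q, hnt, hq, hle⟩ := hno
      obtain ⟨h1, h2, h3, h4, -⟩ := wa_low F hA' hSt' hG' hnt hnt2 hq (by omega)
      have h5 := caseY F hR (p := p' * dia (ela a)) (hA'.ela a) (hG'.aff (ela_aff a))
        (by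
          show lv (p'.1 * ela a) = _
          rw [lv_mul_aff _ (ela_aff a), hD'])
        (by
          show Com (p'.1 (ela a (x K 0))) (p'.1 (ela a (x K 2)))
          rw [ela_0, ela_2]; exact h1)
        (by
          show NT (p'.1 (ela a (x K 0))) (p'.1 (ela a (x K 2)))
          rw [ela_0, ela_2]; exact hnt)
        (by
          show ¬ Com (p'.1 (ela a (x K 1))) (p'.1 (ela a (x K 2)))
          rw [ela_1, ela_2]; exact h2)
        (by
          show dg (p'.1 (ela a (x K 1))) < dg (p'.1 (ela a (x K 0)))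
          rw [ela_0, ela_1, (hA'.ka a).2]; exact h3)
        (by
          show dg (br (p'.1 (ela a (x K 0))) (p'.1 (ela a (x K 2)))) ≤ dg (p'.1 (ela a (x K 1)))
          rw [ela_0, ela_1, ela_2]; exact h4)
        (hRN'.aff (ela_aff a))
      exact ⟨fun q hq => h5.1 q (hq.aff (ela_aff a)), fun q hq => h5.2 q (hq.aff (ela_aff a))⟩
  · exact caseZ F hR hA' hG' hD' hnt2 hRN'

end Pool.Agent.H66.TA
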