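import Pool.Agent.H66.TA.Euclid

/-!
The exclusion lemma `DL`.
-/

namespace Pool.Agent.H66.TA

open FreeAlgebra Polynomial Module

variable {K : Type*} [Field K]

theorem red_lt {a b c : A K} (h1 : dg a < dg b) (h2 : dg b < dg c) : Red a b c := by
  apply red_sorted h1.le h2.le
  · intro μ
    rw [(lf_add_smul_left h1 μ).1]
  · intro μ ν
    rw [(lf_add_smul_left (u := c + μ • b) (v := a) (by
      rw [(lf_add_smul_left h2 μ).1]; omega) ν).1, (lf_add_smul_left h2 μ).1]

variable {n : ℕ} {V : A K → A K → A K → Prop}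

theorem Sg.congr {a b a' b' : A K} (h : Sg a b) (ha : dg a' = dg a) (hb : dg b' = dg b)
    (la : lf a' = lf a) (lb : lf b' = lf b) : Sg a' b' := by
  refine ⟨(Com.of_lf_left la).mpr ((Com.of_lf_right lb).mpr h.1), by have := h.2.1; omega, ?_⟩
  rw [ha, hb]
  exact h.2.2

/-- shifts of the second element by the third and of the third by the first, and so on -/
theorem Adm.sh21 (W : Adm n V) {a b c : A K} (μ : K) (h : V a b c) : V a (b + μ • a) c :=
  W.sw (W.sh μ (W.sw h))

theorem Adm.sh23 (W : Adm n V) {a b c : A K} (μ : K) (h : V a b c) : V a (b + μ • c) c :=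
  W.cy (W.cy (W.sh μ (W.cy h)))

theorem Adm.sh31 (W : Adm n V) {a b c : A K} (μ : K) (h : V a b c) : V a b (c + μ • a) :=
  W.tr (W.sh21 μ (W.tr h))

theorem Adm.sh32 (W : Adm n V) {a b c : A K} (μ : K) (h : V a b c) : V a b (c + μ • b) :=
  W.tr (W.sh23 μ (W.tr h))

theorem Adm.sh13 (W : Adm n V) {a b c : A K} (μ : K) (h : V a b c) : V (a + μ • c) b c :=
  W.tr (W.sh μ (W.tr h))

/-- the position of `c` and the divisibility alternative -/
theorem Adm.dl_pos (F : PF K) (W : Adm n V) {u v c : A K} (h : V c u v) (hs : Sg u v)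
    (hm : Mn c u v) (hcv : Com c v) :
    dg c < dg u ∧ (dg c ∣ dg v ∨ ∃ Q ∈ KK v c, dg (u + Q) < dg u) ∧ dg u + dg v + dg c < n := by
  obtain ⟨hcom, hlt, hnd⟩ := hs
  obtain ⟨hc0, hu0, hv0⟩ := W.dg0 h
  have hcu : Com c u := F.ct _ _ _ hv0 hcv hcom.symm
  have hn1 : ¬ dg v ∣ dg c := hm.not_dvd F (rig_mem _ _) hv0 hc0 hcv
  have hn2 : ¬ dg u ∣ dg c := hm.not_dvd F (lef_mem _ _) hu0 hc0 hcu
  have hne1 : dg c ≠ dg v := fun e => hn1 (by rw [e])
  have hne2 : dg c ≠ dg u := fun e => hn2 (by rw [e])
  have hv2 : 2 ≤ dg v := by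
    by_contra hlt2
    have : dg v = 1 := by omega
    apply hnd
    rw [this]
    exact one_dvd _
  have hdiv : dg c ∣ dg u → ∃ Q ∈ KK v c, dg (u + Q) < dg u := by
    intro hd
    obtain ⟨κ, j, -, -, -, hlt2⟩ := exists_red F hc0 hu0 hcu.symm hd
    refine ⟨-(κ • c ^ j), Subalgebra.neg_mem _ (Subalgebra.smul_mem _
      (Subalgebra.pow_mem _ (rig_mem _ _) _) _), ?_⟩
    rwa [← sub_eq_add_neg]
  rcases lt_or_gt_of_ne hne1 with hl | hl
  · -- order c, v, u
    have hred : Red c v u := red_lt hl hlt
    have hV : V c v u := W.tr h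
    have hn := W.lt hV hred
    refine ⟨by omega, ?_, by omega⟩
    rcases W.a5 hV hred hl.le hlt.le (by omega) with ⟨P, hP, hd⟩ | ⟨μ, P, hP, hd⟩ |
      ⟨ν, μ, P, hP, hd⟩
    · right
      exact ⟨P, by rwa [KK_comm], hd⟩
    · by_cases hdv : dg c ∣ dg u
      · exact Or.inr (hdiv hdv)
      · left
        obtain ⟨e1, e2⟩ := low_lf' hd
        obtain ⟨e3, e4⟩ := lf_add_smul_left hlt μ
        have hV1 : V v (u + μ • v) c := W.sh21 μ (W.tr (W.cy (W.cy h)))
        have hsg : Sg (u + μ • v) c :=
          ⟨(Com.of_lf_left e4).mpr hcu.symm, by omega, by rw [e3]; exact hdv⟩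
        have := (W.pr hV1).la' F hsg (W.s2 hV1 hsg) (by rwa [KK_comm]) (by omega)
          ((com_neg_left e2).mpr hcv.symm)
        rwa [e1] at this
    · exfalso
      obtain ⟨e1, e2⟩ := low_lf' hd
      obtain ⟨e3, e4⟩ := lf_add_smul_left (u := u) (v := c) (by omega) μ
      obtain ⟨e5, e6⟩ := lf_add_smul_left hl ν
      have hV1 : V c (u + μ • c) (v + ν • c) := W.sh21 μ (W.sh31 ν h)
      have hsg : Sg (u + μ • c) (v + ν • c) := Sg.congr ⟨hcom, hlt, hnd⟩ e3 e5 e4 e6
      have := (W.pr hV1).lb F hsg (W.s2 hV1 hsg) (by rwa [KK_comm]) (by omega)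
      omega
  · rcases lt_or_gt_of_ne hne2 with hl2 | hl2
    · -- order v, c, u
      have hred : Red v c u := red_lt hl hl2
      have hV : V v c u := W.cy (W.cy h)
      have hn := W.lt hV hred
      refine ⟨by omega, ?_, by omega⟩
      rcases W.a5 hV hred hl.le hl2.le (by omega) with ⟨P, hP, hd⟩ | ⟨μ, P, hP, hd⟩ |
        ⟨ν, μ, P, hP, hd⟩
      · right
        exact ⟨P, hP, hd⟩
      · exfalso
        obtain ⟨e1, e2⟩ := low_lf' hd
        obtain ⟨e3, e4⟩ := lf_add_smul_left hl2 μ
        have hV1 : V c (u + μ • c) v := W.sh21 μ h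
        have hsg : Sg (u + μ • c) v := Sg.congr ⟨hcom, hlt, hnd⟩ e3 rfl e4 rfl
        have := (W.pr hV1).la' F hsg (W.s2 hV1 hsg) (by rwa [KK_comm]) (by omega)
          ((com_neg_left e2).mpr hcv)
        rw [e1] at this
        exact hn1 this
      · by_cases hdv : dg c ∣ dg u
        · exact Or.inr (hdiv hdv)
        · exfalso
          obtain ⟨e1, e2⟩ := low_lf' hd
          obtain ⟨e3, e4⟩ := lf_add_smul_left hlt μ
          obtain ⟨e5, e6⟩ := lf_add_smul_left hl ν
          have hV1 : V v (u + μ • v) (c + ν • v) := W.sh21 μ (W.sh31 ν (W.tr (W.cy (W.cy h))))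
          have hsg : Sg (u + μ • v) (c + ν • v) :=
            Sg.congr ⟨hcu.symm, hl2, hdv⟩ e3 e5 e4 e6
          have := (W.pr hV1).lb F hsg (W.s2 hV1 hsg) (by rwa [KK_comm]) (by omega)
          omega
    · exfalso
      -- order v, u, c
      have hred : Red v u c := red_lt hlt hl2
      have hV : V v u c := W.sw (W.cy h)
      rcases W.a5 hV hred hlt.le hl2.le (by omega) with ⟨P, hP, hd⟩ | ⟨μ, P, hP, hd⟩ |
        ⟨ν, μ, P, hP, hd⟩
      · have := hm P (by rwa [KK_comm])
        omega
      · obtain ⟨e1, e2⟩ := low_lf' hd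
        obtain ⟨e3, e4⟩ := lf_add_smul_left hl2 μ
        have hV1 : V u (c + μ • u) v := W.sw (W.sh μ h)
        have hsg : Sg (c + μ • u) v := Sg.congr ⟨hcv, hl, hn1⟩ e3 rfl e4 rfl
        have := (W.pr hV1).la' F hsg (W.s2 hV1 hsg) (by rwa [KK_comm]) (by omega)
          ((com_neg_left e2).mpr hcom)
        rw [e1] at this
        exact hnd this
      · obtain ⟨e1, e2⟩ := low_lf' hd
        obtain ⟨e3, e4⟩ := lf_add_smul_left hlt ν
        obtain ⟨e5, e6⟩ := lf_add_smul_left (u := c) (v := v) (by omega) μ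
        have hV1 : V v (c + μ • v) (u + ν • v) := W.sh21 μ (W.sh31 ν (W.cy (W.cy h)))
        have hsg : Sg (c + μ • v) (u + ν • v) := Sg.congr ⟨hcu, hl2, hn2⟩ e5 e3 e6 e4
        have := (W.pr hV1).lb F hsg (W.s2 hV1 hsg) (by rwa [KK_comm]) (by omega)
        omega

/-- degree of a difference with smaller element -/
theorem dg_diff {u w : A K} {P0 : A K} (hw : u + P0 = w) (hlt : dg w < dg u) : dg P0 = dg u := by
  have e : P0 = -u + w := by rw [← hw]; abel
  rw [e, dg_add_eq_left (by rw [dg_neg]; exact hlt), dg_neg]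

/-- the exclusion lemma -/
theorem Adm.dl (G : PG K) (W : Adm n V) : ∀ s, DLs V s := by
  have F := G.toPF
  intro s
  induction s with
  | zero => intro u v c _ _ _ _ _ h; exact absurd h (Nat.not_lt_zero _)
  | succ s D =>
    intro u v c h hs hm hcv hX hlt1
    by_cases hlt2 : dg u + dg v + dg c < s
    · exact D u v c h hs hm hcv hX hlt2
    · have hsum : s = dg u + dg v + dg c := by omega
      subst hsum
      obtain ⟨hl, halt, hn⟩ := W.dl_pos F h hs hm hcv
      obtain ⟨hcom, hlt, hnd⟩ := hs
      obtain ⟨hc0, hu0, hv0⟩ := W.dg0 h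
      obtain ⟨b1, b2, b3⟩ := W.brne h
      have hcu : Com c u := F.ct _ _ _ hv0 hcv hcom.symm
      have hn1 : ¬ dg v ∣ dg c := hm.not_dvd F (rig_mem _ _) hv0 hc0 hcv
      have hn2 : ¬ dg u ∣ dg c := hm.not_dvd F (lef_mem _ _) hu0 hc0 hcu
      have b3' : br v u ≠ 0 := fun e => b3 (by rw [br_swap, e, neg_zero])
      have b2' : br v c ≠ 0 := fun e => b2 (by rw [br_swap, e, neg_zero])
      have b1' : br u c ≠ 0 := fun e => b1 (by rw [br_swap, e, neg_zero])
      have hiso := iso F b3' b2' b1' hv0 hu0 hc0 (by rw [dg_br_swap v u]; exact hX)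
      by_cases hlv : dg c ∣ dg v
      · by_cases hlu : dg c ∣ dg u
        · -- case 3
          obtain ⟨κ, i, -, -, -, h1⟩ := exists_red F hc0 hv0 hcv.symm hlv
          obtain ⟨κ', j, -, -, -, h2⟩ := exists_red F hc0 hu0 hcu.symm hlu
          have eP : ∀ (z : K) (m : ℕ), z • c ^ m = aeval c (C z * X ^ m) := by
            intro z m
            rw [map_mul, aeval_C, map_pow, aeval_X, ← Algebra.smul_def]
          have hmem : ∀ (z : K) (m : ℕ) (w : A K), -(z • c ^ m) ∈ KK w c := fun z m w =>
            Subalgebra.neg_mem _ (Subalgebra.smul_mem _ (Subalgebra.pow_mem _ (rig_mem _ _) _) _)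
          have hV1 : V (v - κ • c ^ i) u c := by
            rw [sub_eq_add_neg] at h1 ⊢
            exact W.mv (W.cy (W.tr h)) (hmem _ _ _) (by omega)
          have hV2 : V (u - κ' • c ^ j) (v - κ • c ^ i) c := by
            rw [sub_eq_add_neg u] at h2 ⊢
            exact W.mv (W.sw hV1) (hmem _ _ _) (by omega)
          refine W.zz G (W.sw hV2) (a := v) (b := u) (C κ * X ^ i) (C κ' * X ^ j) ?_ ?_ h1 h2 hlv
            hlu hlt hnd (by omega) (by rw [dg_br_swap v u]; exact hX) ?_
          · rw [← eP]; abel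
          · rw [← eP]; abel
          · have e : dg v + dg u + dg c = dg u + dg v + dg c := by omega
            rw [e]
            exact D
        · -- case 2
          obtain ⟨P0, hP0, hm0, hmin⟩ := exists_min v u c
          obtain ⟨κ, i, -, -, -, h1⟩ := exists_red F hc0 hv0 hcv.symm hlv
          have hlt3 : dg (v + P0) < dg v := by
            refine lt_of_le_of_lt (hmin (-(κ • c ^ i)) (Subalgebra.neg_mem _
              (Subalgebra.smul_mem _ (Subalgebra.pow_mem _ (rig_mem _ _) _) _))) ?_
            rwa [← sub_eq_add_neg]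
          have hVa : V (v + P0) u c := W.mv (W.cy (W.tr h)) hP0 (by omega)
          generalize ha0 : v + P0 = a0 at *
          have hPd := dg_diff ha0 hlt3
          have hprcu : PR c u := W.pr (W.cy (W.cy h))
          have hf1 := hprcu.f1 G (P := P0) (by rwa [KK_comm]) (by
            rw [hPd]
            intro hdv
            have := Nat.le_of_dvd (by omega) hdv
            omega)
          rw [hPd, dg_br_swap c u] at hf1
          have hbr : dg (br a0 u) = dg (br P0 u) := by
            have e : br a0 u = br P0 u + br v u := by rw [← ha0, br_add_left]; abel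
            rw [e, dg_add_eq_left (by rw [dg_br_swap v u]; omega)]
          have hIS : IS u c := fun _ => ⟨hn2, hlu⟩
          by_cases ha : Com a0 u
          · refine dl_sym F W D hVa hIS hcu.symm hm0 ha ?_ (by omega)
            rw [dg_br_swap u a0, hbr]
            omega
          · have hil := il_sym F W hVa hIS hcu.symm hm0 ha
            have hac : ¬ Com a0 c := fun e => ha (F.ct _ _ _ hc0 e hcu)
            have hac2 := (dg_br hac).1
            have hPc : dg (br P0 c) = dg (br a0 c) := by
              have e : br P0 c = br a0 c + - br v c := by rw [← ha0, br_add_left]; abel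
              rw [e, dg_add_eq_left (by rw [dg_neg]; omega)]
            have hpruc : PR u c := W.pr hVa
            obtain ⟨α, q, hPq⟩ := hpruc.n0 G hP0 (by omega)
            have hsum := NT.sum (a := u) (b := c) (fun hh => hlu hh.2) hc0 α q
            rw [← hPq] at hsum
            have hα : α = 0 := by
              by_contra hα
              have := hsum.1
              rw [dg_smul hα] at this
              omega
            subst hα
            rw [zero_smul, zero_add] at hPq
            rw [hPq, br_aeval, dg_zero] at hPc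
            omega
      · -- case 1
        have hred : ∃ Q ∈ KK v c, dg (u + Q) < dg u := halt.resolve_left hlv
        obtain ⟨Q, hQ, hQd⟩ := hred
        obtain ⟨P0, hP0, hm0, hmin⟩ := exists_min u v c
        have hlt3 : dg (u + P0) < dg u := lt_of_le_of_lt (hmin Q hQ) hQd
        have hVb : V (u + P0) v c := W.mv (W.cy h) hP0 (by omega)
        generalize hb0 : u + P0 = b0 at *
        have hPd := dg_diff hb0 hlt3
        have hprcv : PR c v := W.pr (W.sw h)
        have hf1 := hprcv.f1 G (P := P0) (by rwa [KK_comm]) (by rw [hPd]; exact hnd)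
        rw [hPd, dg_br_swap c v] at hf1
        have hbr : dg (br b0 v) = dg (br P0 v) := by
          have e : br b0 v = br P0 v + br u v := by rw [← hb0, br_add_left]; abel
          rw [e, dg_add_eq_left (by omega)]
        have hIS : IS v c := fun _ => ⟨hn1, hlv⟩
        by_cases hb : Com b0 v
        · refine dl_sym F W D hVb hIS hcv.symm hm0 hb ?_ (by omega)
          rw [dg_br_swap v b0, hbr]
          omega
        · have hil := il_sym F W hVb hIS hcv.symm hm0 hb
          have hb2 := (dg_br hb).1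
          omega

end Pool.Agent.H66.TA
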