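import Pool.Agent.H66.TA.Coef

/-!
Degree and leading form in the free algebra, through the homomorphism `x i ↦ x i * T` to the
polynomial ring over the free algebra.
-/

namespace Pool.Agent.H66.TA

open FreeAlgebra Polynomial

variable {K : Type*} [Field K]

/-- The homogenisation homomorphism `x i ↦ x i * T`. -/
noncomputable def tp : A K →ₐ[K] (A K)[X] := lift K (fun i => C (x K i) * X)

@[simp] theorem tp_x (i : Fin 3) : tp (x K i) = C (x K i) * X := by simp [tp, x]

theorem tp_mon (w : FreeMonoid (Fin 3)) : tp (mon (K := K) w) = C (mon w) * X ^ w.length := by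
  induction w using FreeMonoid.inductionOn' with
  | one => simp [mon_one]
  | of_mul i w ih =>
    rw [mon_mul, map_mul, ih, mon_of, tp_x, FreeMonoid.length_mul, FreeMonoid.length_of,
      pow_add, pow_one, C_mul, mul_assoc, ← mul_assoc X, X_mul_C, mul_assoc, mul_assoc]

/-- Evaluation at `T = 1`. -/
noncomputable def ev1 : (A K)[X] →+* A K :=
  eval₂RingHom' (RingHom.id (A K)) 1 (fun a => (Commute.one_right _))

theorem ev1_tp (a : A K) : ev1 (tp a) = a := by
  have h : ∀ r : K, ev1 (algebraMap K (A K)[X] r) = algebraMap K (A K) r := by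
    intro r
    have : algebraMap K (A K)[X] r = C (algebraMap K (A K) r) := rfl
    rw [this]
    simp [ev1]
  let f : A K →ₐ[K] A K :=
    { (ev1 : (A K)[X] →+* A K).comp (tp : A K →ₐ[K] (A K)[X]).toRingHom with
      commutes' := fun r => by
        show ev1 (tp (algebraMap K (A K) r)) = _
        rw [AlgHom.commutes, h] }
  have hf : f = AlgHom.id K (A K) := by
    apply FreeAlgebra.hom_ext
    funext i
    show ev1 (tp (x K i)) = x K i
    rw [tp_x]
    simp [ev1]
  exact DFunLike.congr_fun hf a

theorem tp_injective : Function.Injective (tp : A K → (A K)[X]) := fun a b h => by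
  rw [← ev1_tp a, h, ev1_tp]

theorem tp_eq_zero {a : A K} : tp a = 0 ↔ a = 0 :=
  ⟨fun h => tp_injective (by rw [h, map_zero]), fun h => by rw [h, map_zero]⟩

/-- The total degree (`0` for `0`). -/
noncomputable def dg (a : A K) : ℕ := (tp a).natDegree

/-- The leading form. -/
noncomputable def lf (a : A K) : A K := (tp a).leadingCoeff

/-- The homogeneous component of degree `n`. -/
noncomputable def hc (n : ℕ) : A K →ₗ[K] A K where
  toFun a := (tp a).coeff n
  map_add' a b := by rw [map_add, coeff_add]
  map_smul' c a := by rw [map_smul, coeff_smul, RingHom.id_apply]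

theorem hc_apply (n : ℕ) (a : A K) : hc n a = (tp a).coeff n := rfl

theorem lf_eq_hc (a : A K) : lf a = hc (dg a) a := rfl

theorem lf_eq_zero {a : A K} : lf a = 0 ↔ a = 0 := by
  rw [lf, leadingCoeff_eq_zero, tp_eq_zero]

theorem lf_ne_zero {a : A K} (h : a ≠ 0) : lf a ≠ 0 := fun e => h (lf_eq_zero.mp e)

theorem dg_mul {a b : A K} (ha : a ≠ 0) (hb : b ≠ 0) : dg (a * b) = dg a + dg b := by
  rw [dg, map_mul, natDegree_mul (fun h => ha (tp_eq_zero.mp h)) (fun h => hb (tp_eq_zero.mp h))]
  rfl

theorem lf_mul (a b : A K) : lf (a * b) = lf a * lf b := by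
  rw [lf, map_mul, leadingCoeff_mul]
  rfl

theorem dg_mul_le (a b : A K) : dg (a * b) ≤ dg a + dg b := by
  rw [dg, map_mul]
  exact natDegree_mul_le

theorem dg_pow (a : A K) (n : ℕ) : dg (a ^ n) = n * dg a := by
  rw [dg, map_pow, natDegree_pow]
  rfl

theorem lf_pow (a : A K) (n : ℕ) : lf (a ^ n) = lf a ^ n := by
  rw [lf, map_pow, leadingCoeff_pow]
  rfl

theorem dg_zero : dg (0 : A K) = 0 := by rw [dg, map_zero, natDegree_zero]

theorem dg_neg (a : A K) : dg (-a) = dg a := by rw [dg, map_neg, natDegree_neg]; rfl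

theorem lf_neg (a : A K) : lf (-a) = - lf a := by rw [lf, map_neg, leadingCoeff_neg]; rfl

theorem dg_add_le (a b : A K) : dg (a + b) ≤ max (dg a) (dg b) := by
  rw [dg, map_add]
  exact natDegree_add_le _ _

theorem dg_sub_le (a b : A K) : dg (a - b) ≤ max (dg a) (dg b) := by
  rw [dg, map_sub]
  exact natDegree_sub_le _ _

theorem dg_smul {c : K} (hc : c ≠ 0) (a : A K) : dg (c • a) = dg a := by
  rw [dg, map_smul, dg]
  apply le_antisymm
  · exact natDegree_smul_le _ _
  · conv_lhs => rw [← inv_smul_smul₀ hc (tp a)]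
    exact natDegree_smul_le _ _

theorem dg_smul_le (c : K) (a : A K) : dg (c • a) ≤ dg a := by
  rw [dg, map_smul]
  exact natDegree_smul_le _ _

theorem lf_smul (c : K) (a : A K) : lf (c • a) = c • lf a := by
  by_cases hc : c = 0
  · subst hc
    rw [zero_smul, zero_smul, lf_eq_zero]
  · rw [lf_eq_hc, dg_smul hc, map_smul, ← lf_eq_hc]

theorem dg_algebraMap (c : K) : dg (algebraMap K (A K) c) = 0 := by
  rw [dg, AlgHom.commutes]
  exact natDegree_C _

theorem dg_one : dg (1 : A K) = 0 := by rw [dg, map_one, natDegree_one]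

theorem dg_x (i : Fin 3) : dg (x K i) = 1 := by
  rw [dg, tp_x]
  have : x K i ≠ 0 := by
    rw [← mon_of]
    intro h
    have h2 := congrArg (co (FreeMonoid.of i)) h
    rw [co_mon, if_pos rfl, map_zero] at h2
    exact one_ne_zero h2
  exact natDegree_C_mul_X _ this

/-- The filtration by degree. -/
noncomputable def Fil (n : ℕ) : Submodule K (A K) where
  carrier := {a | dg a ≤ n}
  add_mem' {a b} ha hb := (dg_add_le a b).trans (max_le ha hb)
  zero_mem' := by show dg 0 ≤ n; rw [dg_zero]; exact Nat.zero_le n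
  smul_mem' c a ha := (dg_smul_le c a).trans ha

theorem mem_Fil {n : ℕ} {a : A K} : a ∈ Fil n ↔ dg a ≤ n := Iff.rfl

theorem hc_eq_zero_of_lt {n : ℕ} {a : A K} (h : dg a < n) : hc n a = 0 :=
  coeff_eq_zero_of_natDegree_lt h

theorem tp_hc (n : ℕ) (a : A K) : tp (hc n a) = C (hc n a) * X ^ n := by
  have h : ∀ w, (tp.toLinearMap.comp (hc n)) (mon (K := K) w) =
      (((monomial n : A K →ₗ[A K] (A K)[X]).restrictScalars K).comp (hc n)) (mon w) := by
    intro w
    simp only [LinearMap.comp_apply, AlgHom.toLinearMap_apply, LinearMap.restrictScalars_apply,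
      hc_apply, tp_mon, coeff_C_mul, coeff_X_pow]
    split_ifs with h
    · subst h
      rw [mul_one, tp_mon, C_mul_X_pow_eq_monomial]
    · rw [mul_zero, map_zero, map_zero]
  have h2 := LinearMap.congr_fun (lin_ext h) a
  rw [C_mul_X_pow_eq_monomial]
  exact h2

/-- `a` is homogeneous of degree `n`. -/
def Hom (n : ℕ) (a : A K) : Prop := tp a = C a * X ^ n

theorem hom_hc (n : ℕ) (a : A K) : Hom n (hc n a) := tp_hc n a

theorem hom_lf (a : A K) : Hom (dg a) (lf a) := tp_hc _ _

theorem Hom.dg {n : ℕ} {a : A K} (h : Hom n a) (ha : a ≠ 0) : dg a = n := by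
  rw [TA.dg, h, natDegree_C_mul_X_pow _ _ ha]

theorem Hom.lf {n : ℕ} {a : A K} (h : Hom n a) : lf a = a := by
  rw [TA.lf, h, leadingCoeff_C_mul_X_pow]

theorem Hom.mul {m n : ℕ} {a b : A K} (ha : Hom m a) (hb : Hom n b) : Hom (m + n) (a * b) := by
  rw [Hom, map_mul, ha, hb, C_mul, pow_add, mul_assoc, mul_assoc, ← mul_assoc (X ^ m),
    X_pow_mul_C, mul_assoc]

theorem Hom.add {n : ℕ} {a b : A K} (ha : Hom n a) (hb : Hom n b) : Hom n (a + b) := by
  rw [Hom, map_add, ha, hb, C_add, add_mul]

theorem Hom.smul {n : ℕ} {a : A K} (c : K) (ha : Hom n a) : Hom n (c • a) := by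
  rw [Hom, map_smul, ha, ← smul_C, smul_mul_assoc]

theorem dg_lf {a : A K} (h : a ≠ 0) : dg (lf a) = dg a := (hom_lf a).dg (lf_ne_zero h)

theorem lf_lf (a : A K) : lf (lf a) = lf a := (hom_lf a).lf

/-- subtracting elements with the same leading form lowers the degree -/
theorem dg_sub_lt {a b : A K} (h : dg a = dg b) (hl : lf a = lf b) (h0 : dg a ≠ 0) :
    dg (a - b) < dg a := by
  rw [dg, map_sub]
  by_contra hlt
  rw [not_lt] at hlt
  have hle : (tp a - tp b).natDegree ≤ dg a := by
    refine (natDegree_sub_le _ _).trans ?_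
    exact max_le (le_refl _) (le_of_eq h.symm)
  have he : (tp a - tp b).natDegree = dg a := le_antisymm hle hlt
  have h1 : (tp a - tp b).leadingCoeff = 0 := by
    rw [leadingCoeff, he, coeff_sub, sub_eq_zero]
    have e1 : (tp a).coeff (dg a) = lf a := rfl
    have e2 : (tp b).coeff (dg b) = lf b := rfl
    rw [e1, h, e2, hl]
  rw [leadingCoeff_eq_zero] at h1
  rw [h1, natDegree_zero] at he
  exact h0 he.symm

theorem dg_add_eq_left {a b : A K} (h : dg b < dg a) : dg (a + b) = dg a := by
  rw [dg, map_add]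
  exact natDegree_add_eq_left_of_natDegree_lt h

theorem lf_add_left {a b : A K} (h : dg b < dg a) : lf (a + b) = lf a := by
  rw [lf_eq_hc, dg_add_eq_left h, map_add, hc_eq_zero_of_lt h, add_zero]
  rfl

theorem dg_eq_zero {a : A K} : dg a = 0 ↔ ∃ c : K, a = algebraMap K (A K) c := by
  constructor
  · intro h
    have h1 : ∀ w, co w (hc 0 a) = if w = 1 then co w a else 0 := by
      intro w
      have : ∀ v, ((co w).comp (hc 0)) (mon (K := K) v) =
          ((if w = 1 then (1 : K) else 0) • co w) (mon v) := by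
        intro v
        rw [LinearMap.comp_apply, hc_apply, tp_mon, coeff_C_mul, coeff_X_pow, LinearMap.smul_apply,
          co_mon]
        by_cases hv : v = w
        · subst hv
          by_cases hw : v = 1
          · subst hw
            simp [co_mon]
          · have hne : ¬ (0 = v.length) := by
              intro e
              exact hw (FreeMonoid.length_eq_zero.mp e.symm)
            simp [hw, hne]
        · by_cases hw : 0 = v.length
          · simp [hw.symm, co_mon, hv]
          · simp [hw, hv]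
      have h2 := LinearMap.congr_fun (lin_ext this) a
      rw [LinearMap.comp_apply, LinearMap.smul_apply] at h2
      rw [h2]
      split_ifs <;> simp
    have h3 : hc 0 a = a := by
      have : tp a = C (hc 0 a) := by
        rw [hc_apply]
        exact eq_C_of_natDegree_eq_zero h
      have h4 := congrArg ev1 this
      rw [ev1_tp] at h4
      refine Eq.trans ?_ h4.symm
      simp [ev1]
    refine ⟨co 1 a, ?_⟩
    apply eq_of_co
    intro w
    have h5 := h1 w
    rw [h3] at h5
    rw [h5, Algebra.algebraMap_eq_smul_one, map_smul, ← mon_one, co_mon]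
    by_cases hw : w = 1
    · subst hw; simp
    · have : ¬ (1 = w) := fun e => hw e.symm
      simp [hw, this]
  · rintro ⟨c, rfl⟩
    exact dg_algebraMap c

end Pool.Agent.H66.TA
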