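import Pool.Agent.H66.TA.Top

/-!
From uniqueness to the group automorphism.
-/

namespace Pool.Agent.H66.TA

open FreeAlgebra

variable {K : Type*} [Field K]

/-- Permutation of the generators. -/
def permA (s : Equiv.Perm (Fin 3)) : A K ≃ₐ[K] A K :=
  AlgEquiv.ofAlgHom (lift K (fun i => x K (s i))) (lift K (fun i => x K (s.symm i)))
    (by apply FreeAlgebra.hom_ext; funext i; simp [x])
    (by apply FreeAlgebra.hom_ext; funext i; simp [x])

@[simp] theorem permA_x (s : Equiv.Perm (Fin 3)) (i : Fin 3) :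
    permA (K := K) s (x K i) = x K (s i) := by simp [permA, x]

theorem permA_linear (s : Equiv.Perm (Fin 3)) : IsLinear K (permA s) := by
  intro i
  rw [permA_x]
  exact Submodule.subset_span ⟨_, rfl⟩

theorem map_adjoin_mem {s t : Set (A K)} (g : A K →ₐ[K] A K) (h : ∀ a ∈ s, g a ∈ Algebra.adjoin K t)
    {P : A K} (hP : P ∈ Algebra.adjoin K s) : g P ∈ Algebra.adjoin K t := by
  induction hP using Algebra.adjoin_induction with
  | mem y hy => exact h y hy
  | algebraMap r => rw [g.commutes]; exact Subalgebra.algebraMap_mem _ r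
  | add y z _ _ hy hz => rw [map_add]; exact Subalgebra.add_mem _ hy hz
  | mul y z _ _ hy hz => rw [map_mul]; exact Subalgebra.mul_mem _ hy hz

theorem el_elementary (P : A K) (h : P ∈ (B : Subalgebra K (A K))) : IsElementary K (el P h) := by
  refine ⟨0, ?_, P, ?_, el_0 P h⟩
  · intro j hj
    fin_cases j
    · exact absurd rfl hj
    · exact el_1 P h
    · exact el_2 P h
  · have : ({x K 1, x K 2} : Set (A K)) ⊆ {a : A K | ∃ j, j ≠ 0 ∧ a = x K j} := by
      rintro a (rfl | rfl)
      · exact ⟨1, by decide, rfl⟩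
      · exact ⟨2, by decide, rfl⟩
    exact Algebra.adjoin_mono this h

theorem permA_mul (s t : Equiv.Perm (Fin 3)) : permA (K := K) s * permA t = permA (s * t) := by
  apply aut_ext3
  intro i
  show permA s (permA t (x K i)) = _
  simp

theorem permA_one : permA (K := K) 1 = 1 := by
  apply aut_ext3
  intro i
  simp

/-- Every elementary automorphism is conjugate to some `el`. -/
theorem elementary_conj {g : A K ≃ₐ[K] A K} (hg : IsElementary K g) :
    ∃ (s : Equiv.Perm (Fin 3)) (P : A K) (h : P ∈ (B : Subalgebra K (A K))),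
      g = permA s * el P h * permA s := by
  obtain ⟨i, hi, P, hP, hx⟩ := hg
  have hsw : ∀ j, j ≠ 0 → Equiv.swap 0 i j ≠ i := by
    intro j hj h
    apply hj
    have := congrArg (Equiv.swap 0 i) h
    rwa [Equiv.swap_apply_self, Equiv.swap_apply_right] at this
  have hsw2 : ∀ j, j ≠ i → Equiv.swap 0 i j ≠ 0 := by
    intro j hj h
    apply hj
    have := congrArg (Equiv.swap 0 i) h
    rwa [Equiv.swap_apply_self, Equiv.swap_apply_left] at this
  have hB : permA (Equiv.swap 0 i) P ∈ (B : Subalgebra K (A K)) := by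
    refine map_adjoin_mem ((permA (Equiv.swap 0 i) : A K ≃ₐ[K] A K) : A K →ₐ[K] A K) ?_ hP
    rintro a ⟨j, hj, rfl⟩
    show permA (Equiv.swap 0 i) (x K j) ∈ (B : Subalgebra K (A K))
    rw [permA_x]
    have h := hsw2 j hj
    generalize Equiv.swap 0 i j = k at h
    fin_cases k
    · exact absurd rfl h
    · exact x1_mem
    · exact x2_mem
  refine ⟨Equiv.swap 0 i, permA (Equiv.swap 0 i) P, hB, ?_⟩
  apply aut_ext3
  intro j
  show g (x K j) = permA (Equiv.swap 0 i) (el _ hB (permA (Equiv.swap 0 i) (x K j)))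
  rw [permA_x]
  by_cases hj : j = i
  · subst hj
    rw [Equiv.swap_apply_right, el_0, map_add, permA_x, Equiv.swap_apply_left, hx]
    congr 1
    have e : permA (K := K) (Equiv.swap 0 j) * permA (Equiv.swap 0 j) = 1 := by
      rw [permA_mul, Equiv.swap_mul_self, permA_one]
    exact (DFunLike.congr_fun e P).symm
  · have h := hsw2 j hj
    have h2 : el _ hB (x K (Equiv.swap 0 i j)) = x K (Equiv.swap 0 i j) := by
      generalize Equiv.swap 0 i j = k at h
      fin_cases k
      · exact absurd rfl h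
      · exact el_1 _ hB
      · exact el_2 _ hB
    rw [h2, permA_x, Equiv.swap_apply_self, hi j hj]

variable [CharZero K]

theorem Gen.fst {l : K} {g h : A K ≃ₐ[K] A K} (hg : Gen l g h) : g ∈ TAut K := by
  cases hg with
  | lin g h => exact Subgroup.subset_closure (Or.inl h)
  | el P h => exact Subgroup.subset_closure (Or.inr (el_elementary P h))

theorem Gen.snd {l : K} {g h : A K ≃ₐ[K] A K} (hg : Gen l g h) : h ∈ TAut K := by
  cases hg with
  | lin g h => exact Subgroup.subset_closure (Or.inl h)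
  | el P h => exact Subgroup.subset_closure (Or.inr (el_elementary _ _))

theorem Gam_fst {l : K} {p} (hp : p ∈ Gam l) : p.1 ∈ TAut K := by
  induction hp using Subgroup.closure_induction with
  | mem p hp => exact Gen.fst hp
  | one => exact Subgroup.one_mem _
  | mul p q _ _ h1 h2 => exact Subgroup.mul_mem _ h1 h2
  | inv p _ h1 => exact Subgroup.inv_mem _ h1

theorem Gam_snd {l : K} {p} (hp : p ∈ Gam l) : p.2 ∈ TAut K := by
  induction hp using Subgroup.closure_induction with
  | mem p hp => exact Gen.snd hp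
  | one => exact Subgroup.one_mem _
  | mul p q _ _ h1 h2 => exact Subgroup.mul_mem _ h1 h2
  | inv p _ h1 => exact Subgroup.inv_mem _ h1

theorem Gam_surj (l : K) {g : A K ≃ₐ[K] A K} (hg : g ∈ TAut K) : ∃ h, (g, h) ∈ Gam l := by
  induction hg using Subgroup.closure_induction with
  | mem g hg =>
    rcases hg with hg | hg
    · exact ⟨g, Subgroup.subset_closure (Gen.lin g hg)⟩
    · obtain ⟨s, P, hP, rfl⟩ := elementary_conj hg
      refine ⟨permA s * el (L l P) (L_mem_B l hP) * permA s, ?_⟩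
      have h1 : (permA s, permA s) ∈ Gam l := Subgroup.subset_closure (Gen.lin _ (permA_linear s))
      have h2 : (el P hP, el (L l P) (L_mem_B l hP)) ∈ Gam l :=
        Subgroup.subset_closure (Gen.el P hP)
      exact Subgroup.mul_mem _ (Subgroup.mul_mem _ h1 h2) h1
  | one => exact ⟨1, Subgroup.one_mem _⟩
  | mul a b _ _ h1 h2 =>
    obtain ⟨c, hc⟩ := h1
    obtain ⟨d, hd⟩ := h2
    exact ⟨c * d, Subgroup.mul_mem _ hc hd⟩
  | inv a _ h1 =>
    obtain ⟨c, hc⟩ := h1
    exact ⟨c⁻¹, Subgroup.inv_mem _ hc⟩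

theorem Gam_swap {l : K} (hl : l ≠ 0) {p} (hp : p ∈ Gam l) : (p.2, p.1) ∈ Gam l⁻¹ := by
  induction hp using Subgroup.closure_induction with
  | mem p hp =>
    apply Subgroup.subset_closure
    show Gen l⁻¹ p.2 p.1
    obtain ⟨g, h⟩ := p
    cases hp with
    | lin g h => exact Gen.lin g h
    | el P h =>
      have h1 := Gen.el (l := l⁻¹) (L l P) (L_mem_B l h)
      have h2 : L l⁻¹ (L l P) = P := by rw [L_L, inv_mul_cancel₀ hl, L_one]
      simp only [h2] at h1
      exact h1
  | one => exact Subgroup.one_mem _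
  | mul p q _ _ h1 h2 => exact Subgroup.mul_mem _ h1 h2
  | inv p _ h1 => exact Subgroup.inv_mem _ h1

/-- The uniqueness statement. -/
def Uniq (K : Type*) [Field K] : Prop :=
  ∀ l : K, l ≠ 0 → ∀ h : A K ≃ₐ[K] A K, ((1 : A K ≃ₐ[K] A K), h) ∈ Gam l → h = 1

theorem exists_phi (U : Uniq K) {l : K} (hl : l ≠ 0) :
    ∃ φ : TAut K ≃* TAut K, ∀ g h (hgh : (g, h) ∈ Gam l),
      φ ⟨g, Gam_fst hgh⟩ = ⟨h, Gam_snd hgh⟩ := by
  let p1 : Gam l →* TAut K :=
    { toFun := fun p => ⟨p.1.1, Gam_fst p.2⟩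
      map_one' := rfl
      map_mul' := fun _ _ => rfl }
  let p2 : Gam l →* TAut K :=
    { toFun := fun p => ⟨p.1.2, Gam_snd p.2⟩
      map_one' := rfl
      map_mul' := fun _ _ => rfl }
  have b1 : Function.Bijective p1 := by
    constructor
    · rw [injective_iff_map_eq_one]
      rintro ⟨⟨g, h⟩, hp⟩ e
      have e1 : g = 1 := congrArg Subtype.val e
      subst e1
      have e2 : h = 1 := U l hl h hp
      subst e2
      rfl
    · rintro ⟨g, hg⟩
      obtain ⟨h, hh⟩ := Gam_surj l hg
      exact ⟨⟨(g, h), hh⟩, rfl⟩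
  have b2 : Function.Bijective p2 := by
    constructor
    · rw [injective_iff_map_eq_one]
      rintro ⟨⟨g, h⟩, hp⟩ e
      have e1 : h = 1 := congrArg Subtype.val e
      subst e1
      have e2 : g = 1 := U l⁻¹ (inv_ne_zero hl) g (Gam_swap hl hp)
      subst e2
      rfl
    · rintro ⟨h, hh⟩
      obtain ⟨g, hg⟩ := Gam_surj l⁻¹ hh
      have := Gam_swap (inv_ne_zero hl) hg
      rw [inv_inv] at this
      exact ⟨⟨(g, h), this⟩, rfl⟩
  refine ⟨(MulEquiv.ofBijective p1 b1).symm.trans (MulEquiv.ofBijective p2 b2), ?_⟩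
  intro g h hgh
  have : (MulEquiv.ofBijective p1 b1).symm ⟨g, Gam_fst hgh⟩ = ⟨(g, h), hgh⟩ := by
    rw [MulEquiv.symm_apply_eq]
    rfl
  rw [MulEquiv.trans_apply, this]
  rfl

end Pool.Agent.H66.TA
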