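import Pool.Agent.H66.TA.Lev
import Pool.Agent.H66.TA.Top2

/-!
Affine automorphisms, vertices, planes, lines and their levels.
-/

namespace Pool.Agent.H66.TA

open FreeAlgebra Polynomial Module

variable {K : Type*} [Field K]

/-- Affine forms in all the generators. -/
def Af : Submodule K (A K) := Submodule.span K {1, x K 0, x K 1, x K 2}

/-- Affine forms in the last two generators. -/
def Pl : Submodule K (A K) := Submodule.span K {1, x K 1, x K 2}

/-- Affine forms in the last generator. -/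
def Ln : Submodule K (A K) := Submodule.span K {1, x K 2}

theorem mem_Af {u : A K} : u ∈ (Af : Submodule K (A K)) ↔
    ∃ d a b c : K, u = d • 1 + (a • x K 0 + (b • x K 1 + c • x K 2)) := by
  simp only [Af, Submodule.mem_span_insert, Submodule.mem_span_singleton]
  constructor
  · rintro ⟨d, z, ⟨a, z', ⟨b, z'', ⟨c, rfl⟩, rfl⟩, rfl⟩, rfl⟩
    exact ⟨d, a, b, c, rfl⟩
  · rintro ⟨d, a, b, c, rfl⟩
    exact ⟨d, _, ⟨a, _, ⟨b, _, ⟨c, rfl⟩, rfl⟩, rfl⟩, rfl⟩

theorem mem_Pl {u : A K} : u ∈ (Pl : Submodule K (A K)) ↔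
    ∃ d b c : K, u = d • 1 + (b • x K 1 + c • x K 2) := by
  simp only [Pl, Submodule.mem_span_insert, Submodule.mem_span_singleton]
  constructor
  · rintro ⟨d, z, ⟨b, z'', ⟨c, rfl⟩, rfl⟩, rfl⟩
    exact ⟨d, b, c, rfl⟩
  · rintro ⟨d, b, c, rfl⟩
    exact ⟨d, _, ⟨b, _, ⟨c, rfl⟩, rfl⟩, rfl⟩

theorem mem_Ln {u : A K} : u ∈ (Ln : Submodule K (A K)) ↔ ∃ d c : K, u = d • 1 + c • x K 2 := by
  simp only [Ln, Submodule.mem_span_insert, Submodule.mem_span_singleton]
  constructor
  · rintro ⟨d, z, ⟨c, rfl⟩, rfl⟩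
    exact ⟨d, c, rfl⟩
  · rintro ⟨d, c, rfl⟩
    exact ⟨d, _, ⟨c, rfl⟩, rfl⟩

theorem co_one_one : co (K := K) 1 (1 : A K) = 1 := by
  have := co_mon (K := K) 1 1
  rwa [mon_one, if_pos rfl] at this

theorem co_of_one (i : Fin 3) : co (K := K) (FreeMonoid.of i) (1 : A K) = 0 := by
  rw [← mon_one, co_mon, if_neg]
  intro h
  have := congrArg FreeMonoid.length h
  simp at this

theorem co_of_x (i j : Fin 3) : co (K := K) (FreeMonoid.of i) (x K j) = if i = j then 1 else 0 := by
  rw [← mon_of, co_mon]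
  by_cases h : i = j
  · subst h; simp
  · rw [if_neg h, if_neg]
    intro e
    exact h (FreeMonoid.of_injective e).symm

theorem co_one_x (j : Fin 3) : co (K := K) 1 (x K j) = 0 := by
  rw [← mon_of, co_mon, if_neg]
  intro h
  have := congrArg FreeMonoid.length h
  simp at this

/-- the coefficients of an affine form -/
theorem co_aff (d a b c : K) :
    co 1 (d • (1 : A K) + (a • x K 0 + (b • x K 1 + c • x K 2))) = d ∧
    co (FreeMonoid.of 0) (d • (1 : A K) + (a • x K 0 + (b • x K 1 + c • x K 2))) = a ∧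
    co (FreeMonoid.of 1) (d • (1 : A K) + (a • x K 0 + (b • x K 1 + c • x K 2))) = b ∧
    co (FreeMonoid.of 2) (d • (1 : A K) + (a • x K 0 + (b • x K 1 + c • x K 2))) = c := by
  simp only [map_add, map_smul, co_one_one, co_of_one, co_of_x, co_one_x, smul_eq_mul]
  simp

theorem one_mem_Ln : (1 : A K) ∈ (Ln : Submodule K (A K)) := Submodule.subset_span (by simp)

theorem Ln_le_Pl : (Ln : Submodule K (A K)) ≤ Pl := by
  apply Submodule.span_mono
  rintro a (rfl | rfl) <;> simp

theorem Pl_le_Af : (Pl : Submodule K (A K)) ≤ Af := by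
  apply Submodule.span_mono
  rintro a (rfl | rfl | rfl) <;> simp

theorem Ln_le_Af : (Ln : Submodule K (A K)) ≤ Af := Ln_le_Pl.trans Pl_le_Af

theorem x_mem_Af (i : Fin 3) : x K i ∈ (Af : Submodule K (A K)) := by
  apply Submodule.subset_span
  fin_cases i <;> simp

theorem x0_not_mem : x K 0 ∉ (Pl : Submodule K (A K)) := by
  intro h
  obtain ⟨d, b, c, h⟩ := mem_Pl.mp h
  have := congrArg (co (FreeMonoid.of 0)) h
  simp [co_of_x, co_of_one] at this

theorem x1_mem_Pl : x K 1 ∈ (Pl : Submodule K (A K)) := Submodule.subset_span (by simp)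

theorem x2_mem_Ln : x K 2 ∈ (Ln : Submodule K (A K)) := Submodule.subset_span (by simp)

theorem x1_not_mem : x K 1 ∉ (Ln : Submodule K (A K)) := by
  intro h
  obtain ⟨d, c, h⟩ := mem_Ln.mp h
  have := congrArg (co (FreeMonoid.of 1)) h
  simp [co_of_x, co_of_one] at this

theorem x2_not_mem : x K 2 ∉ (Submodule.span K {(1 : A K)}) := by
  intro h
  obtain ⟨d, h⟩ := Submodule.mem_span_singleton.mp h
  have := congrArg (co (FreeMonoid.of 2)) h
  simp [co_of_x, co_of_one] at this

theorem Ln_sup : (Submodule.span K {(1 : A K)}) ⊔ Submodule.span K {x K 2} = Ln := by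
  rw [Ln, ← Submodule.span_union]
  rfl

theorem Pl_sup : (Ln : Submodule K (A K)) ⊔ Submodule.span K {x K 1} = Pl := by
  rw [Ln, Pl, ← Submodule.span_union]
  congr 1
  ext a
  simp only [Set.mem_union, Set.mem_insert_iff, Set.mem_singleton_iff]
  tauto

theorem Af_sup : (Pl : Submodule K (A K)) ⊔ Submodule.span K {x K 0} = Af := by
  rw [Pl, Af, ← Submodule.span_union]
  congr 1
  ext a
  simp only [Set.mem_union, Set.mem_insert_iff, Set.mem_singleton_iff]
  tauto

instance : FiniteDimensional K (Submodule.span K {(1 : A K)}) :=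
  FiniteDimensional.span_of_finite K (Set.finite_singleton _)

instance : FiniteDimensional K (Ln : Submodule K (A K)) :=
  FiniteDimensional.span_of_finite K (by simp)

instance : FiniteDimensional K (Pl : Submodule K (A K)) :=
  FiniteDimensional.span_of_finite K (by simp)

instance : FiniteDimensional K (Af : Submodule K (A K)) :=
  FiniteDimensional.span_of_finite K (by simp)

theorem finrank_one : finrank K (Submodule.span K {(1 : A K)}) = 1 :=
  finrank_span_singleton one_ne_zero

theorem finrank_Ln : finrank K (Ln : Submodule K (A K)) = 2 := by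
  rw [← Ln_sup, finrank_sup_one x2_not_mem, finrank_one]

theorem finrank_Pl : finrank K (Pl : Submodule K (A K)) = 3 := by
  rw [← Pl_sup, finrank_sup_one x1_not_mem, finrank_Ln]

theorem finrank_Af : finrank K (Af : Submodule K (A K)) = 4 := by
  rw [← Af_sup, finrank_sup_one x0_not_mem, finrank_Pl]

/-- The image of a subspace under an automorphism. -/
def im (g : A K ≃ₐ[K] A K) (V : Submodule K (A K)) : Submodule K (A K) :=
  V.map g.toLinearEquiv.toLinearMap

theorem mem_im {g : A K ≃ₐ[K] A K} {V : Submodule K (A K)} {v : A K} :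
    v ∈ im g V ↔ ∃ u ∈ V, g u = v := Iff.rfl

theorem im_mem {g : A K ≃ₐ[K] A K} {V : Submodule K (A K)} {v : A K} :
    g v ∈ im g V ↔ v ∈ V := by
  constructor
  · rintro ⟨u, hu, h⟩
    have : u = v := g.injective h
    exact this ▸ hu
  · intro h
    exact ⟨v, h, rfl⟩

theorem im_mono {g : A K ≃ₐ[K] A K} {V W : Submodule K (A K)} (h : V ≤ W) : im g V ≤ im g W :=
  Submodule.map_mono h

theorem im_mul (g h : A K ≃ₐ[K] A K) (V : Submodule K (A K)) : im (g * h) V = im g (im h V) := by
  rw [im, im, im, ← Submodule.map_comp]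
  rfl

theorem im_one (V : Submodule K (A K)) : im (1 : A K ≃ₐ[K] A K) V = V := Submodule.map_id V

instance (g : A K ≃ₐ[K] A K) (V : Submodule K (A K)) [FiniteDimensional K V] :
    FiniteDimensional K (im g V) := by
  unfold im
  infer_instance

theorem finrank_im (g : A K ≃ₐ[K] A K) (V : Submodule K (A K)) :
    finrank K (im g V) = finrank K V :=
  LinearEquiv.finrank_map_eq g.toLinearEquiv V

theorem im_span_one (g : A K ≃ₐ[K] A K) :
    im g (Submodule.span K {(1 : A K)}) = Submodule.span K {1} := by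
  rw [im, Submodule.map_span, Set.image_singleton]
  congr 2
  exact map_one g

/-- The level of the vertex of `g`. -/
noncomputable def lv (g : A K ≃ₐ[K] A K) : ℕ := lev (im g Af)

theorem lv_eq (g : A K ≃ₐ[K] A K) : lv g = lev (im g Pl) + cf (im g Af) (im g Pl) :=
  lev_step (im_mono Pl_le_Af) (by rw [finrank_im, finrank_im, finrank_Af, finrank_Pl])

theorem lvP_eq (g : A K ≃ₐ[K] A K) : lev (im g Pl) = lev (im g Ln) + cf (im g Pl) (im g Ln) :=
  lev_step (im_mono Ln_le_Pl) (by rw [finrank_im, finrank_im, finrank_Pl, finrank_Ln])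

theorem lvL_eq (g : A K ≃ₐ[K] A K) : lev (im g Ln) = cf (im g Ln) (Submodule.span K {1}) := by
  have h := lev_step (V := im g Ln) (W := im g (Submodule.span K {(1 : A K)}))
    (im_mono (by rw [Submodule.span_singleton_le_iff_mem]; exact one_mem_Ln))
    (by rw [finrank_im, finrank_im, finrank_Ln, finrank_one])
  rw [im_span_one, lev_one, zero_add] at h
  exact h

theorem cf0_le (g : A K ≃ₐ[K] A K) {u : A K} (hu : u ∈ (Pl : Submodule K (A K))) :
    cf (im g Af) (im g Pl) ≤ dg (g (x K 0) + g u) := by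
  rw [← map_add]
  apply cf_le
  · rw [im_mem]
    exact Af.add_mem (x_mem_Af 0) (Pl_le_Af hu)
  · rw [im_mem]
    intro h
    apply x0_not_mem (K := K)
    have := Pl.sub_mem h hu
    rwa [add_sub_cancel_right] at this

theorem cf1_le (g : A K ≃ₐ[K] A K) {u : A K} (hu : u ∈ (Ln : Submodule K (A K))) :
    cf (im g Pl) (im g Ln) ≤ dg (g (x K 1) + g u) := by
  rw [← map_add]
  apply cf_le
  · rw [im_mem]
    exact Pl.add_mem x1_mem_Pl (Ln_le_Pl hu)
  · rw [im_mem]
    intro h
    apply x1_not_mem (K := K)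
    have := Ln.sub_mem h hu
    rwa [add_sub_cancel_right] at this

theorem dg_add_const (a : A K) (c : K) : dg (a + c • 1) = dg a := by
  have h1 : dg (c • (1 : A K)) = 0 := by
    rw [← Algebra.algebraMap_eq_smul_one]; exact dg_algebraMap c
  by_cases h : dg a = 0
  · obtain ⟨d, rfl⟩ := dg_eq_zero.mp h
    rw [← Algebra.algebraMap_eq_smul_one, ← map_add, dg_algebraMap, dg_algebraMap]
  · exact dg_add_eq_left (by rw [h1]; exact Nat.pos_of_ne_zero h)

theorem lvL_eq' (g : A K ≃ₐ[K] A K) : lev (im g Ln) = dg (g (x K 2)) := by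
  rw [lvL_eq]
  apply le_antisymm
  · apply cf_le
    · rw [im_mem]; exact x2_mem_Ln
    · rw [← im_span_one g, im_mem]
      exact x2_not_mem
  · have hn : ¬ im g Ln ≤ Submodule.span K {(1 : A K)} := by
      intro h
      have := h (im_mem.mpr x2_mem_Ln)
      rw [← im_span_one g, im_mem] at this
      exact x2_not_mem this
    obtain ⟨v, hv, hv1, hd⟩ := cf_spec hn
    rw [← hd]
    obtain ⟨u, hu, rfl⟩ := mem_im.mp hv
    obtain ⟨d, c, rfl⟩ := mem_Ln.mp hu
    have hc : c ≠ 0 := by
      rintro rfl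
      apply hv1
      rw [zero_smul, add_zero, map_smul, map_one]
      exact Submodule.smul_mem _ _ (Submodule.mem_span_singleton_self 1)
    rw [map_add, map_smul, map_smul, map_one, add_comm, dg_add_const, dg_smul hc]

/-- the level is at most the sum of the degrees of a frame -/
theorem lv_le (g : A K ≃ₐ[K] A K) : lv g ≤ dg (g (x K 0)) + dg (g (x K 1)) + dg (g (x K 2)) := by
  rw [lv_eq, lvP_eq, lvL_eq']
  have h0 := cf0_le g (Pl.zero_mem)
  have h1 := cf1_le g (Ln.zero_mem)
  rw [map_zero, add_zero] at h0 h1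
  omega

/-- The group of affine automorphisms. -/
def AffG : Subgroup (A K ≃ₐ[K] A K) where
  carrier := {a | im a Af = Af}
  mul_mem' {a b} ha hb := by
    show im (a * b) Af = Af
    rw [im_mul, hb, ha]
  one_mem' := im_one _
  inv_mem' {a} ha := by
    show im a⁻¹ Af = Af
    have ha' : im a Af = Af := ha
    conv_lhs => rw [← ha', ← im_mul, inv_mul_cancel, im_one]

theorem mem_AffG {a : A K ≃ₐ[K] A K} : a ∈ (AffG : Subgroup (A K ≃ₐ[K] A K)) ↔ im a Af = Af :=
  Iff.rfl

theorem mem_AffG_iff {a : A K ≃ₐ[K] A K} :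
    a ∈ (AffG : Subgroup (A K ≃ₐ[K] A K)) ↔ ∀ i, a (x K i) ∈ (Af : Submodule K (A K)) := by
  rw [mem_AffG]
  constructor
  · intro h i
    rw [← h, im_mem]
    exact x_mem_Af i
  · intro h
    apply Submodule.eq_of_le_of_finrank_eq
    · rintro v ⟨u, hu, rfl⟩
      obtain ⟨d, a', b, c, rfl⟩ := mem_Af.mp hu
      show a _ ∈ _
      rw [map_add, map_add, map_add, map_smul, map_smul, map_smul, map_smul, map_one]
      exact Af.add_mem (Af.smul_mem _ (Submodule.subset_span (by simp)))
        (Af.add_mem (Af.smul_mem _ (h 0)) (Af.add_mem (Af.smul_mem _ (h 1)) (Af.smul_mem _ (h 2))))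
    · rw [finrank_im]

theorem lv_mul_aff (g : A K ≃ₐ[K] A K) {a : A K ≃ₐ[K] A K}
    (ha : a ∈ (AffG : Subgroup (A K ≃ₐ[K] A K))) : lv (g * a) = lv g := by
  rw [lv, im_mul, mem_AffG.mp ha]
  rfl

/-- affine automorphisms commute with the mirror -/
theorem aff_star {a : A K ≃ₐ[K] A K} (ha : a ∈ (AffG : Subgroup (A K ≃ₐ[K] A K))) (P : A K) :
    a (star P) = star (a P) := by
  have hx : ∀ i, star (a (x K i)) = a (x K i) := by
    intro i
    obtain ⟨d, a', b, c, h⟩ := mem_Af.mp (mem_AffG_iff.mp ha i)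
    rw [h]
    simp only [star_add, star_smul', star_ι, star_one]
  induction P using FreeAlgebra.induction with
  | grade0 r => rw [star_algebraMap, AlgEquiv.commutes, star_algebraMap]
  | grade1 i => rw [star_ι, hx]
  | mul u v hu hv => rw [star_mul, map_mul, map_mul, hu, hv, star_mul]
  | add u v hu hv => rw [star_add, map_add, map_add, hu, hv, star_add]

end Pool.Agent.H66.TA
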