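import Pool.Agent.H66.TA.Adm

/-!
The lemma on elements minimal modulo a singular pair.
-/

namespace Pool.Agent.H66.TA

open FreeAlgebra Polynomial Module

variable {K : Type*} [Field K]

/-- independence of the leading forms in presence of a third one -/
theorem not_com_add {u v b : A K} (hu : ¬ Com u b) (hv : Com v b) (h : dg v ≤ dg u) (μ : K) :
    ¬ Com (u + μ • v) b ∧ dg (u + μ • v) = dg u := by
  have h1 := mix_sum hu (hv.smul_left μ)
  have h2 : dg (μ • v) ≤ dg u := (dg_smul_le _ _).trans h
  refine ⟨h1.2.2.1 h2, le_antisymm ?_ h1.1⟩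
  exact (dg_add_le _ _).trans (max_le le_rfl h2)

/-- `IL`: `u` large, `v` small, `c` minimal modulo the singular pair `u, v`. -/
theorem Adm.il (F : PF K) {n : ℕ} {V : A K → A K → A K → Prop} (W : Adm n V) {u v c : A K}
    (h : V c u v) (hs : Sg u v) (hm : Mn c u v) (hn : ¬ Com c v) :
    dg v < dg c ∧ dg c < dg u ∧ dg (br u v) = dg v + dg c ∧
      ∃ μ : K, μ ≠ 0 ∧ dg (br (u + μ • c) v) ≤ dg c := by
  obtain ⟨hcom, hlt, hnd⟩ := hs
  have huv : PR u v := W.pr h
  have hcu : PR c u := W.pr (W.cy (W.cy h))
  have hcv : PR c v := W.pr (W.sw h)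
  have hv0 := huv.dgr
  have hu0 := huv.dgl
  have hc0 := hcv.dgl
  have hv2 : 2 ≤ dg v := by
    by_contra hlt2
    have : dg v = 1 := by omega
    apply hnd
    rw [this]
    exact one_dvd _
  have hncu : ¬ Com c u := fun hc => hn (F.ct _ _ _ hu0 hc hcom)
  have hsum : 3 < dg u + dg v + dg c := by omega
  rcases le_or_gt (dg c) (dg v) with hl | hl
  · exfalso
    -- order c, v, u
    have hred : Red c v u := by
      apply red_sorted hl hlt.le
      · intro μ
        have hnvc : ¬ Com v c := fun e => hn e.symm
        rcases lt_or_eq_of_le hl with h1 | h1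
        · rw [(lf_add_smul_left h1 μ).1]
        · by_contra hlt3
          rw [not_le] at hlt3
          obtain ⟨-, h4⟩ := low_lf' hlt3
          rw [lf_smul] at h4
          have h5 : lf v = (-μ) • lf c := by rw [neg_smul, h4, neg_neg]
          apply hnvc
          rw [Com, h5]
          exact (Commute.refl _).smul_left _
      · intro μ ν
        rw [(lf_add_smul_left (u := u + μ • v) (v := c) (by
          rw [(lf_add_smul_left hlt μ).1]; omega) ν).1, (lf_add_smul_left hlt μ).1]
    have hV : V c v u := W.tr h
    rcases W.a5 hV hred hl hlt.le (by omega) with ⟨P, hP, hd⟩ | ⟨μ, P, hP, hd⟩ |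
      ⟨ν, μ, P, hP, hd⟩
    · obtain ⟨e1, e2⟩ := low_lf' hd
      have hPv : Com P v := (com_neg_left e2).mpr hcom
      apply hnd
      rw [← e1]
      exact hcv.i3 F hn hP hPv
    · obtain ⟨e1, e2⟩ := low_lf' hd
      obtain ⟨e3, e4⟩ := lf_add_smul_left hlt μ
      have hPt : Com P (u + μ • v) :=
        (com_neg_left e2).mpr ((Com.of_lf_right e4).mpr hcom.symm)
      have hnct : ¬ Com c (u + μ • v) := fun e => hncu ((Com.of_lf_right e4).mp e)
      have hpr : PR c (u + μ • v) := (W.pr (W.tr (W.cy (W.sh μ (W.cy h))))).symm
      have h5 := hpr.i3 F hnct hP hPt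
      rw [e1, e3] at h5
      have := Nat.le_of_dvd (by omega) h5
      omega
    · obtain ⟨e1, e2⟩ := low_lf' hd
      obtain ⟨e3, e4⟩ := lf_add_smul_left (u := u) (v := c) (by omega) μ
      -- the pair (v + ν c, u + μ c)
      have hV1 : V c (u + μ • c) v := by
        have h1 : V u c v := W.sw h
        have h2 := W.sh μ h1
        exact W.sw h2
      have hV2 : V c (u + μ • c) (v + ν • c) := by
        have h1 : V v c (u + μ • c) := W.cy (W.cy hV1)
        have h2 := W.sh ν h1
        exact W.tr (W.sw h2)
      have hcom' : Com (u + μ • c) v := (Com.of_lf_left e4).mpr hcom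
      rcases lt_or_eq_of_le hl with h1 | h1
      · obtain ⟨e5, e6⟩ := lf_add_smul_left h1 ν
        have hsg : Sg (u + μ • c) (v + ν • c) := by
          refine ⟨(Com.of_lf_left e4).mpr ((Com.of_lf_right e6).mpr hcom), by omega, ?_⟩
          rw [e3, e5]
          exact hnd
        have h6 := (W.pr hV2).lb F hsg (W.s2 hV2 hsg) (by rwa [KK_comm]) (by omega)
        omega
      · by_cases hν : ν = 0
        · subst hν
          rw [zero_smul, add_zero] at hP
          have hsg : Sg (u + μ • c) v := ⟨hcom', by omega, by rw [e3]; exact hnd⟩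
          obtain ⟨β, q, hPe, g1, g2, g3, g4⟩ :=
            (W.pr hV1).lc1 F hsg (W.s2 hV1 hsg) (by rwa [KK_comm]) (by omega)
          have hd1 := (W.s2 hV1 hsg).1
          have hβ : β = 0 := by
            by_contra hβ
            rw [dg_smul hβ] at g2
            omega
          subst hβ
          rw [zero_smul, add_zero] at hPe
          apply hn
          have : Com P v := by rw [hPe]; exact com_aeval hv0 q
          exact (com_neg_left e2).mp this
        · -- ν ≠ 0
          have hnvc : ¬ Com v c := fun e => hn e.symm
          have hne : lf v + lf (ν • c) ≠ 0 := by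
            intro hz
            apply hnvc
            have h5 := eq_neg_of_add_eq_zero_left hz
            rw [lf_smul, ← neg_smul] at h5
            rw [Com, h5]
            exact (Commute.refl _).smul_left _
          obtain ⟨e5, e6⟩ := lf_add_eq (u := v) (v := ν • c) (by rw [dg_smul hν]; omega) hne
          have hns' : ¬ Com (u + μ • c) (v + ν • c) := by
            intro hc'
            have h7 : Com u (v + ν • c) := (Com.of_lf_left e4).mp hc'
            have h8 : Commute (lf u) (lf (ν • c)) := by
              rw [Com, e6] at h7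
              have h9 : Commute (lf u) (lf v) := hcom
              have := h7.sub_right h9
              rwa [add_sub_cancel_left] at this
            rw [lf_smul] at h8
            have h10 : Commute (lf u) (lf c) := by
              have := h8.smul_right ν⁻¹
              rwa [inv_smul_smul₀ hν] at this
            exact hncu (Commute.symm h10)
          obtain ⟨q, hq⟩ := (W.pr hV2).i1 F hns' (by rwa [KK_comm]) (by omega)
          -- q has degree one
          have hs0 := (W.pr hV2).dgr
          have hPd := (dg_aeval hs0 q).1
          rw [← hq, e1, e5, h1] at hPd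
          have hq1 : q.natDegree = 1 := by
            have h11 : 1 * dg v = q.natDegree * dg v := by omega
            exact (Nat.eq_of_mul_eq_mul_right (by omega) h11).symm
          have hq0 : q ≠ 0 := by
            rintro rfl
            rw [natDegree_zero] at hq1
            omega
          have hPl := (dg_aeval hs0 q).2 hq0
          rw [← hq, e2, hq1, pow_one, e6, lf_smul, smul_add, smul_smul] at hPl
          set κ := q.leadingCoeff with hκ
          have hκ0 : κ ≠ 0 := leadingCoeff_ne_zero.mpr hq0
          have h12 : lf v = (-(κ⁻¹ * (1 + κ * ν))) • lf c := by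
            have h13 : κ • lf v = (-(1 + κ * ν)) • lf c := by
              have : κ • lf v = (κ • lf v + (κ * ν) • lf c) - (κ * ν) • lf c := by abel
              rw [this, ← hPl]
              module
            have h14 := congrArg (fun z => κ⁻¹ • z) h13
            simp only [inv_smul_smul₀ hκ0, smul_smul] at h14
            rw [h14]
            congr 1
            ring
          apply hnvc
          rw [Com, h12]
          exact (Commute.refl _).smul_left _
  · rcases lt_or_ge (dg c) (dg u) with hl2 | hl2
    · -- order v, c, u
      have hred : Red v c u := by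
        apply red_sorted hl.le hl2.le
        · intro μ
          rw [(lf_add_smul_left hl μ).1]
        · intro μ ν
          rw [(lf_add_smul_left (u := u + μ • c) (v := v) (by
            rw [(lf_add_smul_left hl2 μ).1]; omega) ν).1, (lf_add_smul_left hl2 μ).1]
      have hV : V v c u := W.cy (W.cy h)
      rcases W.a5 hV hred hl.le hl2.le (by omega) with ⟨P, hP, hd⟩ | ⟨μ, P, hP, hd⟩ |
        ⟨ν, μ, P, hP, hd⟩
      · exfalso
        obtain ⟨e1, e2⟩ := low_lf' hd
        have hPv : Com P v := (com_neg_left e2).mpr hcom
        apply hnd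
        rw [← e1]
        exact hcv.i3 F hn (by rwa [KK_comm]) hPv
      · obtain ⟨e1, e2⟩ := low_lf' hd
        obtain ⟨e3, e4⟩ := lf_add_smul_left hl2 μ
        have hV1 : V c (u + μ • c) v := W.sw (W.sh μ (W.sw h))
        have hsg : Sg (u + μ • c) v :=
          ⟨(Com.of_lf_left e4).mpr hcom, by omega, by rw [e3]; exact hnd⟩
        have hnP : ¬ Com P v := fun e => hn ((com_neg_left e2).mp e)
        have h5 := (W.pr hV1).lb2 F hsg (W.s2 hV1 hsg) (by rwa [KK_comm]) hnP
        have hμ : μ ≠ 0 := by
          rintro rfl
          rw [zero_smul, add_zero] at hP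
          have := hm P (by rwa [KK_comm])
          omega
        rw [e1] at h5
        refine ⟨hl, hl2, ?_, μ, hμ, h5⟩
        have h6 : br (u + μ • c) v = br u v + μ • br c v := by
          rw [br_add_left, br_smul_left]
        have h7 := (dg_br hn).1
        have h8 : dg (μ • br c v) = dg c + dg v := by rw [dg_smul hμ, h7]
        -- dg (br u v) = dg c + dg v
        have h9 : br u v = - (μ • br c v) + br (u + μ • c) v := by rw [h6]; abel
        rw [h9, dg_add_eq_left (by rw [dg_neg, h8]; omega), dg_neg, h8, add_comm]
      · exfalso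
        obtain ⟨e1, e2⟩ := low_lf' hd
        obtain ⟨e3, e4⟩ := lf_add_smul_left hlt μ
        obtain ⟨e5, e6⟩ := lf_add_smul_left hl ν
        have hPt : Com P (u + μ • v) :=
          (com_neg_left e2).mpr ((Com.of_lf_right e4).mpr hcom.symm)
        have hnct : ¬ Com (c + ν • v) (u + μ • v) := fun e =>
          hncu ((Com.of_lf_left e6).mp ((Com.of_lf_right e4).mp e))
        have hV1 : V c v (u + μ • v) := W.tr (W.cy (W.cy (W.sh μ (W.cy h))))
        have hV2 : V (c + ν • v) v (u + μ • v) := W.sh ν hV1
        have hpr : PR (c + ν • v) (u + μ • v) := W.pr (W.sw hV2)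
        have h5 := hpr.i3 F hnct hP hPt
        rw [e1, e3] at h5
        have := Nat.le_of_dvd (by omega) h5
        omega
    · exfalso
      -- order v, u, c
      have hred : Red v u c := by
        apply red_sorted hlt.le hl2
        · intro μ
          rw [(lf_add_smul_left hlt μ).1]
        · intro μ ν
          exact hm.lin μ ν
      have hV : V v u c := W.sw (W.cy h)
      rcases W.a5 hV hred hlt.le hl2 (by omega) with ⟨P, hP, hd⟩ | ⟨μ, P, hP, hd⟩ |
        ⟨ν, μ, P, hP, hd⟩
      · have := hm P (by rwa [KK_comm])
        omega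
      · obtain ⟨e1, e2⟩ := low_lf' hd
        have hPv : Com P v := (com_neg_left e2).mpr hcom
        obtain ⟨h5, h6⟩ := not_com_add hn hcom hl2 μ
        have hpr : PR (c + μ • u) v := W.pr (W.sw (W.sh μ h))
        apply hnd
        rw [← e1]
        exact hpr.i3 F h5 (by rwa [KK_comm]) hPv
      · obtain ⟨e1, e2⟩ := low_lf' hd
        obtain ⟨e3, e4⟩ := lf_add_smul_left hlt ν
        obtain ⟨e5, e6⟩ := lf_add_smul_left (u := c) (v := v) (by omega) μ
        have hPt : Com P (u + ν • v) :=
          (com_neg_left e2).mpr ((Com.of_lf_right e4).mpr hcom.symm)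
        have hnct : ¬ Com (c + μ • v) (u + ν • v) := fun e =>
          hncu ((Com.of_lf_left e6).mp ((Com.of_lf_right e4).mp e))
        have hV1 : V c v (u + ν • v) := W.tr (W.cy (W.cy (W.sh ν (W.cy h))))
        have hV2 : V (c + μ • v) v (u + ν • v) := W.sh μ hV1
        have hpr : PR (c + μ • v) (u + ν • v) := W.pr (W.sw hV2)
        have h5 := hpr.i3 F hnct (by rwa [KK_comm]) hPt
        rw [e1, e3] at h5
        have := Nat.le_of_dvd (by omega) h5
        omega

end Pool.Agent.H66.TA
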