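import Pool.Agent.H66.TA.DL

/-!
The inequality `(S2)` for pairs of new vertices.
-/

namespace Pool.Agent.H66.TA

open FreeAlgebra Polynomial Module

variable {K : Type*} [Field K]

/-- `(S2)` for an unordered pair -/
def SS (a b : A K) : Prop := (dg b < dg a → S2 a b) ∧ (dg a < dg b → S2 b a)

theorem SS.symm {a b : A K} (h : SS a b) : SS b a := ⟨h.2, h.1⟩

variable {n : ℕ} {V : A K → A K → A K → Prop}

theorem Adm.caseA (G : PG K) (W : Adm n V) {f0 f1 f2 f3 P : A K} (h : V f0 f2 f3)
    (hf1 : f1 = f0 + P)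
    (hP : P ∈ KK f2 f3) (hm : Mn f0 f2 f3) (hlt : dg f0 < dg f1) (hc12 : Com f1 f2)
    (hIS12 : IS f1 f2) (hc23 : Com f2 f3) (hIS23 : IS f2 f3) : SS f1 f2 := by
  have F := G.toPF
  obtain ⟨h00, h20, h30⟩ := W.dg0 h
  obtain ⟨hn12, hn21⟩ := hIS12 hc12
  have hPe : P = f1 + -f0 := by rw [hf1]; abel
  have hPd : dg P = dg f1 := by rw [hPe]; exact dg_add_eq_left (by rw [dg_neg]; exact hlt)
  have hPl : lf P = lf f1 := by rw [hPe]; exact lf_add_left (by rw [dg_neg]; exact hlt)
  have hP2 : Com P f2 := (Com.of_lf_left hPl).mpr hc12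
  have hP3 : Com P f3 := F.ct _ _ _ h20 hP2 hc23
  have hpr23 : PR f2 f3 := W.pr h
  have hf := hpr23.symm.f1 G (P := P) (by rwa [KK_comm]) (by rw [hPd]; exact hn21)
  rw [hPd, dg_br_swap f3 f2] at hf
  have hne12 : dg f1 ≠ dg f2 := fun e => hn12 (by rw [e])
  by_cases hA : dg (br f1 f2) < dg (br P f2)
  · have h02 : dg (br f0 f2) = dg (br P f2) := by
      have e : br f0 f2 = -br P f2 + br f1 f2 := by rw [hf1, br_add_left]; abel
      rw [e, dg_add_eq_left (by rw [dg_neg]; exact hA), dg_neg]
    by_cases hc0 : Com f0 f2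
    · exfalso
      refine dl_sym F W (W.dl G (dg f2 + dg f3 + dg f0 + 1)) h hIS23 hc23 hm hc0 ?_
        (Nat.lt_succ_self _)
      rw [dg_br_swap f2 f0, h02]
      omega
    · have h02d := (dg_br hc0).1
      have hil := il_sym F W h hIS23 hc23 hm hc0
      rcases hil with ⟨i1, i2, i3, i4⟩ | ⟨i1, i2, i3, i4⟩
      · -- f2 large, f3 small
        have hsg : Sg f2 f3 := ⟨hc23, i1, (hIS23 hc23).2⟩
        have h2 := W.s2 h hsg
        have hlt12 : dg f1 < dg f2 := by omega
        obtain ⟨β, q, hPq, g1, g2, g3, g4⟩ := hpr23.lc1 F hsg h2 hP (by omega)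
        -- degrees of the terms of [f1, f2]
        have hq : dg (br f2 (aeval f3 q)) ≤ dg f1 + dg f0 := by
          apply dg_br_aeval (by omega)
          rw [← (dg_aeval h30 q).1]
          omega
        have hc2 : ¬ Com (br f2 f3) f2 := by
          intro e
          exact F.tc _ _ hpr23.br_ne h30 (F.ct _ _ _ h20 e hc23)
        have hcd := (dg_br hc2).1
        have hexp : br f1 f2 = (br f0 f2 + β • br (br f2 f3) f2) + -br f2 (aeval f3 q) := by
          rw [hf1, hPq, br_add_left, br_add_left, br_smul_left, br_swap f2 (aeval f3 q)]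
          abel
        have hdom : dg f2 + dg f0 ≤ dg (br f0 f2 + β • br (br f2 f3) f2) := by
          by_cases hβ : β = 0
          · subst hβ
            rw [zero_smul, add_zero]
            omega
          · have : dg (β • br (br f2 f3) f2) = dg (br f2 f3) + dg f2 := by
              rw [dg_smul hβ, hcd]
            rw [dg_add_eq_right (by omega), this]
            omega
        have hfin : dg f2 + dg f0 ≤ dg (br f1 f2) := by
          rw [hexp, dg_add_eq_left (by rw [dg_neg]; omega)]
          exact hdom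
        refine ⟨fun e => absurd e (by omega), fun _ => ?_⟩
        unfold S2
        rw [dg_br_swap f2 f1]
        omega
      · -- f2 small, f3 large
        have hsg : Sg f3 f2 := ⟨hc23.symm, i1, (hIS23 hc23).1⟩
        have h2 := W.s2 (W.tr h) hsg
        have hP' : P ∈ KK f3 f2 := by rwa [KK_comm]
        have h13 : dg f1 = dg f3 := by
          have hle : dg f1 ≤ dg f3 := by omega
          rcases lt_or_eq_of_le hle with h5 | h5
          · exfalso
            have := hpr23.symm.la' F hsg h2 hP' (by omega) hP2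
            rw [hPd] at this
            exact hn21 this
          · exact h5
        obtain ⟨α, β, q, hPq⟩ := hpr23.symm.lc F hsg h2 hP' (by omega)
        have hc2 : ¬ Com (br f3 f2) f2 := F.tc _ _ hpr23.symm.br_ne h20
        have hcd := (dg_br hc2).1
        have h2a := h2.1
        have h2b := h2.2
        have hexp : br f1 f2 = br f0 f2 + α • br f3 f2 + β • br (br f3 f2) f2 := by
          rw [hf1, hPq, br_add_left, br_add_left, br_add_left, br_smul_left, br_smul_left,
            br_aeval]
          abel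
        by_cases hβ : β = 0
        · subst hβ
          have hα : α ≠ 0 := by
            rintro rfl
            rw [zero_smul, zero_smul, zero_add, add_zero] at hPq
            apply hn21
            rw [← hPd, hPq, (dg_aeval h20 q).1]
            exact Dvd.intro_left _ rfl
          have hV : V (f0 + α • f3) f2 f3 := W.sh13 α h
          have e1 : br f1 f2 = br (f0 + α • f3) f2 := by
            rw [hexp, zero_smul, add_zero, br_add_left, br_smul_left]
          have e2 : dg (f0 + α • f3) = dg f3 := by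
            rw [dg_add_eq_right (by rw [dg_smul hα]; omega), dg_smul hα]
          have e3 : lf (f0 + α • f3) = α • lf f3 := by
            rw [lf_add_right (by rw [dg_smul hα]; omega), lf_smul]
          have hsg' : Sg (f0 + α • f3) f2 := by
            refine ⟨?_, by omega, by rw [e2]; exact hsg.2.2⟩
            rw [Com, e3]
            exact Commute.smul_left hsg.1 α
          have h5 := W.s2 (W.cy (W.cy hV)) hsg'
          unfold S2 at h5
          rw [← e1, e2] at h5
          refine ⟨fun _ => ?_, fun e => absurd e (by omega)⟩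
          unfold S2
          omega
        · have h6 : dg (β • br (br f3 f2) f2) = dg (br f3 f2) + dg f2 := by
            rw [dg_smul hβ, hcd]
          have h7 : dg (br f1 f2) = dg (br f3 f2) + dg f2 := by
            rw [hexp, dg_add_eq_right, h6]
            rw [h6]
            have h8 := dg_add_le (br f0 f2) (α • br f3 f2)
            have h9 : dg (α • br f3 f2) ≤ dg (br f3 f2) := dg_smul_le _ _
            have h11 := dg_br_swap f3 f2
            rcases max_cases (dg (br f0 f2)) (dg (α • br f3 f2)) with h10 | h10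
            · omega
            · omega
          refine ⟨fun _ => ?_, fun e => absurd e (by omega)⟩
          unfold S2
          omega
  · rw [not_lt] at hA
    rcases hIS23.sg hc23 with hsg | hsg
    · -- f2 large
      have h2 := W.s2 h hsg
      have h13 : dg f3 ≤ dg f1 := by
        by_contra hlt3
        have := hpr23.lb F hsg h2 hP (by omega)
        omega
      have h2a := h2.1
      have h2b := h2.2
      refine ⟨fun _ => ?_, fun _ => ?_⟩
      · unfold S2
        omega
      · unfold S2
        rw [dg_br_swap f2 f1]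
        omega
    · -- f3 large
      have h2 := W.s2 (W.tr h) hsg
      have h2a := h2.1
      have h2b := h2.2
      rw [dg_br_swap f3 f2] at h2a h2b
      have hP' : P ∈ KK f3 f2 := by rwa [KK_comm]
      have h13 : dg f3 ≤ dg f1 := by
        by_contra hlt3
        have := hpr23.symm.la' F hsg h2 hP' (by omega) hP2
        rw [hPd] at this
        exact hn21 this
      have h32 := hsg.2.1
      refine ⟨fun _ => ?_, fun e => absurd e (by omega)⟩
      unfold S2
      omega

theorem Adm.lemS (G : PG K) (W : Adm n V) {f0 f1 f2 f3 P : A K} (h : V f0 f2 f3)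
    (hf1 : f1 = f0 + P)
    (hP : P ∈ KK f2 f3) (hm : Mn f0 f2 f3) (hlt : dg f0 < dg f1) (hc12 : Com f1 f2)
    (hIS12 : IS f1 f2) (h3 : ∀ κ : K, dg f3 ≤ dg (f3 + κ • f2))
    (hn : Red f1 f2 f3 → dg f1 + dg f2 + dg f3 ≤ n) : SS f1 f2 := by
  have F := G.toPF
  obtain ⟨h00, h20, h30⟩ := W.dg0 h
  obtain ⟨hn12, hn21⟩ := hIS12 hc12
  have hPe : P = f1 + -f0 := by rw [hf1]; abel
  have hPd : dg P = dg f1 := by rw [hPe]; exact dg_add_eq_left (by rw [dg_neg]; exact hlt)
  have hPl : lf P = lf f1 := by rw [hPe]; exact lf_add_left (by rw [dg_neg]; exact hlt)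
  have hP2 : Com P f2 := (Com.of_lf_left hPl).mpr hc12
  have hpr23 : PR f2 f3 := W.pr h
  have hne12 : dg f1 ≠ dg f2 := fun e => hn12 (by rw [e])
  have h10 : dg f1 ≠ 0 := by omega
  have hc32 : Com f3 f2 := by
    by_contra hc
    have := hpr23.symm.i3 F hc (by rwa [KK_comm]) hP2
    rw [hPd] at this
    exact hn21 this
  have hne23 : dg f2 ≠ dg f3 := by
    intro e
    obtain ⟨κ, j, -, hj, -, hlt2⟩ := exists_red F h20 h30 hc32 (by rw [e])
    have hj1 : j = 1 := by
      have : j * dg f2 = 1 * dg f2 := by omega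
      exact Nat.eq_of_mul_eq_mul_right (by omega) this
    subst hj1
    have := h3 (-κ)
    rw [pow_one] at hlt2
    rw [neg_smul, ← sub_eq_add_neg] at this
    omega
  have hmemneg : ∀ (z : K) (j : ℕ) (w e : A K), -(z • e ^ j) ∈ KK w e := fun z j w e =>
    Subalgebra.neg_mem _ (Subalgebra.smul_mem _ (Subalgebra.pow_mem _ (rig_mem _ _) _) _)
  have eP : ∀ (z : K) (e : A K) (m : ℕ), z • e ^ m = aeval e (C z * X ^ m) := by
    intro z e m
    rw [map_mul, aeval_C, map_pow, aeval_X, ← Algebra.smul_def]
  by_cases h23 : dg f2 ∣ dg f3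
  · -- f3 is reducible by f2
    obtain ⟨κ, j, -, -, -, hlt2⟩ := exists_red F h20 h30 hc32 h23
    rw [sub_eq_add_neg] at hlt2
    have hlt23 : dg f2 < dg f3 := lt_of_le_of_ne (Nat.le_of_dvd (by omega) h23) hne23
    have hne13 : dg f1 ≠ dg f3 := fun e => hn21 (by rw [e]; exact h23)
    have hred : Red f1 f2 f3 := by
      rcases lt_or_gt_of_ne hne12 with h5 | h5
      · exact red_lt h5 hlt23
      · rcases lt_or_gt_of_ne hne13 with h6 | h6
        · exact (red_lt h5 h6).sw
        · exact (red_lt hlt23 h6).cy.cy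
    have hn' := hn hred
    have hV1 : V f0 f2 (f3 + -(κ • f2 ^ j)) := by
      have h5 := W.mv (W.cy (W.cy h)) (hmemneg κ j f0 f2) (by omega)
      exact W.cy h5
    have hV2 : V f1 f2 (f3 + -(κ • f2 ^ j)) := by
      rw [hf1]
      refine W.mv hV1 ?_ (by rw [← hf1]; omega)
      have e : KK f2 (f3 + -(κ • f2 ^ j)) = KK f2 f3 := by
        rw [KK_comm, eP, ← map_neg, KK_shift, KK_comm]
      rw [e]
      exact hP
    exact ⟨fun h5 => W.s2 (W.cy (W.cy hV2)) ⟨hc12, h5, hn21⟩,
      fun h5 => W.s2 (W.cy (W.cy (W.sw hV2))) ⟨hc12.symm, h5, hn12⟩⟩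
  · by_cases h32 : dg f3 ∣ dg f2
    · have hlt32 : dg f3 < dg f2 := lt_of_le_of_ne (Nat.le_of_dvd (by omega) h32) (Ne.symm hne23)
      have hne13 : dg f1 ≠ dg f3 := fun e => hn12 (by rw [e]; exact h32)
      have hred : Red f1 f2 f3 := by
        rcases lt_or_gt_of_ne hne12 with h5 | h5
        · rcases lt_or_gt_of_ne hne13 with h6 | h6
          · exact (red_lt h6 hlt32).sw.cy
          · exact (red_lt h6 h5).cy
        · exact (red_lt hlt32 h5).sw.cy.cy
      have hn' := hn hred
      obtain ⟨κ, j, -, -, -, hlt2⟩ := exists_red F h30 h20 hc32.symm h32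
      rw [sub_eq_add_neg] at hlt2
      have hV1 : V f0 (f2 + -(κ • f3 ^ j)) f3 :=
        W.sw (W.mv (W.sw h) (hmemneg κ j f0 f3) (by omega))
      have eKK : KK (f2 + -(κ • f3 ^ j)) f3 = KK f2 f3 := by
        rw [eP, ← map_neg, KK_shift]
      have hV2 : V f1 (f2 + -(κ • f3 ^ j)) f3 := by
        rw [hf1]
        refine W.mv hV1 ?_ (by rw [← hf1]; omega)
        rw [eKK]
        exact hP
      have hc13 : Com f1 f3 := F.ct _ _ _ h20 hc12 hc32.symm
      have hn13 : ¬ dg f1 ∣ dg f3 := fun e => hn12 (e.trans h32)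
      by_cases h31 : dg f3 ∣ dg f1
      · -- double decoration
        obtain ⟨κ', i, -, -, -, hlt4⟩ := exists_red F h30 h10 hc13 h31
        rw [sub_eq_add_neg] at hlt4
        have hV3 : V (f1 + -(κ' • f3 ^ i)) (f2 + -(κ • f3 ^ j)) f3 :=
          W.mv hV2 (hmemneg κ' i _ f3) (by omega)
        have ea : f1 = f1 + -(κ' • f3 ^ i) + aeval f3 (C κ' * X ^ i) := by
          rw [← eP]; abel
        have eb : f2 = f2 + -(κ • f3 ^ j) + aeval f3 (C κ * X ^ j) := by
          rw [← eP]; abel
        have hge : ∀ {u v : ℕ}, dg f3 ∣ u → dg f3 ∣ v → u < v → u + dg f3 ≤ v := by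
          rintro u v ⟨s, rfl⟩ ⟨t, rfl⟩ huv
          have : s < t := lt_of_mul_lt_mul_left huv (Nat.zero_le _)
          calc dg f3 * s + dg f3 = dg f3 * (s + 1) := by ring
            _ ≤ dg f3 * t := Nat.mul_le_mul_left _ this
        have hle31 := Nat.le_of_dvd (by omega) h31
        refine ⟨fun h5 => ?_, fun h5 => ?_⟩
        · -- f2 < f1 : a = f2, b = f1
          have hb0 : dg (br f2 f3) ≠ 0 := W.dbr F h
          have hz : ¬ (dg f3 + dg (br f2 f1) < dg f1 + dg (br f2 f3)) := fun hX =>
            W.zz G (W.sw hV3) (a := f2) (b := f1) (C κ * X ^ j) (C κ' * X ^ i) eb ea hlt2 hlt4 h32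
              h31 h5 hn21 (by omega) hX (W.dl G _)
          have h6 := hge h32 h31 h5
          rw [dg_br_swap f2 f1] at hz
          unfold S2
          omega
        · have hb0 : dg (br f1 f3) ≠ 0 := by
            have h7 : br f1 f3 = br (f1 + -(κ' • f3 ^ i)) f3 := by
              conv_lhs => rw [ea]
              rw [br_add_left _ (aeval f3 _), br_aeval, add_zero]
            rw [h7]
            exact W.dbr F (W.sw hV3)
          have hz : ¬ (dg f3 + dg (br f1 f2) < dg f2 + dg (br f1 f3)) := fun hX =>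
            W.zz G hV3 (a := f1) (b := f2) (C κ' * X ^ i) (C κ * X ^ j) ea eb hlt4 hlt2 h31
              h32 h5 hn12 (by omega) hX (W.dl G _)
          have h6 := hge h31 h32 h5
          unfold S2
          rw [dg_br_swap f2 f1]
          omega
      · -- case A for the pair (f2, f1)
        obtain ⟨P0, hP0, hm0, hmin⟩ := exists_min (f2 + -(κ • f3 ^ j)) f1 f3
        have hle0 : dg (f2 + -(κ • f3 ^ j) + P0) ≤ dg (f2 + -(κ • f3 ^ j)) := by
          have := hmin 0 (Subalgebra.zero_mem _)
          rwa [add_zero] at this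
        have hV3 : V (f2 + -(κ • f3 ^ j) + P0) f1 f3 := W.mv (W.sw hV2) hP0 (by omega)
        have hmem : κ • f3 ^ j - P0 ∈ KK f1 f3 :=
          Subalgebra.sub_mem _ (Subalgebra.smul_mem _ (Subalgebra.pow_mem _ (rig_mem _ _) _) _) hP0
        exact (W.caseA G (f1 := f2) hV3 (by abel) hmem hm0 (by omega) hc12.symm hIS12.symm hc13
          (fun _ => ⟨hn13, h31⟩)).symm
    · exact W.caseA G h hf1 hP hm hlt hc12 hIS12 hc32.symm (fun _ => ⟨h23, h32⟩)

end Pool.Agent.H66.TA
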