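import Pool.Agent.H66.TA.Deg

/-!
The level of a finite dimensional subspace: the sum of the degrees of an adapted basis.
-/

namespace Pool.Agent.H66.TA

open FreeAlgebra Polynomial Module

variable {K : Type*} [Field K]

theorem Fil_mono {m n : ℕ} (h : m ≤ n) : (Fil m : Submodule K (A K)) ≤ Fil n :=
  fun _ ha => le_trans ha h

/-- truncated level -/
noncomputable def levN (N : ℕ) (V : Submodule K (A K)) : ℕ :=
  ∑ k ∈ Finset.range N, (finrank K V - finrank K (V ⊓ Fil k : Submodule K (A K)))

/-- the smallest filtration step containing `V` -/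
noncomputable def topd (V : Submodule K (A K)) : ℕ := sInf {m | V ≤ Fil m}

/-- the level -/
noncomputable def lev (V : Submodule K (A K)) : ℕ := levN (topd V) V

/-- the smallest degree of an element of `V` outside `W` -/
noncomputable def cf (V W : Submodule K (A K)) : ℕ := sInf {n | ∃ v ∈ V, v ∉ W ∧ dg v = n}

theorem exists_top (V : Submodule K (A K)) [FiniteDimensional K V] : ∃ m, V ≤ Fil m := by
  obtain ⟨s, hs⟩ := (Submodule.fg_iff_finiteDimensional V).mpr inferInstance
  refine ⟨s.sup dg, ?_⟩
  rw [← hs, Submodule.span_le]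
  intro a ha
  exact Finset.le_sup (f := dg) ha

theorem le_topd (V : Submodule K (A K)) [FiniteDimensional K V] : V ≤ Fil (topd V) :=
  Nat.sInf_mem (exists_top V)

theorem levN_eq (V : Submodule K (A K)) [FiniteDimensional K V] {N : ℕ} (h : topd V ≤ N) :
    levN N V = lev V := by
  rw [lev, levN, levN]
  symm
  apply Finset.sum_subset (Finset.range_subset_range.mpr h)
  intro k _ hk
  rw [Finset.mem_range, not_lt] at hk
  have : V ⊓ Fil k = V := inf_eq_left.mpr ((le_topd V).trans (Fil_mono hk))
  rw [this, Nat.sub_self]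

theorem cf_le {V W : Submodule K (A K)} {v : A K} (hv : v ∈ V) (hw : v ∉ W) : cf V W ≤ dg v :=
  Nat.sInf_le ⟨v, hv, hw, rfl⟩

theorem cf_spec {V W : Submodule K (A K)} (h : ¬ V ≤ W) : ∃ v ∈ V, v ∉ W ∧ dg v = cf V W := by
  obtain ⟨v, hv, hw⟩ := SetLike.not_le_iff_exists.mp h
  exact Nat.sInf_mem (s := {n | ∃ v ∈ V, v ∉ W ∧ dg v = n}) ⟨dg v, v, hv, hw, rfl⟩

theorem finrank_sup_one {W : Submodule K (A K)} [FiniteDimensional K W] {v : A K} (hv : v ∉ W) :
    finrank K (W ⊔ Submodule.span K {v} : Submodule K (A K)) = finrank K W + 1 := by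
  have hv0 : v ≠ 0 := fun h => hv (h ▸ W.zero_mem)
  have h1 := Submodule.finrank_sup_add_finrank_inf_eq W (Submodule.span K {v})
  have h2 : W ⊓ Submodule.span K {v} = ⊥ := by
    rw [eq_bot_iff]
    rintro u ⟨hu1, hu2⟩
    obtain ⟨c, rfl⟩ := Submodule.mem_span_singleton.mp hu2
    by_cases hc : c = 0
    · subst hc; simp
    · exfalso
      apply hv
      have := W.smul_mem c⁻¹ hu1
      rwa [inv_smul_smul₀ hc] at this
  rw [h2, finrank_bot, finrank_span_singleton hv0] at h1
  omega

theorem eq_sup_one {V W : Submodule K (A K)} [FiniteDimensional K V] (hWV : W ≤ V)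
    (hd : finrank K V = finrank K W + 1) {v : A K} (hv : v ∈ V) (hw : v ∉ W) :
    W ⊔ Submodule.span K {v} = V := by
  haveI : FiniteDimensional K W := Submodule.finiteDimensional_of_le hWV
  apply Submodule.eq_of_le_of_finrank_eq
  · exact sup_le hWV (by rw [Submodule.span_singleton_le_iff_mem]; exact hv)
  · rw [finrank_sup_one hw, hd]

theorem finrank_step {V W : Submodule K (A K)} [FiniteDimensional K V] (hWV : W ≤ V)
    (hd : finrank K V = finrank K W + 1) (k : ℕ) :
    finrank K (V ⊓ Fil k : Submodule K (A K)) =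
      finrank K (W ⊓ Fil k : Submodule K (A K)) + if cf V W ≤ k then 1 else 0 := by
  haveI : FiniteDimensional K W := Submodule.finiteDimensional_of_le hWV
  have hnle : ¬ V ≤ W := by
    intro h
    have := le_antisymm h hWV
    subst this
    omega
  split_ifs with h
  · obtain ⟨v, hv, hw, hvd⟩ := cf_spec hnle
    have hvk : v ∈ (Fil k : Submodule K (A K)) := by rw [mem_Fil, hvd]; exact h
    have hsup : (W ⊓ Fil k) ⊔ Submodule.span K {v} = V ⊓ Fil k := by
      apply le_antisymm
      · apply sup_le
        · exact inf_le_inf_right _ hWV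
        · rw [Submodule.span_singleton_le_iff_mem]
          exact ⟨hv, hvk⟩
      · rintro u ⟨hu1, hu2⟩
        rw [← eq_sup_one hWV hd hv hw] at hu1
        obtain ⟨w, hw', z, hz, rfl⟩ := Submodule.mem_sup.mp hu1
        obtain ⟨c, rfl⟩ := Submodule.mem_span_singleton.mp hz
        refine Submodule.mem_sup.mpr ⟨w, ⟨hw', ?_⟩, c • v, hz, rfl⟩
        have : w = (w + c • v) - c • v := by abel
        rw [this]
        exact (Fil k).sub_mem hu2 ((Fil k).smul_mem c hvk)
    have hnot : v ∉ W ⊓ Fil k := fun h => hw h.1
    haveI : FiniteDimensional K (W ⊓ Fil k : Submodule K (A K)) :=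
      Submodule.finiteDimensional_of_le inf_le_left
    rw [← hsup, finrank_sup_one hnot]
  · have : V ⊓ Fil k = W ⊓ Fil k := by
      apply le_antisymm
      · rintro u ⟨hu1, hu2⟩
        refine ⟨?_, hu2⟩
        by_contra hu
        exact h ((cf_le hu1 hu).trans hu2)
      · exact inf_le_inf_right _ hWV
    rw [this, add_zero]

theorem levN_step {V W : Submodule K (A K)} [FiniteDimensional K V] (hWV : W ≤ V)
    (hd : finrank K V = finrank K W + 1) {N : ℕ} (hN : cf V W ≤ N) :
    levN N V = levN N W + cf V W := by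
  haveI : FiniteDimensional K W := Submodule.finiteDimensional_of_le hWV
  rw [levN, levN]
  have h1 : ∀ k ∈ Finset.range N,
      finrank K V - finrank K (V ⊓ Fil k : Submodule K (A K)) =
      (finrank K W - finrank K (W ⊓ Fil k : Submodule K (A K))) +
        if k < cf V W then 1 else 0 := by
    intro k _
    rw [finrank_step hWV hd k, hd]
    have h2 : finrank K (W ⊓ Fil k : Submodule K (A K)) ≤ finrank K W :=
      Submodule.finrank_mono inf_le_left
    split_ifs <;> omega
  rw [Finset.sum_congr rfl h1, Finset.sum_add_distrib]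
  congr 1
  rw [← Finset.sum_filter]
  simp only [Finset.sum_const, smul_eq_mul, mul_one]
  have : Finset.filter (fun k => k < cf V W) (Finset.range N) = Finset.range (cf V W) := by
    ext k
    simp only [Finset.mem_filter, Finset.mem_range]
    omega
  rw [this, Finset.card_range]

theorem lev_step {V W : Submodule K (A K)} [FiniteDimensional K V] (hWV : W ≤ V)
    (hd : finrank K V = finrank K W + 1) : lev V = lev W + cf V W := by
  haveI : FiniteDimensional K W := Submodule.finiteDimensional_of_le hWV
  have h := levN_step hWV hd (N := max (max (topd V) (topd W)) (cf V W)) (le_max_right _ _)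
  rw [levN_eq V ((le_max_left _ _).trans (le_max_left _ _)),
    levN_eq W ((le_max_right _ _).trans (le_max_left _ _))] at h
  exact h

theorem lev_one : lev (Submodule.span K {(1 : A K)}) = 0 := by
  have h : topd (Submodule.span K {(1 : A K)}) = 0 := by
    apply Nat.eq_zero_of_le_zero
    apply Nat.sInf_le
    show Submodule.span K {(1 : A K)} ≤ Fil 0
    rw [Submodule.span_singleton_le_iff_mem, mem_Fil, dg_one]
  rw [lev, h, levN, Finset.range_zero, Finset.sum_empty]

end Pool.Agent.H66.TA
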