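import Pool.Agent.H66.TA.Frame

/-!
Pairs of automorphisms, elementary steps along planes, and the relation `(R1)`.
-/

namespace Pool.Agent.H66.TA

open FreeAlgebra Polynomial Module

variable {K : Type*} [Field K]

/-- The automorphism group. -/
abbrev Gp (K : Type*) [Field K] : Type _ := A K ≃ₐ[K] A K

theorem Pl_le_B {u : A K} (hu : u ∈ (Pl : Submodule K (A K))) : u ∈ (B : Subalgebra K (A K)) := by
  obtain ⟨d, b, c, rfl⟩ := mem_Pl.mp hu
  exact B.add_mem (B.smul_mem B.one_mem _) (B.add_mem (B.smul_mem x1_mem _) (B.smul_mem x2_mem _))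

theorem gp_mul_apply (g h : Gp K) (a : A K) : (g * h) a = g (h a) := rfl

theorem permA_aff (s : Equiv.Perm (Fin 3)) : permA s ∈ (AffG : Subgroup (Gp K)) := by
  rw [mem_AffG_iff]
  intro i
  rw [permA_x]
  exact x_mem_Af _

theorem el_aff {u : A K} (hu : u ∈ (Pl : Submodule K (A K))) :
    el u (Pl_le_B hu) ∈ (AffG : Subgroup (Gp K)) := by
  rw [mem_AffG_iff]
  intro i
  fin_cases i
  · show el u _ (x K 0) ∈ _
    rw [el_0]
    exact Af.add_mem (x_mem_Af 0) (Pl_le_Af hu)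
  · show el u _ (x K 1) ∈ _
    rw [el_1]
    exact x_mem_Af 1
  · show el u _ (x K 2) ∈ _
    rw [el_2]
    exact x_mem_Af 2

theorem im_el_Pl (P : A K) (hP : P ∈ (B : Subalgebra K (A K))) : im (el P hP) Pl = Pl := by
  apply le_antisymm
  · rintro v ⟨u, hu, rfl⟩
    show el P hP u ∈ _
    rw [el_B P hP (Pl_le_B hu)]
    exact hu
  · intro u hu
    rw [← el_B P hP (Pl_le_B hu), im_mem]
    exact hu

theorem L_of_Pl [CharZero K] (l : K) {u : A K} (hu : u ∈ (Pl : Submodule K (A K))) :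
    L l u = u := by
  have hs : star u = u := by
    obtain ⟨d, b, c, rfl⟩ := mem_Pl.mp hu
    simp only [star_add, star_smul', star_ι, star_one]
  rw [L, hs, ← add_smul]
  have : (1 + l) / 2 + (1 - l) / 2 = 1 := by field_simp; ring
  rw [this, one_smul]

/-- diagonal element -/
def dia (a : Gp K) : Gp K × Gp K := (a, a)

theorem dia_mul (a b : Gp K) : dia (a * b) = dia a * dia b := rfl

theorem dia_one : dia (1 : Gp K) = 1 := rfl

/-- the pair `(e_P, e_{L P})` -/
def E0 (l : K) (P : A K) (hP : P ∈ (B : Subalgebra K (A K))) : Gp K × Gp K :=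
  (el P hP, el (L l P) (L_mem_B l hP))

variable [CharZero K]

omit [CharZero K] in
theorem el_congr {P Q : A K} (h : P = Q) (hP hQ) : el P hP = el Q hQ := by subst h; rfl

omit [CharZero K] in
theorem E0_congr (l : K) {P Q : A K} (h : P = Q) (hP hQ) : E0 l P hP = E0 l Q hQ := by
  subst h; rfl

omit [CharZero K] in
theorem E0_mul (l : K) (P Q : A K) (hP hQ) :
    E0 l P hP * E0 l Q hQ = E0 l (P + Q) (B.add_mem hP hQ) := by
  refine Prod.ext (el_mul P Q hP hQ) ?_
  exact (el_mul (L l P) (L l Q) (L_mem_B l hP) (L_mem_B l hQ)).trans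
    (el_congr (L_add l P Q).symm _ (L_mem_B l (B.add_mem hP hQ)))

omit [CharZero K] in
theorem el_zero : el (0 : A K) B.zero_mem = 1 := by
  apply aut_ext3
  intro i
  fin_cases i
  · show el 0 _ (x K 0) = x K 0
    simp
  · show el 0 _ (x K 1) = x K 1
    simp
  · show el 0 _ (x K 2) = x K 2
    simp

theorem E0_Pl (l : K) {u : A K} (hu : u ∈ (Pl : Submodule K (A K))) :
    E0 l u (Pl_le_B hu) = dia (el u (Pl_le_B hu)) := by
  rw [E0, dia, Prod.mk.injEq]
  exact ⟨rfl, el_congr (L_of_Pl l hu) _ _⟩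

theorem E0_zero (l : K) : E0 l (0 : A K) B.zero_mem = 1 := by
  have h := E0_Pl l (Pl.zero_mem : (0 : A K) ∈ Pl)
  rw [E0_congr l rfl (B.zero_mem) (Pl_le_B Pl.zero_mem), h, el_congr rfl _ B.zero_mem, el_zero,
    dia_one]

theorem E0_neg (l : K) (P : A K) (hP) : E0 l P hP * E0 l (-P) (B.neg_mem hP) = 1 := by
  rw [E0_mul, E0_congr l (add_neg_cancel P) _ B.zero_mem, E0_zero]

/-- `q` is obtained from `p` by an elementary step along the plane `W`. -/
def AdjP (l : K) (p q : Gp K × Gp K) (W : Submodule K (A K)) : Prop :=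
  ∃ b ∈ (AffG : Subgroup (Gp K)), ∃ c ∈ (AffG : Subgroup (Gp K)), ∃ (P : A K)
    (hP : P ∈ (B : Subalgebra K (A K))),
    im (p.1 * b) Pl = W ∧ q = p * dia b * E0 l P hP * dia c

/-- adjacency -/
def Adj (l : K) (p q : Gp K × Gp K) : Prop := ∃ W, AdjP l p q W

omit [CharZero K] in
theorem AdjP.adj {l : K} {p q : Gp K × Gp K} {W} (h : AdjP l p q W) : Adj l p q := ⟨W, h⟩

omit [CharZero K] in
theorem dia_mul_inv (a : Gp K) : dia a * dia a⁻¹ = 1 := by
  rw [← dia_mul, mul_inv_cancel, dia_one]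

omit [CharZero K] in
theorem dia_inv_mul (a : Gp K) : dia a⁻¹ * dia a = 1 := by
  rw [← dia_mul, inv_mul_cancel, dia_one]

theorem AdjP.symm {l : K} {p q : Gp K × Gp K} {W} (h : AdjP l p q W) : AdjP l q p W := by
  obtain ⟨b, hb, c, hc, P, hP, hW, rfl⟩ := h
  refine ⟨c⁻¹, inv_mem hc, b⁻¹, inv_mem hb, -P, B.neg_mem hP, ?_, ?_⟩
  · show im (p.1 * b * el P hP * c * c⁻¹) Pl = W
    rw [mul_inv_cancel_right, im_mul, im_el_Pl, hW]
  · rw [mul_assoc _ (dia c), dia_mul_inv, mul_one, mul_assoc _ (E0 l P hP), E0_neg, mul_one,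
      mul_assoc, dia_mul_inv, mul_one]

theorem Adj.symm {l : K} {p q : Gp K × Gp K} (h : Adj l p q) : Adj l q p := by
  obtain ⟨W, h⟩ := h
  exact ⟨W, h.symm⟩

omit [CharZero K] in
/-- an affine stabiliser of the plane acts on the elementary pairs -/
theorem stab_mul {t : Gp K} (ht : t ∈ (AffG : Subgroup (Gp K))) (hPl : im t Pl = Pl) (l : K)
    (P : A K) (hP : P ∈ (B : Subalgebra K (A K))) :
    ∃ (Q : A K) (hQ : Q ∈ (B : Subalgebra K (A K))) (c : K), c ≠ 0 ∧ Q = c • t P ∧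
      dia t * E0 l P hP = E0 l Q hQ * dia t := by
  obtain ⟨d, a, b, c, h0⟩ := mem_Af.mp (mem_AffG_iff.mp ht 0)
  have hx1 : t (x K 1) ∈ (Pl : Submodule K (A K)) := by
    rw [← hPl, im_mem]; exact x1_mem_Pl
  have hx2 : t (x K 2) ∈ (Pl : Submodule K (A K)) := by
    rw [← hPl, im_mem]; exact Ln_le_Pl x2_mem_Ln
  have ha : a ≠ 0 := by
    rintro rfl
    apply x0_not_mem (K := K)
    rw [← im_mem (g := t), hPl, h0, zero_smul, zero_add]
    exact mem_Pl.mpr ⟨d, b, c, rfl⟩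
  have hB : ∀ {Q : A K}, Q ∈ (B : Subalgebra K (A K)) → t Q ∈ (B : Subalgebra K (A K)) := by
    intro Q hQ
    refine map_adjoin_mem (t : A K →ₐ[K] A K) ?_ hQ
    rintro y (rfl | rfl)
    · exact Pl_le_B hx1
    · exact Pl_le_B hx2
  have key : ∀ (Q : A K) (hQ : Q ∈ (B : Subalgebra K (A K))),
      t * el Q hQ = el (a⁻¹ • t Q) (B.smul_mem (hB hQ) _) * t := by
    intro Q hQ
    apply aut_ext3
    intro i
    rw [gp_mul_apply, gp_mul_apply]
    fin_cases i
    · show t (el Q hQ (x K 0)) = el _ _ (t (x K 0))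
      have hu : d • (1 : A K) + (b • x K 1 + c • x K 2) ∈ (B : Subalgebra K (A K)) :=
        Pl_le_B (mem_Pl.mpr ⟨d, b, c, rfl⟩)
      have h0' : t (x K 0) = a • x K 0 + (d • (1 : A K) + (b • x K 1 + c • x K 2)) := by
        rw [h0]; abel
      rw [el_0, map_add, h0', map_add, el_B _ _ hu, map_smul, el_0, smul_add, smul_inv_smul₀ ha]
      abel
    · show t (el Q hQ (x K 1)) = el _ _ (t (x K 1))
      rw [el_1, el_B _ _ (Pl_le_B hx1)]
    · show t (el Q hQ (x K 2)) = el _ _ (t (x K 2))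
      rw [el_2, el_B _ _ (Pl_le_B hx2)]
  refine ⟨a⁻¹ • t P, B.smul_mem (hB hP) _, a⁻¹, inv_ne_zero ha, rfl, ?_⟩
  refine Prod.ext (key P hP) ((key (L l P) (L_mem_B l hP)).trans ?_)
  have e : a⁻¹ • t (L l P) = L l (a⁻¹ • t P) := by
    rw [L_smul]
    congr 1
    rw [L, L, map_add, map_smul, map_smul, aff_star ht]
  exact congrArg (· * t) (el_congr e _ (L_mem_B l (B.smul_mem (hB hP) _)))

omit [CharZero K] in
/-- change of frame for a step along a given plane -/
theorem AdjP.frame {l : K} {p q : Gp K × Gp K} {W} (h : AdjP l p q W) {b : Gp K}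
    (hb : b ∈ (AffG : Subgroup (Gp K))) (hW : im (p.1 * b) Pl = W) :
    ∃ c ∈ (AffG : Subgroup (Gp K)), ∃ (P : A K) (hP : P ∈ (B : Subalgebra K (A K))),
      q = p * dia b * E0 l P hP * dia c := by
  obtain ⟨b', hb', c, hc, P, hP, hW', rfl⟩ := h
  have ht : b⁻¹ * b' ∈ (AffG : Subgroup (Gp K)) := mul_mem (inv_mem hb) hb'
  have hPl : im (b⁻¹ * b') Pl = Pl := by
    have h1 : im (p.1 * b) (im (b⁻¹ * b') Pl) = im (p.1 * b) Pl := by
      rw [← im_mul, mul_assoc, mul_inv_cancel_left, hW, hW']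
    have h2 := congrArg (im (p.1 * b)⁻¹) h1
    rwa [← im_mul (p.1 * b)⁻¹, ← im_mul (p.1 * b)⁻¹, inv_mul_cancel, im_one, im_one] at h2
  obtain ⟨Q, hQ, a, _, _, hE⟩ := stab_mul ht hPl l P hP
  refine ⟨b⁻¹ * b' * c, mul_mem ht hc, Q, hQ, ?_⟩
  have hb2 : dia b' = dia b * dia (b⁻¹ * b') := by rw [← dia_mul, mul_inv_cancel_left]
  rw [hb2, ← mul_assoc p, mul_assoc _ (dia (b⁻¹ * b')) (E0 l P hP), hE, ← mul_assoc,
    dia_mul _ c, ← mul_assoc]

/-- `(R1)`: steps along the same plane compose. -/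
theorem AdjP.r1 {l : K} {p q q' : Gp K × Gp K} {W} (h : AdjP l p q W) (h' : AdjP l p q' W) :
    AdjP l q q' W := by
  obtain ⟨b, hb, c, hc, P, hP, hW, rfl⟩ := h
  obtain ⟨c', hc', P', hP', rfl⟩ := h'.frame hb hW
  refine ⟨c⁻¹, inv_mem hc, c', hc', -P + P', B.add_mem (B.neg_mem hP) hP', ?_, ?_⟩
  · show im (p.1 * b * el P hP * c * c⁻¹) Pl = W
    rw [mul_inv_cancel_right, im_mul, im_el_Pl, hW]
  · rw [mul_assoc _ (dia c), dia_mul_inv, mul_one, ← E0_mul l _ _ (B.neg_mem hP) hP',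
      ← mul_assoc, mul_assoc _ (E0 l P hP), E0_neg, mul_one]

omit [CharZero K] in
theorem AdjP.mul_right {l : K} {p q : Gp K × Gp K} {W} (h : AdjP l p q W) {a : Gp K}
    (ha : a ∈ (AffG : Subgroup (Gp K))) : AdjP l p (q * dia a) W := by
  obtain ⟨b, hb, c, hc, P, hP, hW, rfl⟩ := h
  exact ⟨b, hb, c * a, mul_mem hc ha, P, hP, hW, by rw [dia_mul, ← mul_assoc]⟩

omit [CharZero K] in
theorem AdjP.mul_left {l : K} {p q : Gp K × Gp K} {W} (h : AdjP l p q W) {a : Gp K}
    (ha : a ∈ (AffG : Subgroup (Gp K))) : AdjP l (p * dia a) q W := by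
  obtain ⟨b, hb, c, hc, P, hP, hW, rfl⟩ := h
  refine ⟨a⁻¹ * b, mul_mem (inv_mem ha) hb, c, hc, P, hP, ?_, ?_⟩
  · show im (p.1 * a * (a⁻¹ * b)) Pl = W
    rw [mul_assoc, mul_inv_cancel_left, hW]
  · have h1 : p * dia a * dia (a⁻¹ * b) = p * dia b := by
      rw [mul_assoc, ← dia_mul, mul_inv_cancel_left]
    rw [h1]

/-- steps in a standard frame -/
theorem adjP_std (l : K) (p : Gp K × Gp K) (P : A K) (hP : P ∈ (B : Subalgebra K (A K))) :
    AdjP l p (p * E0 l P hP) (im p.1 Pl) :=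
  ⟨1, one_mem _, 1, one_mem _, P, hP, by rw [mul_one], by rw [dia_one, mul_one, mul_one]⟩

theorem adj_aff (l : K) (p : Gp K × Gp K) {a : Gp K} (ha : a ∈ (AffG : Subgroup (Gp K))) :
    AdjP l p (p * dia a) (im p.1 Pl) := by
  have h := adjP_std l p 0 B.zero_mem
  rw [E0_zero, mul_one] at h
  exact h.mul_right ha

omit [CharZero K] in
/-- the level of the neighbour -/
theorem AdjP.plane_le {l : K} {p q : Gp K × Gp K} {W} (h : AdjP l p q W) :
    W ≤ im p.1 Af ∧ W ≤ im q.1 Af ∧ finrank K W = 3 ∧ lv p.1 = lev W + cf (im p.1 Af) W ∧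
      lv q.1 = lev W + cf (im q.1 Af) W := by
  obtain ⟨b, hb, c, hc, P, hP, hW, rfl⟩ := h
  have h1 : im (p.1 * b) Af = im p.1 Af := by rw [im_mul, mem_AffG.mp hb]
  have h2 : im (p.1 * b * el P hP * c) Af = im (p.1 * b * el P hP) Af := by
    rw [im_mul, mem_AffG.mp hc]
  have h3 : im (p.1 * b * el P hP) Pl = W := by rw [im_mul, im_el_Pl, hW]
  refine ⟨?_, ?_, ?_, ?_, ?_⟩
  · rw [← h1, ← hW]; exact im_mono Pl_le_Af
  · show W ≤ im (p.1 * b * el P hP * c) Af
    rw [h2, ← h3]; exact im_mono Pl_le_Af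
  · rw [← hW, finrank_im, finrank_Pl]
  · have := lv_eq (p.1 * b)
    rw [lv_mul_aff _ hb, h1, hW] at this
    exact this
  · show lv (p.1 * b * el P hP * c) = lev W + cf (im (p.1 * b * el P hP * c) Af) W
    rw [lv_mul_aff _ hc, h2, lv_eq, h3]

/-- A step inside level `D`. -/
def Stp (l : K) (D : ℕ) (p q : Gp K × Gp K) : Prop := lv p.1 ≤ D ∧ lv q.1 ≤ D ∧ Adj l p q

/-- connected inside level `D` -/
def Conn (l : K) (D : ℕ) : Gp K × Gp K → Gp K × Gp K → Prop := Relation.ReflTransGen (Stp l D)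

theorem Stp.symm {l : K} {D : ℕ} {p q : Gp K × Gp K} (h : Stp l D p q) : Stp l D q p :=
  ⟨h.2.1, h.1, h.2.2.symm⟩

theorem Conn.symm {l : K} {D : ℕ} {p q : Gp K × Gp K} (h : Conn l D p q) : Conn l D q p := by
  induction h with
  | refl => exact Relation.ReflTransGen.refl
  | tail _ h1 ih => exact Relation.ReflTransGen.head h1.symm ih

omit [CharZero K] in
theorem Conn.trans {l : K} {D : ℕ} {p q r : Gp K × Gp K} (h : Conn l D p q) (h' : Conn l D q r) :
    Conn l D p r := Relation.ReflTransGen.trans h h'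

omit [CharZero K] in
theorem Stp.conn {l : K} {D : ℕ} {p q : Gp K × Gp K} (h : Stp l D p q) : Conn l D p q :=
  Relation.ReflTransGen.single h

omit [CharZero K] in
theorem Conn.mono {l : K} {D D' : ℕ} (hD : D ≤ D') {p q : Gp K × Gp K} (h : Conn l D p q) :
    Conn l D' p q := by
  induction h with
  | refl => exact Relation.ReflTransGen.refl
  | tail _ h1 ih => exact ih.tail ⟨h1.1.trans hD, h1.2.1.trans hD, h1.2.2⟩

theorem Gam_conn {l : K} {γ : Gp K × Gp K} (hγ : γ ∈ Gam l) :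
    ∀ p : Gp K × Gp K, ∃ D, Conn l D p (p * γ) := by
  induction hγ using Subgroup.closure_induction with
  | mem γ hγ =>
    intro p
    have hadj : Adj l p (p * γ) := by
      obtain ⟨g, h⟩ := γ
      cases hγ with
      | lin g h =>
        have ha : g ∈ (AffG : Subgroup (Gp K)) := by
          rw [mem_AffG_iff]
          intro i
          have hle : Submodule.span K (Set.range (x K)) ≤ (Af : Submodule K (A K)) := by
            rw [Submodule.span_le]
            rintro _ ⟨j, rfl⟩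
            exact x_mem_Af j
          exact hle (h i)
        exact (adj_aff l p ha).adj
      | el P h => exact (adjP_std l p P h).adj
    exact ⟨max (lv p.1) (lv (p * γ).1), Stp.conn ⟨le_max_left _ _, le_max_right _ _, hadj⟩⟩
  | one => intro p; exact ⟨0, by rw [mul_one]; exact Relation.ReflTransGen.refl⟩
  | mul γ δ _ _ h1 h2 =>
    intro p
    obtain ⟨D, hD⟩ := h1 p
    obtain ⟨D', hD'⟩ := h2 (p * γ)
    refine ⟨max D D', ?_⟩
    rw [← mul_assoc]
    exact (hD.mono (le_max_left _ _)).trans (hD'.mono (le_max_right _ _))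
  | inv γ _ h1 =>
    intro p
    obtain ⟨D, hD⟩ := h1 (p * γ⁻¹)
    rw [inv_mul_cancel_right] at hD
    exact ⟨D, hD.symm⟩

/-- Uniqueness at level `D`. -/
def UniqD (l : K) (D : ℕ) : Prop := ∀ h : Gp K, Conn l D (1, 1) (1, h) → h = 1

theorem uniq_of_uniqD (U : ∀ l : K, l ≠ 0 → ∀ D, 3 ≤ D → UniqD l D) : Uniq K := by
  intro l hl h hh
  obtain ⟨D, hD⟩ := Gam_conn hh 1
  rw [one_mul] at hD
  exact U l hl (max D 3) (le_max_right _ _) h (hD.mono (le_max_left _ _))

end Pool.Agent.H66.TA
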