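import Pool.Agent.H66.TA.Pair

/-!
Pairs of elements which are part of a system of coordinates, and the subalgebra they generate.
-/

namespace Pool.Agent.H66.TA

open FreeAlgebra Polynomial Module

variable {K : Type*} [Field K]

/-- the subalgebra generated by two elements -/
def KK (a b : A K) : Subalgebra K (A K) := Algebra.adjoin K {a, b}

theorem KK_comm (a b : A K) : KK a b = KK b a := by rw [KK, KK, Set.pair_comm]

theorem lef_mem (a b : A K) : a ∈ KK a b := Algebra.subset_adjoin (by simp)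

theorem rig_mem (a b : A K) : b ∈ KK a b := Algebra.subset_adjoin (by simp)

theorem KK_le {a b : A K} {S : Subalgebra K (A K)} (ha : a ∈ S) (hb : b ∈ S) : KK a b ≤ S := by
  apply Algebra.adjoin_le
  rintro y (rfl | rfl)
  · exact ha
  · exact hb

theorem aeval_mem {S : Subalgebra K (A K)} {b : A K} (hb : b ∈ S) (q : K[X]) :
    aeval b q ∈ S := by
  induction q using Polynomial.induction_on' with
  | add p q hp hq => rw [map_add]; exact S.add_mem hp hq
  | monomial n a =>
    rw [aeval_monomial]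
    exact S.mul_mem (S.algebraMap_mem a) (S.pow_mem hb n)

theorem KK_shift (a b : A K) (q : K[X]) : KK (a + aeval b q) b = KK a b := by
  apply le_antisymm
  · exact KK_le (Subalgebra.add_mem _ (lef_mem a b) (aeval_mem (rig_mem a b) q)) (rig_mem a b)
  · refine KK_le ?_ (rig_mem _ _)
    have h : a = (a + aeval b q) - aeval b q := by abel
    have h2 : (a + aeval b q) - aeval b q ∈ KK (a + aeval b q) b :=
      Subalgebra.sub_mem _ (lef_mem _ _) (aeval_mem (rig_mem _ _) q)
    rwa [add_sub_cancel_right] at h2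

theorem br_mem {S : Subalgebra K (A K)} {a b : A K} (ha : a ∈ S) (hb : b ∈ S) : br a b ∈ S :=
  S.sub_mem (S.mul_mem ha hb) (S.mul_mem hb ha)

theorem br_swap (a b : A K) : br a b = - br b a := by
  rw [br, br, neg_sub]

theorem dg_br_swap (a b : A K) : dg (br a b) = dg (br b a) := by
  rw [br_swap, dg_neg]

/-- a pair of coordinates -/
def PR (a b : A K) : Prop := ∃ g : Gp K, g (x K 1) = a ∧ g (x K 2) = b

theorem PR.symm {a b : A K} (h : PR a b) : PR b a := by
  obtain ⟨g, rfl, rfl⟩ := h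
  refine ⟨g * permA (Equiv.swap 1 2), ?_, ?_⟩
  · rw [gp_mul_apply, permA_x]; rfl
  · rw [gp_mul_apply, permA_x]; rfl

theorem PR.dgl {a b : A K} (h : PR a b) : dg a ≠ 0 := by
  obtain ⟨g, rfl, rfl⟩ := h
  exact dg_gx g 1

theorem PR.dgr {a b : A K} (h : PR a b) : dg b ≠ 0 := h.symm.dgl

theorem PR.br_ne {a b : A K} (h : PR a b) : br a b ≠ 0 := by
  obtain ⟨g, rfl, rfl⟩ := h
  exact br_gx_ne g (by decide)

theorem KK_eq_map (g : Gp K) : KK (g (x K 1)) (g (x K 2)) =
    (B : Subalgebra K (A K)).map (g : A K →ₐ[K] A K) := by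
  rw [KK, B, AlgHom.map_adjoin, Set.image_pair]
  rfl

theorem mem_KK {g : Gp K} {P : A K} : P ∈ KK (g (x K 1)) (g (x K 2)) ↔
    ∃ P' ∈ (B : Subalgebra K (A K)), g P' = P := by
  rw [KK_eq_map]
  exact Iff.rfl

theorem PR.shift {a b : A K} (h : PR a b) (q : K[X]) : PR (a + aeval b q) b := by
  obtain ⟨g, rfl, rfl⟩ := h
  refine ⟨g * e1 0 q, ?_, ?_⟩
  · rw [gp_mul_apply, e1_1, zero_smul, add_zero, map_add, map_q2]
  · rw [gp_mul_apply, e1_2]

theorem PR.add_smul {a b : A K} (h : PR a b) (c : K) : PR (a + c • b) b := by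
  have := h.shift (c • X)
  rwa [map_smul, aeval_X] at this

/-- a singular pair, the larger element first -/
def Sg (a b : A K) : Prop := Com a b ∧ dg b < dg a ∧ ¬ dg b ∣ dg a

theorem Com.refl (a : A K) : Com a a := Commute.refl _

theorem Com.of_lf_left {a a' b : A K} (h : lf a = lf a') : Com a b ↔ Com a' b := by
  rw [Com, Com, h]

theorem Com.of_lf_right {a b b' : A K} (h : lf b = lf b') : Com a b ↔ Com a b' := by
  rw [Com, Com, h]

theorem com_neg_left {a b : A K} (h : lf a = - lf b) {c : A K} : Com a c ↔ Com b c := by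
  rw [Com, Com, h, Commute.neg_left_iff]

theorem com_const {u v : A K} (h : dg u = 0) : Com u v := by
  obtain ⟨c, rfl⟩ := dg_eq_zero.mp h
  have : lf (algebraMap K (A K) c) = algebraMap K (A K) c := by
    rw [lf, AlgHom.commutes]
    exact leadingCoeff_C _
  rw [Com, this]
  exact Algebra.commutes c _

theorem not_com_dg {u v : A K} (h : ¬ Com u v) : dg u ≠ 0 := fun e => h (com_const e)

/-- transport of a relation between leading forms -/
theorem dg_of_lf {u v : A K} {c : K} {s : ℕ} (h : lf u = c • lf v ^ s) : dg v ∣ dg u := by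
  by_cases hu : u = 0
  · subst hu
    rw [dg_zero]
    exact dvd_zero _
  · have h1 : lf u ≠ 0 := lf_ne_zero hu
    have hc : c ≠ 0 := by
      rintro rfl
      rw [zero_smul] at h
      exact h1 h
    have h2 : dg (lf u) = s * dg v := by
      by_cases hv : v = 0
      · subst hv
        rw [lf_eq_zero.mpr rfl] at h
        by_cases hs : s = 0
        · subst hs
          rw [h, pow_zero, dg_smul hc, dg_one, zero_mul]
        · rw [zero_pow hs, smul_zero] at h
          exact absurd h h1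
      · rw [h, dg_smul hc, dg_pow, dg_lf hv]
    rw [dg_lf hu] at h2
    exact ⟨s, by rw [h2, mul_comm]⟩

/-- `I3` -/
theorem PR.i3 (F : PF K) {a b P : A K} (h : PR a b) (hn : ¬ Com a b) (hP : P ∈ KK a b)
    (hc : Com P b) : dg b ∣ dg P := by
  obtain ⟨g, rfl, rfl⟩ := h
  obtain ⟨P', hP', rfl⟩ := mem_KK.mp hP
  obtain ⟨c, s, hl⟩ := F.p1b g P' hP' hn hc
  exact dg_of_lf hl

/-- small elements of an independent pair -/
theorem PR.small (F : PF K) {a b P : A K} (h : PR a b) (hn : ¬ Com a b) (hP : P ∈ KK a b)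
    (hle : dg b ≤ dg a) (hd : dg P < dg a + dg b) :
    ∃ (α : K) (q : K[X]), P = α • a + aeval b q := by
  obtain ⟨g, rfl, rfl⟩ := h
  obtain ⟨P', hP', rfl⟩ := mem_KK.mp hP
  obtain ⟨α, q, rfl⟩ := F.p1 g P' hP' hn hle hd
  exact ⟨α, q, by rw [map_add, map_smul, map_q2]⟩

theorem NT_of_not_com {a b : A K} (h : ¬ Com a b) : NT a b := fun h2 => h h2.1

/-- `I1` -/
theorem PR.i1 (F : PF K) {a b P : A K} (h : PR a b) (hn : ¬ Com a b) (hP : P ∈ KK a b)
    (hd : dg P < dg a) : ∃ q : K[X], P = aeval b q := by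
  rcases le_or_gt (dg b) (dg a) with h1 | h1
  · obtain ⟨α, q, rfl⟩ := h.small F hn hP h1 (by omega)
    have h2 := (NT.sum (NT_of_not_com hn) h.dgr α q).1
    have hα : α = 0 := by
      by_contra hα
      rw [dg_smul hα] at h2
      omega
    subst hα
    exact ⟨q, by rw [zero_smul, zero_add]⟩
  · have hn' : ¬ Com b a := fun e => hn e.symm
    obtain ⟨α, q, rfl⟩ := h.symm.small F hn' (by rwa [KK_comm]) h1.le (by omega)
    have h2 := NT.sum (NT_of_not_com hn') h.dgl α q
    have hα : α = 0 := by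
      by_contra hα
      have := h2.1
      rw [dg_smul hα] at this
      omega
    subst hα
    rw [zero_smul, zero_add] at hd ⊢
    rw [(dg_aeval h.dgl q).1] at hd
    have hq : q.natDegree = 0 := by
      by_contra hq
      have : 1 * dg a ≤ q.natDegree * dg a := Nat.mul_le_mul_right _ (Nat.one_le_iff_ne_zero.mpr hq)
      omega
    rw [eq_C_of_natDegree_eq_zero hq, aeval_C]
    exact ⟨C (q.coeff 0), by rw [aeval_C]⟩

/-- `I2` -/
theorem PR.i2 (F : PF K) {a b P : A K} (h : PR a b) (hn : ¬ Com a b) (hP : P ∈ KK a b)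
    (hd : dg P ≤ dg a) : ∃ (α : K) (q : K[X]), P = α • a + aeval b q := by
  rcases le_or_gt (dg b) (dg a) with h1 | h1
  · exact h.small F hn hP h1 (by have := h.dgr; omega)
  · have hn' : ¬ Com b a := fun e => hn e.symm
    obtain ⟨α, q, rfl⟩ := h.symm.small F hn' (by rwa [KK_comm]) h1.le (by have := h.dgr; omega)
    have h2 := NT.sum (NT_of_not_com hn') h.dgl α q
    have hα : α = 0 := by
      by_contra hα
      have := h2.1
      rw [dg_smul hα] at this
      omega
    subst hα
    rw [zero_smul, zero_add] at hd ⊢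
    rw [(dg_aeval h.dgl q).1] at hd
    have hq : q.natDegree ≤ 1 := by
      by_contra hq
      have : 2 * dg a ≤ q.natDegree * dg a := Nat.mul_le_mul_right _ (by omega)
      have := h.dgl
      omega
    obtain ⟨u, v, huv⟩ := exists_eq_X_add_C_of_natDegree_le_one hq
    refine ⟨u, C v, ?_⟩
    rw [huv]
    simp only [map_add, map_mul, aeval_C, aeval_X]
    rw [← Algebra.smul_def]

/-- `LC1`, with the term proportional to the larger element -/
theorem PR.lc (F : PF K) {a b P : A K} (h : PR a b) (hs : Sg a b) (h2 : S2 a b)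
    (hP : P ∈ KK a b) (hd : dg P ≤ dg a) :
    ∃ (α β : K) (q : K[X]), P = α • a + aeval b q + β • br a b := by
  obtain ⟨g, rfl, rfl⟩ := h
  obtain ⟨P', hP', rfl⟩ := mem_KK.mp hP
  obtain ⟨α, β, q, rfl⟩ := F.p2 g P' hP' hs.1 hs.2.1 hs.2.2 h2 hd
  exact ⟨α, β, q, by rw [map_add, map_smul, qb, map_add, map_smul, map_q2, map_br, add_assoc]⟩

theorem Sg.nt {a b : A K} (hs : Sg a b) : NT a b := fun h => hs.2.2 h.2

/-- degrees of the terms of a small element of a singular pair -/
theorem PR.lc_deg (F : PF K) {a b : A K} (h : PR a b) (hs : Sg a b) (α β : K) (q : K[X]) :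
    dg (α • a) ≤ dg (α • a + aeval b q + β • br a b) ∧
    dg (aeval b q) ≤ dg (α • a + aeval b q + β • br a b) ∧
    dg (β • br a b) ≤ dg (α • a + aeval b q + β • br a b) ∧
    (β ≠ 0 → dg (α • a + aeval b q) ≤ dg (br a b) → ¬ Com (α • a + aeval b q + β • br a b) b) ∧
    (dg (β • br a b) < dg (α • a + aeval b q) → lf (α • a + aeval b q + β • br a b) =
      lf (α • a + aeval b q)) := by
  have hns := hs.nt.sum h.dgr α q
  by_cases hβ : β = 0
  · subst hβ
    rw [zero_smul, add_zero]
    refine ⟨hns.1, hns.2.1, ?_, fun h => absurd rfl h, fun _ => rfl⟩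
    rw [dg_zero]
    exact Nat.zero_le _
  · have hD : ¬ Com (β • br a b) b := by
      rw [com_smul_iff hβ]
      exact F.tc _ _ h.br_ne h.dgr
    have hcs : Com (α • a + aeval b q) b := by
      have hadd := hns
      have h1 : Com (α • a) b := hs.1.smul_left α
      have h3 : Com (aeval b q) b := com_aeval h.dgr q
      rw [Com, lf_eq_hc, map_add]
      have e1 : Commute (hc (dg (α • a + aeval b q)) (α • a)) (lf b) := by
        rcases lt_or_eq_of_le hadd.1 with h4 | h4
        · rw [hc_eq_zero_of_lt h4]; exact Commute.zero_left _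
        · rw [← h4]; exact h1
      have e2 : Commute (hc (dg (α • a + aeval b q)) (aeval b q)) (lf b) := by
        rcases lt_or_eq_of_le hadd.2.1 with h4 | h4
        · rw [hc_eq_zero_of_lt h4]; exact Commute.zero_left _
        · rw [← h4]; exact h3
      exact e1.add_left e2
    have hm := mix_sum hD hcs
    rw [add_comm (β • br a b)] at hm
    refine ⟨hns.1.trans hm.2.1, hns.2.1.trans hm.2.1, hm.1, fun _ h5 => ?_, fun h5 => hm.2.2.2 h5⟩
    apply hm.2.2.1
    rwa [dg_smul hβ]

/-- `LB` -/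
theorem PR.lb (F : PF K) {a b P : A K} (h : PR a b) (hs : Sg a b) (h2 : S2 a b)
    (hP : P ∈ KK a b) (hd : dg P < dg b) : dg P = 0 := by
  obtain ⟨α, β, q, rfl⟩ := h.lc F hs h2 hP (by have := hs.2.1; omega)
  obtain ⟨h3, h4, h5, -, -⟩ := h.lc_deg F hs α β q
  have hα : α = 0 := by
    by_contra hα
    rw [dg_smul hα] at h3
    have := hs.2.1
    omega
  have hβ : β = 0 := by
    by_contra hβ
    rw [dg_smul hβ] at h5
    have := h2.1
    omega
  subst hα
  subst hβ
  rw [zero_smul, zero_smul, zero_add, add_zero] at hd ⊢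
  rw [(dg_aeval h.dgr q).1] at hd ⊢
  rcases Nat.eq_zero_or_pos q.natDegree with h6 | h6
  · rw [h6, zero_mul]
  · exfalso
    have : 1 * dg b ≤ q.natDegree * dg b := Nat.mul_le_mul_right _ h6
    omega

/-- `LC1` -/
theorem PR.lc1 (F : PF K) {a b P : A K} (h : PR a b) (hs : Sg a b) (h2 : S2 a b)
    (hP : P ∈ KK a b) (hd : dg P < dg a) :
    ∃ (β : K) (q : K[X]), P = aeval b q + β • br a b ∧ dg (aeval b q) ≤ dg P ∧
      dg (β • br a b) ≤ dg P ∧ (β ≠ 0 → dg (aeval b q) ≤ dg (br a b) → ¬ Com P b) ∧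
      (dg (β • br a b) < dg (aeval b q) → lf P = lf (aeval b q)) := by
  obtain ⟨α, β, q, rfl⟩ := h.lc F hs h2 hP hd.le
  obtain ⟨h3, h4, h5, h6, h7⟩ := h.lc_deg F hs α β q
  have hα : α = 0 := by
    by_contra hα
    rw [dg_smul hα] at h3
    omega
  subst hα
  rw [zero_smul, zero_add] at h4 h5 h6 h7 hd ⊢
  exact ⟨β, q, rfl, h4, h5, h6, h7⟩

/-- `LA'` -/
theorem PR.la' (F : PF K) {a b P : A K} (h : PR a b) (hs : Sg a b) (h2 : S2 a b)
    (hP : P ∈ KK a b) (hd : dg P < dg a) (hc : Com P b) : dg b ∣ dg P := by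
  obtain ⟨β, q, hPe, h3, h4, h5, h6⟩ := h.lc1 F hs h2 hP hd
  have key : lf P = lf (aeval b q) → dg b ∣ dg P := by
    intro he
    by_cases hq : q = 0
    · subst hq
      rw [map_zero, lf_eq_zero.mpr rfl, lf_eq_zero] at he
      rw [he, dg_zero]
      exact dvd_zero _
    · rw [(dg_aeval h.dgr q).2 hq] at he
      exact dg_of_lf he
  by_cases hβ : β = 0
  · subst hβ
    rw [zero_smul, add_zero] at hPe
    exact key (by rw [hPe])
  · rcases le_or_gt (dg (aeval b q)) (dg (br a b)) with h7 | h7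
    · exact absurd hc (h5 hβ h7)
    · exact key (h6 (by rw [dg_smul hβ]; exact h7))

/-- `LB2` -/
theorem PR.lb2 (F : PF K) {a b P : A K} (h : PR a b) (hs : Sg a b) (h2 : S2 a b)
    (hP : P ∈ KK a b) (hn : ¬ Com P b) : dg (br a b) ≤ dg P := by
  by_contra hlt
  rw [not_le] at hlt
  apply hn
  have hns := fun (α : K) (q : K[X]) => hs.nt.sum h.dgr α q
  obtain ⟨g, rfl, rfl⟩ := h
  obtain ⟨P', hP', rfl⟩ := mem_KK.mp hP
  obtain ⟨α, q, rfl⟩ := F.p2' g P' hP' hs.1 hs.2.1 hs.2.2 h2 hlt
  rw [map_add, map_smul, map_q2]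
  have h3 := hns α q
  rw [Com, lf_eq_hc, map_add]
  have e1 : Commute (hc (dg (α • g (x K 1) + aeval (g (x K 2)) q)) (α • g (x K 1)))
      (lf (g (x K 2))) := by
    rcases lt_or_eq_of_le h3.1 with h4 | h4
    · rw [hc_eq_zero_of_lt h4]; exact Commute.zero_left _
    · rw [← h4]; exact hs.1.smul_left α
  have e2 : Commute (hc (dg (α • g (x K 1) + aeval (g (x K 2)) q)) (aeval (g (x K 2)) q))
      (lf (g (x K 2))) := by
    rcases lt_or_eq_of_le h3.2.1 with h4 | h4
    · rw [hc_eq_zero_of_lt h4]; exact Commute.zero_left _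
    · rw [← h4]; exact com_aeval (dg_gx g 2) q
  exact e1.add_left e2

end Pool.Agent.H66.TA
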