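import Pool.Agent.H66.TA.Moves

/-!
Canonical frames of the planes of a vertex.
-/

namespace Pool.Agent.H66.TA

open FreeAlgebra Polynomial Module

variable {K : Type*} [Field K]

theorem smul_x1_Pl (a : K) : a • x K 1 ∈ (Pl : Submodule K (A K)) := Pl.smul_mem a x1_mem_Pl

theorem smul_x2_Pl (a : K) : a • x K 2 ∈ (Pl : Submodule K (A K)) :=
  Pl.smul_mem a (Ln_le_Pl x2_mem_Ln)

/-- exchange of the first two generators -/
noncomputable def sw : Gp K := permA (Equiv.swap 0 1)

@[simp] theorem sw_0 : sw (x K 0) = x K 1 := by rw [sw, permA_x]; rfl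
@[simp] theorem sw_1 : sw (x K 1) = x K 0 := by rw [sw, permA_x]; rfl
@[simp] theorem sw_2 : sw (x K 2) = x K 2 := by rw [sw, permA_x]; rfl

theorem sw_aff : sw ∈ (AffG : Subgroup (Gp K)) := permA_aff _

/-- `x0 ↦ x1, x1 ↦ x0 + a x1, x2 ↦ x2` -/
noncomputable def ka (a : K) : Gp K := el (a • x K 1) (Pl_le_B (smul_x1_Pl a)) * sw

@[simp] theorem ka_0 (a : K) : ka a (x K 0) = x K 1 := by
  rw [ka, gp_mul_apply, sw_0, el_1]
@[simp] theorem ka_1 (a : K) : ka a (x K 1) = x K 0 + a • x K 1 := by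
  rw [ka, gp_mul_apply, sw_1, el_0]
@[simp] theorem ka_2 (a : K) : ka a (x K 2) = x K 2 := by
  rw [ka, gp_mul_apply, sw_2, el_2]

theorem ka_aff (a : K) : ka a ∈ (AffG : Subgroup (Gp K)) := mul_mem (el_aff (smul_x1_Pl a)) sw_aff

/-- the permutation `x0 ↦ x2, x1 ↦ x0, x2 ↦ x1` -/
noncomputable def cy : Gp K := permA (finRotate 3).symm

@[simp] theorem cy_0 : cy (x K 0) = x K 2 := by rw [cy, permA_x]; rfl
@[simp] theorem cy_1 : cy (x K 1) = x K 0 := by rw [cy, permA_x]; rfl
@[simp] theorem cy_2 : cy (x K 2) = x K 1 := by rw [cy, permA_x]; rfl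

/-- `x0 ↦ x2, x1 ↦ x0 + a x2, x2 ↦ x1 + b x2` -/
noncomputable def kab (a b : K) : Gp K :=
  el (a • x K 2) (Pl_le_B (smul_x2_Pl a)) *
    (sw * el (b • x K 2) (Pl_le_B (smul_x2_Pl b)) * sw) * cy

@[simp] theorem kab_0 (a b : K) : kab a b (x K 0) = x K 2 := by
  simp only [kab, gp_mul_apply, cy_0, sw_2, el_2]
@[simp] theorem kab_1 (a b : K) : kab a b (x K 1) = x K 0 + a • x K 2 := by
  simp only [kab, gp_mul_apply, cy_1, sw_0, el_1, sw_1, el_0]
@[simp] theorem kab_2 (a b : K) : kab a b (x K 2) = x K 1 + b • x K 2 := by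
  simp only [kab, gp_mul_apply, cy_2, sw_1, el_0, map_add, map_smul, sw_0, sw_2, el_1, el_2]

theorem kab_aff (a b : K) : kab a b ∈ (AffG : Subgroup (Gp K)) :=
  mul_mem (mul_mem (el_aff (smul_x2_Pl a)) (mul_mem (mul_mem sw_aff (el_aff (smul_x2_Pl b)))
    sw_aff)) (permA_aff _)

/-- membership in a plane through one linear functional -/
theorem mem_plane {b : Gp K} (hb : b ∈ (AffG : Subgroup (Gp K))) {u : A K}
    (hu : u ∈ (Af : Submodule K (A K))) :
    u ∈ im b Pl ↔ co (FreeMonoid.of 0) (b⁻¹ u) = 0 := by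
  have h1 : u = b (b⁻¹ u) := by
    rw [← gp_mul_apply, mul_inv_cancel]; rfl
  have hu' : b⁻¹ u ∈ (Af : Submodule K (A K)) := by
    have : im b⁻¹ Af = Af := mem_AffG.mp (inv_mem hb)
    rw [← this, im_mem]
    exact hu
  rw [h1, im_mem, ← h1]
  obtain ⟨d, a, b', c, h⟩ := mem_Af.mp hu'
  rw [h, (co_aff d a b' c).2.1]
  constructor
  · intro hm
    obtain ⟨d', b'', c', h'⟩ := mem_Pl.mp hm
    have := congrArg (co (FreeMonoid.of 0)) h'
    rw [(co_aff d a b' c).2.1] at this
    rw [this]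
    simp [co_of_x, co_of_one]
  · rintro rfl
    rw [zero_smul, zero_add]
    exact mem_Pl.mpr ⟨d, b', c, rfl⟩

theorem one_mem_Pl : (1 : A K) ∈ (Pl : Submodule K (A K)) := Ln_le_Pl one_mem_Ln

/-- Every plane has a canonical frame. -/
theorem plane_class {b : Gp K} (hb : b ∈ (AffG : Subgroup (Gp K))) :
    im b Pl = Pl ∨ (∃ a : K, im b Pl = im (ka a) Pl) ∨ (∃ a c : K, im b Pl = im (kab a c) Pl) := by
  set lam : Fin 3 → K := fun i => co (FreeMonoid.of 0) (b⁻¹ (x K i)) with hlam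
  have hlin : ∀ (d p q r : K), co (FreeMonoid.of 0)
      (b⁻¹ (d • (1 : A K) + (p • x K 0 + (q • x K 1 + r • x K 2)))) =
      p * lam 0 + q * lam 1 + r * lam 2 := by
    intro d p q r
    simp only [map_add, map_smul, map_one, co_of_one, smul_eq_mul, hlam]
    ring
  have eq_of : ∀ (k : Gp K), k ∈ (AffG : Subgroup (Gp K)) →
      co (FreeMonoid.of 0) (b⁻¹ (k (x K 1))) = 0 → co (FreeMonoid.of 0) (b⁻¹ (k (x K 2))) = 0 →
      im b Pl = im k Pl := by
    intro k hk h1 h2
    symm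
    apply Submodule.eq_of_le_of_finrank_eq
    · rintro v ⟨u, hu, rfl⟩
      obtain ⟨d, p, q, rfl⟩ := mem_Pl.mp hu
      have hm : k (d • (1 : A K) + (p • x K 1 + q • x K 2)) ∈ (Af : Submodule K (A K)) := by
        have : im k Af = Af := mem_AffG.mp hk
        rw [← this, im_mem]
        exact Pl_le_Af hu
      show k _ ∈ _
      rw [mem_plane hb hm]
      simp only [map_add, map_smul, map_one, co_of_one, smul_eq_mul, h1, h2]
      ring
    · rw [finrank_im, finrank_im]
  by_cases h2 : lam 2 = 0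
  · by_cases h1 : lam 1 = 0
    · left
      have h := eq_of 1 (one_mem _) h1 h2
      rwa [im_one] at h
    · right; left
      refine ⟨-lam 0 / lam 1, eq_of _ (ka_aff _) ?_ ?_⟩
      · rw [ka_1]
        have := hlin 0 1 (-lam 0 / lam 1) 0
        simp only [zero_smul, zero_add, add_zero, one_smul] at this
        rw [this]
        field_simp
        ring
      · rw [ka_2]; exact h2
  · right; right
    refine ⟨-lam 0 / lam 2, -lam 1 / lam 2, eq_of _ (kab_aff _ _) ?_ ?_⟩
    · rw [kab_1]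
      have := hlin 0 1 0 (-lam 0 / lam 2)
      simp only [zero_smul, zero_add, add_zero, one_smul] at this
      rw [this]
      field_simp
      ring
    · rw [kab_2]
      have := hlin 0 0 1 (-lam 1 / lam 2)
      simp only [zero_smul, zero_add, add_zero, one_smul] at this
      rw [this]
      field_simp
      ring

/-- Planes of a vertex, in the canonical form. -/
theorem AdjP.class {l : K} {p q : Gp K × Gp K} {W : Submodule K (A K)} (h : AdjP l p q W) :
    W = im p.1 Pl ∨ (∃ a : K, W = im (p.1 * ka a) Pl) ∨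
      (∃ a c : K, W = im (p.1 * kab a c) Pl) := by
  obtain ⟨b, hb, c, hc, P, hP, hW, rfl⟩ := h
  rw [← hW, im_mul]
  rcases plane_class hb with h | ⟨a, h⟩ | ⟨a, c, h⟩
  · left; rw [h]
  · right; left; exact ⟨a, by rw [h, im_mul]⟩
  · right; right; exact ⟨a, c, by rw [h, im_mul]⟩

end Pool.Agent.H66.TA
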