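import Pool.Agent.H66.TA.Adapt

/-!
The elementary pairs `x1 ↦ x1 + q(x2) + β [x0, x2]`, `x0 ↦ x0 + r(x2)` and their relations.
-/

namespace Pool.Agent.H66.TA

open FreeAlgebra Polynomial Module

variable {K : Type*} [Field K]

/-- a polynomial in `x2` -/
noncomputable def q2 (q : K[X]) : A K := aeval (x K 2) q

theorem q2_add (q r : K[X]) : q2 (q + r) = q2 q + q2 r := map_add _ _ _

theorem q2_neg (q : K[X]) : q2 (-q) = - q2 q := map_neg _ _

theorem q2_smul (c : K) (q : K[X]) : q2 (c • q) = c • q2 q := map_smul _ _ _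

theorem q2_zero : q2 (0 : K[X]) = 0 := map_zero _

theorem q2_mem (q : K[X]) : q2 q ∈ (B : Subalgebra K (A K)) := by
  unfold q2
  induction q using Polynomial.induction_on' with
  | add p q hp hq => rw [map_add]; exact B.add_mem hp hq
  | monomial n a =>
    rw [aeval_monomial]
    exact B.mul_mem (B.algebraMap_mem a) (B.pow_mem x2_mem n)

theorem q2_star (q : K[X]) : star (q2 q) = q2 q := by
  unfold q2
  induction q using Polynomial.induction_on' with
  | add p q hp hq => rw [map_add, star_add, hp, hq]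
  | monomial n a =>
    rw [aeval_monomial, star_mul, star_algebraMap, star_pow, star_ι, Algebra.commutes]

theorem map_q2 (g : Gp K) (q : K[X]) : g (q2 q) = aeval (g (x K 2)) q := by
  exact (Polynomial.aeval_algHom_apply (g : A K →ₐ[K] A K) (x K 2) q).symm

theorem map_q2_of_fix {g : Gp K} (h : g (x K 2) = x K 2) (q : K[X]) : g (q2 q) = q2 q := by
  rw [map_q2, h]; rfl

/-- commutator -/
def br (u v : A K) : A K := u * v - v * u

theorem br_add_left (u u' v : A K) : br (u + u') v = br u v + br u' v := by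
  simp only [br, add_mul, mul_add]; abel

theorem br_add_right (u v v' : A K) : br u (v + v') = br u v + br u v' := by
  simp only [br, add_mul, mul_add]; abel

theorem br_smul_left (c : K) (u v : A K) : br (c • u) v = c • br u v := by
  simp only [br, smul_mul_assoc, mul_smul_comm, smul_sub]

theorem br_smul_right (c : K) (u v : A K) : br u (c • v) = c • br u v := by
  simp only [br, smul_mul_assoc, mul_smul_comm, smul_sub]

theorem br_self (u : A K) : br u u = 0 := sub_self _

theorem map_br (g : Gp K) (u v : A K) : g (br u v) = br (g u) (g v) := by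
  simp only [br, map_sub, map_mul]

theorem br_aeval (u : A K) (q : K[X]) : br (aeval u q) u = 0 := by
  rw [br, sub_eq_zero]
  have h : Commute (aeval u q) u := by
    induction q using Polynomial.induction_on' with
    | add p q hp hq => rw [map_add]; exact hp.add_left hq
    | monomial n a =>
      rw [aeval_monomial]
      exact Commute.mul_left (Algebra.commutes a u) ((Commute.refl u).pow_left n)
  exact h

/-- `q(x2) + β [x1, x2]` -/
noncomputable def qb (β : K) (q : K[X]) : A K := q2 q + β • br (x K 1) (x K 2)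

theorem qb_mem (β : K) (q : K[X]) : qb β q ∈ (B : Subalgebra K (A K)) :=
  B.add_mem (q2_mem q) (B.smul_mem (B.sub_mem (B.mul_mem x1_mem x2_mem)
    (B.mul_mem x2_mem x1_mem)) _)

theorem qb_add (β β' : K) (q q' : K[X]) : qb β q + qb β' q' = qb (β + β') (q + q') := by
  simp only [qb, q2_add, add_smul]; abel

theorem L_qb [CharZero K] (l β : K) (q : K[X]) : L l (qb β q) = qb (l * β) q := by
  have hs : star (qb β q) = q2 q - β • br (x K 1) (x K 2) := by
    rw [qb, star_add, q2_star, star_smul', br, star_sub, star_mul, star_mul, star_ι, star_ι,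
      sub_eq_add_neg (q2 q), ← smul_neg, neg_sub]
  have h1 : (1 + l) / 2 + (1 - l) / 2 = 1 := by field_simp; ring
  have h2 : (1 + l) / 2 * β - (1 - l) / 2 * β = l * β := by field_simp; ring
  rw [L, hs, qb, smul_add, smul_sub, smul_smul, smul_smul]
  calc (((1 + l) / 2) • q2 q + ((1 + l) / 2 * β) • br (x K 1) (x K 2)) +
      (((1 - l) / 2) • q2 q - ((1 - l) / 2 * β) • br (x K 1) (x K 2))
      = ((1 + l) / 2 + (1 - l) / 2) • q2 q +
        ((1 + l) / 2 * β - (1 - l) / 2 * β) • br (x K 1) (x K 2) := by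
        rw [add_smul, sub_smul]; abel
    _ = qb (l * β) q := by rw [h1, h2, one_smul, qb]

theorem sw_sw : (sw : Gp K) * sw = 1 := by
  apply aut_ext3
  intro i
  rw [gp_mul_apply]
  fin_cases i
  · show sw (sw (x K 0)) = x K 0
    rw [sw_0, sw_1]
  · show sw (sw (x K 1)) = x K 1
    rw [sw_1, sw_0]
  · show sw (sw (x K 2)) = x K 2
    rw [sw_2, sw_2]

/-- `x1 ↦ x1 + q(x2) + β [x0, x2]` -/
noncomputable def e1 (β : K) (q : K[X]) : Gp K := sw * el (qb β q) (qb_mem β q) * sw

@[simp] theorem e1_0 (β : K) (q : K[X]) : e1 β q (x K 0) = x K 0 := by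
  simp only [e1, gp_mul_apply, sw_0, el_1, sw_1]

@[simp] theorem e1_1 (β : K) (q : K[X]) :
    e1 β q (x K 1) = x K 1 + (q2 q + β • br (x K 0) (x K 2)) := by
  simp only [e1, gp_mul_apply, sw_1, el_0, map_add, sw_0, qb, map_smul, map_br, sw_2,
    map_q2_of_fix (sw_2 (K := K))]

@[simp] theorem e1_2 (β : K) (q : K[X]) : e1 β q (x K 2) = x K 2 := by
  simp only [e1, gp_mul_apply, sw_2, el_2]

/-- `x0 ↦ x0 + r(x2)` -/
noncomputable def e0 (r : K[X]) : Gp K := el (q2 r) (q2_mem r)

@[simp] theorem e0_0 (r : K[X]) : e0 r (x K 0) = x K 0 + q2 r := el_0 _ _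
@[simp] theorem e0_1 (r : K[X]) : e0 r (x K 1) = x K 1 := el_1 _ _
@[simp] theorem e0_2 (r : K[X]) : e0 r (x K 2) = x K 2 := el_2 _ _

theorem e1_mul (β β' : K) (q q' : K[X]) : e1 β q * e1 β' q' = e1 (β + β') (q + q') := by
  rw [e1, e1, e1]
  have : sw * el (qb β q) (qb_mem β q) * sw * (sw * el (qb β' q') (qb_mem β' q') * sw) =
      sw * (el (qb β q) (qb_mem β q) * el (qb β' q') (qb_mem β' q')) * sw := by
    rw [mul_assoc, mul_assoc, ← mul_assoc sw (sw * _), ← mul_assoc sw sw, sw_sw, one_mul]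
    simp only [mul_assoc]
  rw [this, el_mul, el_congr (qb_add β β' q q') _ (qb_mem _ _)]

theorem e1_zero : e1 (0 : K) 0 = 1 := by
  apply aut_ext3
  intro i
  fin_cases i
  · exact e1_0 0 0
  · show e1 (0 : K) 0 (x K 1) = x K 1
    rw [e1_1, q2_zero, zero_smul, add_zero, add_zero]
  · exact e1_2 0 0

theorem e1_inv (β : K) (q : K[X]) : (e1 β q)⁻¹ = e1 (-β) (-q) := by
  rw [inv_eq_iff_mul_eq_one, e1_mul, add_neg_cancel, add_neg_cancel, e1_zero]

theorem e0_e1 (r : K[X]) (β : K) (q : K[X]) : e0 r * e1 β q = e1 β q * e0 r := by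
  apply aut_ext3
  intro i
  rw [gp_mul_apply, gp_mul_apply]
  fin_cases i
  · show e0 r (e1 β q (x K 0)) = e1 β q (e0 r (x K 0))
    rw [e1_0, e0_0, map_add, e1_0, map_q2_of_fix (e1_2 β q)]
  · show e0 r (e1 β q (x K 1)) = e1 β q (e0 r (x K 1))
    rw [e1_1, e0_1, e1_1, map_add, map_add, e0_1, map_smul, map_br, e0_0, e0_2,
      map_q2_of_fix (e0_2 r), br_add_left, q2, q2, br_aeval, add_zero]
  · show e0 r (e1 β q (x K 2)) = e1 β q (e0 r (x K 2))
    rw [e1_2, e0_2, e1_2]

theorem e0_mul (r r' : K[X]) : e0 r * e0 r' = e0 (r + r') := by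
  rw [e0, e0, e0, el_mul]
  exact el_congr (q2_add r r').symm _ _

theorem e0_zero : e0 (0 : K[X]) = 1 := by
  rw [e0, el_congr q2_zero _ B.zero_mem, el_zero]

/-- the pair of `e1` -/
noncomputable def E1 (l : K) (β : K) (q : K[X]) : Gp K × Gp K := (e1 β q, e1 (l * β) q)

theorem E1_mul (l β β' : K) (q q' : K[X]) :
    E1 l β q * E1 l β' q' = E1 l (β + β') (q + q') := by
  refine Prod.ext (e1_mul _ _ _ _) ?_
  show e1 _ _ * e1 _ _ = e1 _ _
  rw [e1_mul, mul_add]

theorem E1_zero (l : K) : E1 l 0 0 = 1 := by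
  refine Prod.ext e1_zero ?_
  show e1 (l * 0) 0 = 1
  rw [mul_zero, e1_zero]

theorem E1_dia (l : K) (q : K[X]) : E1 l 0 q = dia (e1 0 q) := by
  rw [E1, mul_zero]; rfl

theorem dia_e0_E1 (l : K) (r : K[X]) (β : K) (q : K[X]) :
    dia (e0 r) * E1 l β q = E1 l β q * dia (e0 r) :=
  Prod.ext (e0_e1 _ _ _) (e0_e1 _ _ _)

theorem E1_eq [CharZero K] (l β : K) (q : K[X]) :
    E1 l β q = dia sw * E0 l (qb β q) (qb_mem β q) * dia sw := by
  refine Prod.ext rfl ?_
  show sw * el (qb (l * β) q) (qb_mem _ _) * sw = sw * el (L l (qb β q)) (L_mem_B l (qb_mem β q)) * sw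
  rw [el_congr (L_qb l β q) (L_mem_B l (qb_mem β q)) (qb_mem _ _)]

theorem E0_q2 [CharZero K] (l : K) (r : K[X]) : E0 l (q2 r) (q2_mem r) = dia (e0 r) := by
  refine Prod.ext rfl ?_
  show el (L l (q2 r)) (L_mem_B l (q2_mem r)) = e0 r
  have h : L l (q2 r) = q2 r := by
    have := L_qb l 0 r
    rw [mul_zero] at this
    have e : qb (0 : K) r = q2 r := by rw [qb, zero_smul, add_zero]
    rwa [e] at this
  rw [e0]
  exact el_congr h _ _

/-- step `x1 ↦ x1 + q(x2) + β [x0,x2]` -/
theorem adjP_E1 [CharZero K] (l : K) (p : Gp K × Gp K) (β : K) (q : K[X]) :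
    AdjP l p (p * E1 l β q) (im (p.1 * sw) Pl) :=
  ⟨sw, sw_aff, sw, sw_aff, qb β q, qb_mem β q, rfl, by
    rw [E1_eq, ← mul_assoc, ← mul_assoc]⟩

/-- step `x0 ↦ x0 + r(x2)` -/
theorem adjP_e0 [CharZero K] (l : K) (p : Gp K × Gp K) (r : K[X]) :
    AdjP l p (p * dia (e0 r)) (im p.1 Pl) := by
  rw [← E0_q2 l r]
  exact adjP_std l p _ _

theorem e1_B (q : K[X]) {P : A K} (hP : P ∈ (B : Subalgebra K (A K))) :
    e1 0 q P ∈ (B : Subalgebra K (A K)) := by
  refine map_adjoin_mem (e1 0 q : A K →ₐ[K] A K) ?_ hP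
  rintro y (rfl | rfl)
  · show e1 0 q (x K 1) ∈ (B : Subalgebra K (A K))
    rw [e1_1, zero_smul, add_zero]
    exact B.add_mem x1_mem (q2_mem q)
  · show e1 0 q (x K 2) ∈ (B : Subalgebra K (A K))
    rw [e1_2]
    exact x2_mem

theorem e1_star (q : K[X]) (P : A K) : e1 0 q (star P) = star (e1 0 q P) := by
  have hx : ∀ i, star (e1 0 q (x K i)) = e1 0 q (x K i) := by
    intro i
    fin_cases i
    · show star (e1 0 q (x K 0)) = e1 0 q (x K 0)
      rw [e1_0, star_ι]
    · show star (e1 0 q (x K 1)) = e1 0 q (x K 1)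
      rw [e1_1, zero_smul, add_zero, star_add, star_ι, q2_star]
    · show star (e1 0 q (x K 2)) = e1 0 q (x K 2)
      rw [e1_2, star_ι]
  induction P using FreeAlgebra.induction with
  | grade0 r => rw [star_algebraMap, AlgEquiv.commutes, star_algebraMap]
  | grade1 i => rw [star_ι, hx]
  | mul u v hu hv => rw [star_mul, map_mul, map_mul, hu, hv, star_mul]
  | add u v hu hv => rw [star_add, map_add, map_add, hu, hv, star_add]

/-- `(R2)` -/
theorem r2 (l : K) (P : A K) (hP : P ∈ (B : Subalgebra K (A K))) (q : K[X]) :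
    E0 l P hP * dia (e1 0 q) = dia (e1 0 q) * E0 l (e1 0 (-q) P) (e1_B _ hP) := by
  have key : ∀ (Q : A K) (hQ : Q ∈ (B : Subalgebra K (A K))),
      el Q hQ * e1 0 q = e1 0 q * el (e1 0 (-q) Q) (e1_B _ hQ) := by
    intro Q hQ
    apply aut_ext3
    intro i
    rw [gp_mul_apply, gp_mul_apply]
    fin_cases i
    · show el Q hQ (e1 0 q (x K 0)) = e1 0 q (el _ _ (x K 0))
      rw [e1_0, el_0, el_0, map_add, e1_0, ← gp_mul_apply, e1_mul, add_zero, add_neg_cancel,
        e1_zero]
      rfl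
    · show el Q hQ (e1 0 q (x K 1)) = e1 0 q (el _ _ (x K 1))
      rw [e1_1, el_1, e1_1, zero_smul, add_zero, map_add, el_1, el_B _ _ (q2_mem q)]
    · show el Q hQ (e1 0 q (x K 2)) = e1 0 q (el _ _ (x K 2))
      rw [e1_2, el_2, el_2, e1_2]
  refine Prod.ext (key P hP) ((key (L l P) (L_mem_B l hP)).trans ?_)
  have e : e1 0 (-q) (L l P) = L l (e1 0 (-q) P) := by
    rw [L, L, map_add, map_smul, map_smul, e1_star]
  exact congrArg (e1 0 q * ·) (el_congr e _ (L_mem_B l (e1_B _ hP)))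

end Pool.Agent.H66.TA
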