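import Mathlib

/-!
Statement for MP_396b13_al: the tame automorphism group of the free associative algebra in three
generators and its semi-inner automorphisms.
-/

namespace Pool.Agent.H66.TA

variable (K : Type*) [Field K]

/-- The free associative algebra in three generators. -/
abbrev A : Type _ := FreeAlgebra K (Fin 3)

/-- The generators. -/
abbrev x (i : Fin 3) : A K := FreeAlgebra.ι K i

/-- `g` sends one generator `x i` to `x i + P`, with `P` in the subalgebra generated by the other
two generators, and fixes the other two generators. -/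
def IsElementary (g : A K ≃ₐ[K] A K) : Prop :=
  ∃ i : Fin 3, (∀ j, j ≠ i → g (x K j) = x K j) ∧
    ∃ P ∈ Algebra.adjoin K {a : A K | ∃ j, j ≠ i ∧ a = x K j}, g (x K i) = x K i + P

/-- `g` is a linear substitution. -/
def IsLinear (g : A K ≃ₐ[K] A K) : Prop :=
  ∀ i, g (x K i) ∈ Submodule.span K (Set.range (x K))

/-- The tame automorphism group. -/
def TAut : Subgroup (A K ≃ₐ[K] A K) :=
  Subgroup.closure {g | IsLinear K g ∨ IsElementary K g}

/-- `ψ` is a semilinear automorphism or a semilinear anti-automorphism of the free algebra, with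
field automorphism `σ`. -/
def IsSemi (σ : K ≃+* K) (ψ : A K ≃+ A K) : Prop :=
  (∀ (c : K) (a : A K), ψ (c • a) = σ c • ψ a) ∧
    ((∀ a b, ψ (a * b) = ψ a * ψ b) ∨ (∀ a b, ψ (a * b) = ψ b * ψ a))

/-- A group automorphism of the tame automorphism group is semi-inner if it is conjugation by a
semilinear automorphism or anti-automorphism of the free algebra. -/
def SemiInner (φ : TAut K ≃* TAut K) : Prop :=
  ∃ (σ : K ≃+* K) (ψ : A K ≃+ A K), IsSemi K σ ψ ∧
    ∀ (g : TAut K) (a : A K), (φ g : A K ≃ₐ[K] A K) (ψ a) = ψ ((g : A K ≃ₐ[K] A K) a)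

end Pool.Agent.H66.TA
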