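import Pool.Agent.H66.TA.Stmt

/-!
The map `e_P ↦ e_{L P}` and the reduction of the existence of the exotic automorphism to the
uniqueness statement `(1,h) ∈ Γ → h = 1`.
-/

namespace Pool.Agent.H66.TA

open FreeAlgebra

variable {K : Type*} [Field K]

/-- The subalgebra generated by the last two generators. -/
def B : Subalgebra K (A K) := Algebra.adjoin K {x K 1, x K 2}

/-- The linear map `L`: identity on symmetric elements, `l` on skew ones. -/
def L (l : K) (P : A K) : A K := ((1 + l) / 2) • P + ((1 - l) / 2) • star P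

theorem star_smul' (c : K) (P : A K) : star (c • P) = c • star P := by
  rw [Algebra.smul_def, star_mul, star_algebraMap, Algebra.smul_def, Algebra.commutes]

theorem L_add (l : K) (P Q : A K) : L l (P + Q) = L l P + L l Q := by
  simp only [L, star_add, smul_add]; abel

theorem L_smul (l c : K) (P : A K) : L l (c • P) = c • L l P := by
  simp only [L, star_smul', smul_add, smul_comm c]

theorem L_neg (l : K) (P : A K) : L l (-P) = - L l P := by
  simp only [L, star_neg, smul_neg]; abel

theorem L_star (l : K) (P : A K) : star (L l P) = L l (star P) := by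
  simp only [L, star_add, star_smul', star_star]

variable [CharZero K]

theorem L_one (P : A K) : L 1 P = P := by
  have : ((1 : K) + 1) / 2 = 1 := by norm_num
  simp [L, this]

theorem L_L (l m : K) (P : A K) : L l (L m P) = L (l * m) P := by
  have h1 : (1 + l) / 2 * ((1 + m) / 2) + (1 - l) / 2 * ((1 - m) / 2) = (1 + l * m) / 2 := by
    field_simp; ring
  have h2 : (1 + l) / 2 * ((1 - m) / 2) + (1 - l) / 2 * ((1 + m) / 2) = (1 - l * m) / 2 := by
    field_simp; ring
  simp only [L, star_add, star_smul', star_star, smul_add, smul_smul]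
  rw [← h1, ← h2, add_smul, add_smul]
  abel

omit [CharZero K] in
theorem x1_mem : x K 1 ∈ (B : Subalgebra K (A K)) := Algebra.subset_adjoin (by simp)

omit [CharZero K] in
theorem x2_mem : x K 2 ∈ (B : Subalgebra K (A K)) := Algebra.subset_adjoin (by simp)

omit [CharZero K] in
theorem star_mem_B {P : A K} (h : P ∈ (B : Subalgebra K (A K))) :
    star P ∈ (B : Subalgebra K (A K)) := by
  induction h using Algebra.adjoin_induction with
  | mem y hy =>
    rcases hy with rfl | rfl
    · simpa using x1_mem
    · simpa using x2_mem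
  | algebraMap r => rw [star_algebraMap]; exact B.algebraMap_mem r
  | add y z _ _ hy hz => rw [star_add]; exact B.add_mem hy hz
  | mul y z _ _ hy hz => rw [star_mul]; exact B.mul_mem hz hy

omit [CharZero K] in
theorem L_mem_B (l : K) {P : A K} (h : P ∈ (B : Subalgebra K (A K))) :
    L l P ∈ (B : Subalgebra K (A K)) :=
  B.add_mem (B.smul_mem h _) (B.smul_mem (star_mem_B h) _)

omit [CharZero K] in
theorem L_algebraMap [CharZero K] (l c : K) : L l (algebraMap K (A K) c) = algebraMap K (A K) c := by
  simp only [L, star_algebraMap, ← add_smul]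
  have : (1 + l) / 2 + (1 - l) / 2 = 1 := by field_simp; ring
  rw [this, one_smul]

/-- The endomorphism `x 0 ↦ x 0 + P`. -/
def elH (P : A K) : A K →ₐ[K] A K := lift K ![x K 0 + P, x K 1, x K 2]

omit [CharZero K] in
@[simp] theorem elH_0 (P : A K) : elH P (x K 0) = x K 0 + P := by simp [elH]

omit [CharZero K] in
@[simp] theorem elH_1 (P : A K) : elH P (x K 1) = x K 1 := by simp [elH]

omit [CharZero K] in
@[simp] theorem elH_2 (P : A K) : elH P (x K 2) = x K 2 := by simp [elH]

omit [CharZero K] in
theorem elH_B (P : A K) {Q : A K} (h : Q ∈ (B : Subalgebra K (A K))) : elH P Q = Q := by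
  induction h using Algebra.adjoin_induction with
  | mem y hy =>
    rcases hy with rfl | rfl
    · exact elH_1 P
    · exact elH_2 P
  | algebraMap r => exact (elH P).commutes r
  | add y z _ _ hy hz => rw [map_add, hy, hz]
  | mul y z _ _ hy hz => rw [map_mul, hy, hz]

omit [CharZero K] in
/-- Two algebra maps which agree on the generators are equal. -/
theorem hom_ext3 {C : Type*} [Semiring C] [Algebra K C] {f g : A K →ₐ[K] C}
    (h0 : f (x K 0) = g (x K 0)) (h1 : f (x K 1) = g (x K 1)) (h2 : f (x K 2) = g (x K 2)) :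
    f = g := by
  apply FreeAlgebra.hom_ext
  funext i
  fin_cases i
  · exact h0
  · exact h1
  · exact h2

omit [CharZero K] in
theorem aut_ext3 {f g : A K ≃ₐ[K] A K}
    (h : ∀ i, f (x K i) = g (x K i)) : f = g := by
  have : (f : A K →ₐ[K] A K) = g := hom_ext3 (h 0) (h 1) (h 2)
  ext a
  exact DFunLike.congr_fun this a

omit [CharZero K] in
theorem elH_comp (P : A K) {Q : A K} (h : Q ∈ (B : Subalgebra K (A K))) :
    (elH P).comp (elH Q) = elH (P + Q) := by
  apply hom_ext3
  · simp [elH_B P h, add_assoc]
  · simp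
  · simp

omit [CharZero K] in
theorem elH_zero : elH (0 : A K) = AlgHom.id K (A K) := by
  apply hom_ext3 <;> simp

/-- The elementary automorphism `x 0 ↦ x 0 + P`, for `P` in the subalgebra of the other two. -/
def el (P : A K) (h : P ∈ (B : Subalgebra K (A K))) : A K ≃ₐ[K] A K :=
  AlgEquiv.ofAlgHom (elH P) (elH (-P))
    (by rw [elH_comp P (B.neg_mem h), add_neg_cancel, elH_zero])
    (by rw [elH_comp (-P) h, neg_add_cancel, elH_zero])

omit [CharZero K] in
@[simp] theorem el_0 (P : A K) (h) : el P h (x K 0) = x K 0 + P := elH_0 P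

omit [CharZero K] in
@[simp] theorem el_1 (P : A K) (h) : el P h (x K 1) = x K 1 := elH_1 P

omit [CharZero K] in
@[simp] theorem el_2 (P : A K) (h) : el P h (x K 2) = x K 2 := elH_2 P

omit [CharZero K] in
theorem el_B (P : A K) (h) {Q : A K} (hQ : Q ∈ (B : Subalgebra K (A K))) : el P h Q = Q :=
  elH_B P hQ

omit [CharZero K] in
theorem el_mul (P Q : A K) (hP hQ) : el P hP * el Q hQ = el (P + Q) (B.add_mem hP hQ) := by
  apply aut_ext3
  intro i
  fin_cases i
  · show el P hP (el Q hQ (x K 0)) = el (P + Q) _ (x K 0)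
    rw [el_0, el_0, map_add, el_0, el_B P hP hQ, add_assoc]
  · show el P hP (el Q hQ (x K 1)) = el (P + Q) _ (x K 1)
    simp
  · show el P hP (el Q hQ (x K 2)) = el (P + Q) _ (x K 2)
    simp

/-- The generators of `Γ`. -/
inductive Gen (l : K) : (A K ≃ₐ[K] A K) → (A K ≃ₐ[K] A K) → Prop
  | lin (g : A K ≃ₐ[K] A K) (h : IsLinear K g) : Gen l g g
  | el (P : A K) (h : P ∈ (B : Subalgebra K (A K))) : Gen l (el P h) (el (L l P) (L_mem_B l h))

/-- The subgroup generated by the pairs `(a, a)`, `a` linear, and `(e_P, e_{L P})`. -/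
def Gam (l : K) : Subgroup ((A K ≃ₐ[K] A K) × (A K ≃ₐ[K] A K)) :=
  Subgroup.closure {p | Gen l p.1 p.2}

end Pool.Agent.H66.TA
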