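import Pool.Agent.H66.TA.IL

/-!
The ultrametric inequality for commutators, the bound for minimal elements, and the reduction of
pairs.
-/

namespace Pool.Agent.H66.TA

open FreeAlgebra Polynomial Module

variable {K : Type*} [Field K]

theorem com_add' {u v b : A K} (hu : Com u b) (hv : Com v b) (h1 : dg u ≤ dg (u + v))
    (h2 : dg v ≤ dg (u + v)) : Com (u + v) b := by
  rw [Com, lf_eq_hc, map_add]
  have key : ∀ w : A K, Com w b → dg w ≤ dg (u + v) →
      Commute (hc (dg (u + v)) w) (lf b) := by
    intro w hw h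
    rcases lt_or_eq_of_le h with h4 | h4
    · rw [hc_eq_zero_of_lt h4]
      exact Commute.zero_left _
    · rw [← h4]
      exact hw
  exact (key u hu h1).add_left (key v hv h2)

theorem Com.neg_left {u b : A K} (h : Com u b) : Com (-u) b := by
  rw [Com, lf_neg]
  exact Commute.neg_left h

theorem jacobi (f g h : A K) : br f (br g h) = br (br f g) h + br g (br f h) := by
  simp only [br]
  noncomm_ring

/-- the ultrametric inequality -/
theorem ultra (F : PF K) {f g h : A K} (hgh : br g h ≠ 0) (hf : dg f ≠ 0) (hg : dg g ≠ 0)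
    (hh : dg h ≠ 0) :
    dg f + dg (br g h) ≤ max (dg g + dg (br f h)) (dg h + dg (br f g)) := by
  have hle := dg_br_le g h
  by_cases h1 : Com f g
  · by_cases h2 : Com f h
    · have h3 : ¬ Com (br g h) h := F.tc _ _ hgh hh
      have h4 : ¬ Com f (br g h) := by
        intro e
        exact h3 (F.ct _ _ _ hf e.symm h2)
      have h5 := (dg_br h4).1
      rw [← h5, jacobi]
      refine (dg_add_le _ _).trans ?_
      rw [max_comm]
      apply max_le_max
      · exact dg_br_le _ _
      · rw [add_comm]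
        exact dg_br_le _ _
    · have h5 := (dg_br h2).1
      apply le_max_of_le_left
      omega
  · have h5 := (dg_br h1).1
    apply le_max_of_le_right
    omega

/-- the isosceles property -/
theorem iso (F : PF K) {a b c : A K} (hab : br a b ≠ 0) (hac : br a c ≠ 0) (hbc : br b c ≠ 0)
    (ha : dg a ≠ 0) (hb : dg b ≠ 0) (hc : dg c ≠ 0)
    (h : dg c + dg (br a b) < dg b + dg (br a c)) :
    dg b + dg (br a c) = dg a + dg (br b c) := by
  have h1 := ultra F hac hb ha hc
  have h2 := ultra F hbc ha hb hc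
  rw [dg_br_swap b a] at h1
  omega

theorem br_pow (z u : A K) (j : ℕ) : br z (u ^ (j + 1)) = br z (u ^ j) * u + u ^ j * br z u := by
  simp only [br, pow_succ]
  noncomm_ring

theorem dg_br_pow (z u : A K) (j : ℕ) : dg (br z (u ^ (j + 1))) ≤ dg (br z u) + j * dg u := by
  induction j with
  | zero => simp
  | succ j ih =>
    rw [br_pow]
    refine (dg_add_le _ _).trans (max_le ?_ ?_)
    · refine (dg_mul_le _ _).trans ?_
      rw [add_mul, one_mul]
      omega
    · refine (dg_mul_le _ _).trans ?_
      rw [dg_pow]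
      omega

/-- commutators with polynomials in one element -/
theorem dg_br_aeval {z u : A K} {N m : ℕ} (h : dg (br z u) ≤ dg u + N) (q : K[X])
    (hq : q.natDegree * dg u ≤ m) : dg (br z (aeval u q)) ≤ m + N := by
  rw [aeval_eq_sum_range]
  have key : ∀ s : Finset ℕ, (∀ i ∈ s, i * dg u ≤ m) →
      dg (br z (∑ i ∈ s, q.coeff i • u ^ i)) ≤ m + N := by
    intro s
    induction s using Finset.induction_on with
    | empty =>
      intro _
      rw [Finset.sum_empty, br, mul_zero, zero_mul, sub_zero, dg_zero]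
      exact Nat.zero_le _
    | insert i s hi ih =>
      intro hs
      rw [Finset.sum_insert hi, br_add_right, br_smul_right]
      refine (dg_add_le _ _).trans (max_le ?_ (ih fun j hj => hs j (Finset.mem_insert_of_mem hj)))
      refine (dg_smul_le _ _).trans ?_
      have h1 := hs i (Finset.mem_insert_self _ _)
      cases i with
      | zero =>
        rw [pow_zero, br, mul_one, one_mul, sub_self, dg_zero]
        exact Nat.zero_le _
      | succ i =>
        have h2 := dg_br_pow z u i
        rw [add_mul, one_mul] at h1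
        omega
  apply key
  intro i hi
  rw [Finset.mem_range] at hi
  exact (Nat.mul_le_mul_right _ (by omega)).trans hq

/-- a reduction by a power -/
theorem exists_red (F : PF K) {c e : A K} (he : dg e ≠ 0) (hc : dg c ≠ 0) (h : Com c e)
    (hd : dg e ∣ dg c) : ∃ (κ : K) (j : ℕ), κ ≠ 0 ∧ j * dg e = dg c ∧ lf c = κ • lf e ^ j ∧
      dg (c - κ • e ^ j) < dg c := by
  obtain ⟨κ, hl⟩ := F.c0 c e he h hd
  have hκ : κ ≠ 0 := by
    rintro rfl
    rw [zero_smul, lf_eq_zero] at hl
    exact hc (by rw [hl, dg_zero])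
  have hj : dg c / dg e * dg e = dg c := Nat.div_mul_cancel hd
  refine ⟨κ, dg c / dg e, hκ, hj, hl, ?_⟩
  apply dg_sub_lt
  · rw [dg_smul hκ, dg_pow, hj]
  · rw [lf_smul, lf_pow, hl]
  · exact hc

theorem Mn.not_dvd (F : PF K) {c a b e : A K} (hm : Mn c a b) (he : e ∈ KK a b) (he0 : dg e ≠ 0)
    (hc0 : dg c ≠ 0) (h : Com c e) : ¬ dg e ∣ dg c := by
  intro hd
  obtain ⟨κ, j, -, -, -, hlt⟩ := exists_red F he0 hc0 h hd
  have := hm (-(κ • e ^ j)) (Subalgebra.neg_mem _ (Subalgebra.smul_mem _ (Subalgebra.pow_mem _ he _) _))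
  rw [← sub_eq_add_neg] at this
  omega

/-- elements of least degree -/
theorem exists_min (a b c : A K) : ∃ P ∈ KK b c, Mn (a + P) b c ∧
    ∀ Q ∈ KK b c, dg (a + P) ≤ dg (a + Q) := by
  have hne : {n | ∃ P ∈ KK b c, dg (a + P) = n}.Nonempty := ⟨_, 0, Subalgebra.zero_mem _, rfl⟩
  obtain ⟨P, hP, hPn⟩ := Nat.sInf_mem hne
  have hmin : ∀ Q ∈ KK b c, dg (a + P) ≤ dg (a + Q) := by
    intro Q hQ
    rw [hPn]
    exact Nat.sInf_le ⟨Q, hQ, rfl⟩
  refine ⟨P, hP, ?_, hmin⟩
  intro Q hQ
  rw [add_assoc]
  exact hmin _ (Subalgebra.add_mem _ hP hQ)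

/-- independent or singular, unordered -/
def IS (x y : A K) : Prop := Com x y → ¬ dg x ∣ dg y ∧ ¬ dg y ∣ dg x

theorem IS.symm {x y : A K} (h : IS x y) : IS y x := fun hc => (h hc.symm).symm

/-- the core of `G'` -/
theorem gp_core (F : PF K) {r e e' P : A K} (hpr : PR e' e) (hIS : IS r e) (hr : dg r ≠ 0)
    (hdiv : Com e' e → ¬ dg e ∣ dg e') (hs2 : Sg e' e → S2 e' e) (hP : P ∈ KK e' e)
    (hd : dg (r + P) < dg r) (hbig : dg e + dg r ≤ dg e') : False := by
  obtain ⟨e1, e2⟩ := low_lf' hd
  have he := hpr.dgr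
  have fin : ∀ q : K[X], P = aeval e q → False := by
    intro q hq
    have hc : Com r e := by
      have : Com P e := by rw [hq]; exact com_aeval he q
      exact (com_neg_left e2).mp this
    apply (hIS hc).2
    rw [← e1, hq, (dg_aeval he q).1]
    exact Dvd.intro_left _ rfl
  by_cases hc : Com e' e
  · have hnd := hdiv hc
    have hsg : Sg e' e := ⟨hc, by omega, hnd⟩
    have h2 := hs2 hsg
    obtain ⟨β, q, hPe, g1, g2, -, -⟩ := hpr.lc1 F hsg h2 hP (by omega)
    have hβ : β = 0 := by
      by_contra hβ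
      rw [dg_smul hβ] at g2
      have := h2.2
      omega
    subst hβ
    rw [zero_smul, add_zero] at hPe
    exact fin q hPe
  · obtain ⟨q, hq⟩ := hpr.i1 F hc hP (by omega)
    exact fin q hq

/-- `G'` for ordered pairs -/
theorem Adm.gp' (F : PF K) {n : ℕ} {V : A K → A K → A K → Prop} (W : Adm n V) {x y c : A K}
    (h : V c x y) (hIS : IS x y) (hm : Mn c x y) (hxy : dg x ≤ dg y) : dg c < dg x + dg y := by
  by_contra hge
  rw [not_lt] at hge
  have hx0 := (W.pr h).dgl
  have hy0 := (W.pr h).dgr
  have hymin : ∀ μ : K, dg (y + μ • x) = dg y := by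
    intro μ
    rcases lt_or_eq_of_le hxy with h1 | h1
    · exact (lf_add_smul_left h1 μ).1
    · apply le_antisymm
      · exact (dg_add_le _ _).trans (max_le le_rfl ((dg_smul_le _ _).trans hxy))
      · by_contra hlt3
        rw [not_le] at hlt3
        obtain ⟨-, h4⟩ := low_lf' hlt3
        rw [lf_smul] at h4
        have h5 : lf y = (-μ) • lf x := by rw [neg_smul, h4, neg_neg]
        have hc : Com x y := by
          rw [Com, h5]
          exact (Commute.refl _).smul_right _
        exact (hIS hc).1 (by rw [h1])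
  have hred : Red x y c := red_sorted hxy (by omega) (fun μ => (hymin μ).ge)
    (fun μ ν => hm.symm.lin μ ν)
  rcases W.a5 (W.cy h) hred hxy (by omega) (by omega) with ⟨P, hP, hd⟩ | ⟨μ, P, hP, hd⟩ |
    ⟨ν, μ, P, hP, hd⟩
  · have := hm P hP
    omega
  · obtain ⟨e3, e4⟩ := lf_add_smul_left (u := c) (v := y) (by omega) μ
    have hV : V (c + μ • y) y x := W.sh μ (W.tr h)
    refine gp_core F (r := y) (e := x) (e' := c + μ • y) (W.pr (W.sw hV)) hIS.symm hy0 ?_ ?_
      (by rwa [KK_comm]) hd (by omega)
    · intro hc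
      rw [e3]
      exact hm.not_dvd F (lef_mem _ _) hx0 (by omega) ((Com.of_lf_left e4).mp hc)
    · exact W.s2 (W.sw hV)
  · obtain ⟨e3, e4⟩ := lf_add_smul_left (u := c) (v := x) (by omega) μ
    have e5 := hymin ν
    have hV : V (c + μ • x) x (y + ν • x) := by
      have h1 : V y x c := W.sw (W.cy h)
      have h2 : V (y + ν • x) x c := W.sh ν h1
      have h3 : V c x (y + ν • x) := W.tr (W.cy (W.cy h2))
      exact W.sh μ h3
    refine gp_core F (r := x) (e := y + ν • x) (e' := c + μ • x) (W.pr (W.sw hV)) ?_ hx0 ?_ ?_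
      (by rwa [KK_comm]) hd (by omega)
    · intro hc
      rw [e5]
      apply hIS
      have h6 : Com (y + ν • x + -(ν • x)) x := by
        apply com_add' hc.symm
        · exact ((Com.refl x).smul_left ν).neg_left
        · rw [add_neg_cancel_right, e5]
        · rw [add_neg_cancel_right, dg_neg]
          exact (dg_smul_le _ _).trans hxy
      rw [add_neg_cancel_right] at h6
      exact h6.symm
    · intro hc
      rw [e3, e5]
      by_cases h7 : Com c y
      · exact hm.not_dvd F (rig_mem _ _) hy0 (by omega) h7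
      · intro hdv
        have h8 : Com c (y + ν • x) := (Com.of_lf_left e4).mp hc
        have h9 := hm.not_dvd F (e := y + ν • x) (Subalgebra.add_mem _ (rig_mem _ _)
          (Subalgebra.smul_mem _ (lef_mem _ _) _)) (by omega) (by omega) h8
        rw [e5] at h9
        exact h9 hdv
    · exact W.s2 (W.sw hV)

end Pool.Agent.H66.TA
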